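import Mathlib
import Pool.Agent.Helper832.PNa
import Pool.Agent.Helper832.PNd

/-!
Fréchet spaces, Fréchet algebras, modules and bimodules, completed projective tensor products,
and flatness of modules and bimodules.

The basic notions `IsPolynormed`, `IsContLin`, `IsContBilin`, `IsProjTensor`, `IsLeftMod`,
`IsRightMod`, `IsBimod`, `IsAdmissible`, `IsTensorOver` are those of
`Pool/Agent/Helper832/PNa.lean` and `Pool/Agent/Helper832/PNd.lean`.
-/

set_option autoImplicit false

namespace Pool.Agent.R298.Fr

open Pool.Agent.Helper832.PN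

universe u

/-- A Fréchet space: a complete Hausdorff locally convex space over `ℂ` which is metrizable
(that is, first countable). -/
class IsFrechet (X : Type u) [AddCommGroup X] [Module ℂ X] [UniformSpace X] : Prop
    extends IsPolynormed X where
  firstCountable : FirstCountableTopology X

attribute [instance] IsFrechet.firstCountable

/-- A Fréchet algebra, not necessarily unital: a Fréchet space with a jointly continuous
associative bilinear multiplication. -/
class IsFrAlg (A : Type u) [NonUnitalRing A] [Module ℂ A] [UniformSpace A] : Prop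
    extends IsFrechet A where
  mul_bilin : IsContBilin (fun a b : A => a * b)

/-- Exactness of `0 → T' → T → T'' → 0`. -/
def IsExact {T' T T'' : Type u} [AddCommGroup T''] (φ : T' → T) (ψ : T → T'') : Prop :=
  Function.Injective φ ∧ Set.range φ = {t | ψ t = 0} ∧ Function.Surjective ψ

section

variable {A : Type u} [NonUnitalRing A] [Module ℂ A] [UniformSpace A]

/-- The left Fréchet module `X` (action `l`) is flat: for every admissible sequence
`0 → Y' → Y → Y'' → 0` of right Fréchet modules the sequence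
`0 → Y' ⊗̂_A X → Y ⊗̂_A X → Y'' ⊗̂_A X → 0` is exact. -/
def FlatL {X : Type u} [AddCommGroup X] [Module ℂ X] [UniformSpace X] (l : A → X → X) : Prop :=
  ∀ (Y' Y Y'' : Type u)
    [AddCommGroup Y'] [Module ℂ Y'] [UniformSpace Y'] [IsFrechet Y']
    [AddCommGroup Y] [Module ℂ Y] [UniformSpace Y] [IsFrechet Y]
    [AddCommGroup Y''] [Module ℂ Y''] [UniformSpace Y''] [IsFrechet Y'']
    (r' : Y' → A → Y') (r : Y → A → Y) (r'' : Y'' → A → Y'') (i : Y' → Y) (j : Y → Y''),
    IsRightMod r' → IsRightMod r → IsRightMod r'' → IsAdmissible i j →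
    (∀ y a, i (r' y a) = r (i y) a) → (∀ y a, j (r y a) = r'' (j y) a) →
    ∀ (T' T T'' : Type u)
      [AddCommGroup T'] [Module ℂ T'] [UniformSpace T'] [IsFrechet T']
      [AddCommGroup T] [Module ℂ T] [UniformSpace T] [IsFrechet T]
      [AddCommGroup T''] [Module ℂ T''] [UniformSpace T''] [IsFrechet T'']
      (t' : Y' → X → T') (t : Y → X → T) (t'' : Y'' → X → T''),
      IsTensorOver r' l t' → IsTensorOver r l t → IsTensorOver r'' l t'' →
      ∀ (φ : T' → T) (ψ : T → T''), IsContLin φ → IsContLin ψ →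
        (∀ y x, φ (t' y x) = t (i y) x) → (∀ y x, ψ (t y x) = t'' (j y) x) → IsExact φ ψ

/-- The right Fréchet module `Y` (action `r`) is flat: for every admissible sequence
`0 → X' → X → X'' → 0` of left Fréchet modules the sequence
`0 → Y ⊗̂_A X' → Y ⊗̂_A X → Y ⊗̂_A X'' → 0` is exact. -/
def FlatR {Y : Type u} [AddCommGroup Y] [Module ℂ Y] [UniformSpace Y] (r : Y → A → Y) : Prop :=
  ∀ (X' X X'' : Type u)
    [AddCommGroup X'] [Module ℂ X'] [UniformSpace X'] [IsFrechet X']
    [AddCommGroup X] [Module ℂ X] [UniformSpace X] [IsFrechet X]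
    [AddCommGroup X''] [Module ℂ X''] [UniformSpace X''] [IsFrechet X'']
    (l' : A → X' → X') (l : A → X → X) (l'' : A → X'' → X'') (i : X' → X) (j : X → X''),
    IsLeftMod l' → IsLeftMod l → IsLeftMod l'' → IsAdmissible i j →
    (∀ a x, i (l' a x) = l a (i x)) → (∀ a x, j (l a x) = l'' a (j x)) →
    ∀ (T' T T'' : Type u)
      [AddCommGroup T'] [Module ℂ T'] [UniformSpace T'] [IsFrechet T']
      [AddCommGroup T] [Module ℂ T] [UniformSpace T] [IsFrechet T]
      [AddCommGroup T''] [Module ℂ T''] [UniformSpace T''] [IsFrechet T'']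
      (t' : Y → X' → T') (t : Y → X → T) (t'' : Y → X'' → T''),
      IsTensorOver r l' t' → IsTensorOver r l t → IsTensorOver r l'' t'' →
      ∀ (φ : T' → T) (ψ : T → T''), IsContLin φ → IsContLin ψ →
        (∀ y x, φ (t' y x) = t y (i x)) → (∀ y x, ψ (t y x) = t'' y (j x)) → IsExact φ ψ

/-- `t : W × V → T` is the completed projective tensor product `W ⊗̂_{A-A} V` of the bimodules
`W` (actions `lW`, `rW`) and `V` (actions `lV`, `rV`), that is, their tensor product over
`A₊ ⊗̂ A₊ᵒᵖ`: it is universal among the jointly continuous bilinear maps into polynormed spaces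
with `t (w a, v) = t (w, a v)` and `t (a w, v) = t (w, v a)`. -/
structure IsBiTensorOver {W V T : Type u} [AddCommGroup W] [Module ℂ W] [UniformSpace W]
    [AddCommGroup V] [Module ℂ V] [UniformSpace V] [AddCommGroup T] [Module ℂ T] [UniformSpace T]
    (lW : A → W → W) (rW : W → A → W) (lV : A → V → V) (rV : V → A → V) (t : W → V → T) :
    Prop where
  bilin : IsContBilin t
  bal_right : ∀ w a v, t (rW w a) v = t w (lV a v)
  bal_left : ∀ w a v, t (lW a w) v = t w (rV v a)
  univ : ∀ (Z : Type u) [AddCommGroup Z] [Module ℂ Z] [UniformSpace Z] [IsPolynormed Z]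
    (β : W → V → Z), IsContBilin β → (∀ w a v, β (rW w a) v = β w (lV a v)) →
      (∀ w a v, β (lW a w) v = β w (rV v a)) →
      ∃! φ : T → Z, IsContLin φ ∧ ∀ w v, φ (t w v) = β w v

/-- The Fréchet bimodule `V` (actions `lV`, `rV`) is flat in `A`-mod-`A`: for every admissible
sequence `0 → W' → W → W'' → 0` of Fréchet bimodules the sequence
`0 → W' ⊗̂_{A-A} V → W ⊗̂_{A-A} V → W'' ⊗̂_{A-A} V → 0` is exact. -/
def FlatB {V : Type u} [AddCommGroup V] [Module ℂ V] [UniformSpace V]
    (lV : A → V → V) (rV : V → A → V) : Prop :=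
  ∀ (W' W W'' : Type u)
    [AddCommGroup W'] [Module ℂ W'] [UniformSpace W'] [IsFrechet W']
    [AddCommGroup W] [Module ℂ W] [UniformSpace W] [IsFrechet W]
    [AddCommGroup W''] [Module ℂ W''] [UniformSpace W''] [IsFrechet W'']
    (l' : A → W' → W') (r' : W' → A → W') (l : A → W → W) (r : W → A → W)
    (l'' : A → W'' → W'') (r'' : W'' → A → W'') (i : W' → W) (j : W → W''),
    IsBimod l' r' → IsBimod l r → IsBimod l'' r'' → IsAdmissible i j →
    (∀ a w, i (l' a w) = l a (i w)) → (∀ w a, i (r' w a) = r (i w) a) →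
    (∀ a w, j (l a w) = l'' a (j w)) → (∀ w a, j (r w a) = r'' (j w) a) →
    ∀ (T' T T'' : Type u)
      [AddCommGroup T'] [Module ℂ T'] [UniformSpace T'] [IsFrechet T']
      [AddCommGroup T] [Module ℂ T] [UniformSpace T] [IsFrechet T]
      [AddCommGroup T''] [Module ℂ T''] [UniformSpace T''] [IsFrechet T'']
      (t' : W' → V → T') (t : W → V → T) (t'' : W'' → V → T''),
      IsBiTensorOver l' r' lV rV t' → IsBiTensorOver l r lV rV t →
      IsBiTensorOver l'' r'' lV rV t'' →
      ∀ (φ : T' → T) (ψ : T → T''), IsContLin φ → IsContLin ψ →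
        (∀ w v, φ (t' w v) = t (i w) v) → (∀ w v, ψ (t w v) = t'' (j w) v) → IsExact φ ψ

end

end Pool.Agent.R298.Fr
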