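import Mathlib
import Pool.Agent.Helper832.PNc
import Pool.Agent.Helper832.PNg
import Pool.Agent.Helper832.PNk
import Pool.Agent.Helper832.PNxc
import Pool.Agent.Helper832.PNxe
import Pool.Agent.Helper832.PNxf
import Pool.Agent.R298.Fr.Defs

/-!
Fréchet spaces: cofinal sequences of seminorms, tensor products, quotient maps.
-/

set_option autoImplicit false
set_option linter.unusedSectionVars false
set_option linter.unusedVariables false

namespace Pool.Agent.R298.Fr

open Pool.Agent.Helper832.PN Topology Filter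

universe u

section Cofinal

variable {E : Type u} [AddCommGroup E] [Module ℂ E] [UniformSpace E]

/-- scaling -/
lemma le_of_ball {P q : Seminorm ℂ E} {ε : ℝ} (hε : 0 < ε) (h : ∀ x, P x < ε → q x < 1) (x : E) :
    q x ≤ ε⁻¹ * P x := by
  apply le_of_forall_pos_le_add
  intro δ hδ
  set c : ℝ := ε⁻¹ * P x + δ with hc
  have hc0 : 0 < c := by
    have := apply_nonneg P x
    have : 0 ≤ ε⁻¹ * P x := by positivity
    linarith
  have h1 : P ((c : ℂ)⁻¹ • x) < ε := by
    rw [map_smul_eq_mul, norm_inv, Complex.norm_real, Real.norm_of_nonneg hc0.le,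
      inv_mul_lt_iff₀ hc0, hc]
    have : (ε⁻¹ * P x + δ) * ε = P x + δ * ε := by field_simp
    rw [this]
    nlinarith
  have h2 := h _ h1
  rw [map_smul_eq_mul, norm_inv, Complex.norm_real, Real.norm_of_nonneg hc0.le,
    inv_mul_lt_iff₀ hc0, mul_one] at h2
  exact h2.le

lemma exists_cofinal [IsFrechet E] : ∃ P : ℕ → Seminorm ℂ E, (∀ n, Continuous (P n)) ∧
    (∀ m n, m ≤ n → ∀ x, P m x ≤ P n x) ∧
    ∀ q : Seminorm ℂ E, Continuous q → ∃ (n : ℕ) (C : ℝ), 0 ≤ C ∧ ∀ x, q x ≤ C * P n x := by
  obtain ⟨P, hP, hmono, hbas⟩ := exists_seq_seminorm (E := E)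
  refine ⟨P, hP, hmono, ?_⟩
  intro q hq
  have h1 : {x : E | q x < 1} ∈ 𝓝 (0 : E) := by
    have : {x : E | q x < 1} = q ⁻¹' (Set.Iio 1) := rfl
    rw [this]
    exact hq.continuousAt.preimage_mem_nhds (by rw [map_zero]; exact Iio_mem_nhds one_pos)
  obtain ⟨n, hn⟩ := hbas _ h1
  have hε : (0 : ℝ) < (1 / 2) ^ n := by positivity
  exact ⟨n, ((1 / 2 : ℝ) ^ n)⁻¹, by positivity, fun x => le_of_ball hε hn x⟩

lemma firstCountable_of_cofinal [IsPolynormed E] (P : ℕ → Seminorm ℂ E)
    (hP : ∀ n, Continuous (P n))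
    (h : ∀ q : Seminorm ℂ E, Continuous q → ∃ (n : ℕ) (C : ℝ), 0 ≤ C ∧ ∀ x, q x ≤ C * P n x) :
    FirstCountableTopology E := by
  have hw : WithSeminorms (P : SeminormFamily ℂ E ℕ) := by
    rw [SeminormFamily.withSeminorms_iff_nhds_eq_iInf]
    apply le_antisymm
    · rw [le_iInf_iff]
      intro n
      rw [← tendsto_iff_comap]
      have := (hP n).tendsto 0
      rwa [map_zero] at this
    · intro U hU
      obtain ⟨q, hq, hqU⟩ := exists_seminorm_of_mem_nhds hU
      obtain ⟨n, C, hC, hn⟩ := h q hq
      apply Filter.mem_iInf_of_mem n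
      refine ⟨Set.Iio ((C + 1)⁻¹), Iio_mem_nhds (by positivity), ?_⟩
      intro x hx
      apply hqU
      have hx' : P n x < (C + 1)⁻¹ := hx
      have h0 := apply_nonneg (P n) x
      calc q x ≤ C * P n x := hn x
        _ ≤ (C + 1) * P n x := by nlinarith
        _ < (C + 1) * (C + 1)⁻¹ := by
            apply mul_lt_mul_of_pos_left hx' (by positivity)
        _ = 1 := mul_inv_cancel₀ (by positivity)
  exact hw.firstCountableTopology

end Cofinal

section PTF

variable {X Y : Type u} [AddCommGroup X] [Module ℂ X] [UniformSpace X] [IsFrechet X]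
  [AddCommGroup Y] [Module ℂ Y] [UniformSpace Y] [IsFrechet Y]

/-- seminorms on the projective tensor product are dominated by projective seminorms -/
lemma le_ptSemi {ρ : Seminorm ℂ (PT X Y)} (hρ : Continuous ρ) {p : Seminorm ℂ X}
    {q : Seminorm ℂ Y} (hp : Continuous p) (hq : Continuous q) {C : ℝ} (hC : 0 ≤ C)
    (h : ∀ x y, ρ (pt x y) ≤ C * (p x * q y)) (z : PT X Y) : ρ z ≤ C * ptSemi p q hp hq z := by
  have h1 := ptLift_bound (X := X) (Y := Y) (Z := PT X Y) (β := pt) pt_isContBilin ρ hρ hp hq hC h z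
  have h2 : ptLift (X := X) (Y := Y) (Z := PT X Y) (β := pt) pt_isContBilin z = z := by
    have := pt_ext (X := X) (Y := Y) (Z := PT X Y)
      (f := fun z => ptLift (β := pt) pt_isContBilin z) (g := fun z => z)
      (isContLin_clm _) isContLin_id (fun x y => ptLift_pt _ x y)
    exact congrFun this z
  rwa [h2] at h1

instance isFrechet_PT : IsFrechet (PT X Y) where
  firstCountable := by
    obtain ⟨P, hP, hPm, hPc⟩ := exists_cofinal (E := X)
    obtain ⟨Q, hQ, hQm, hQc⟩ := exists_cofinal (E := Y)
    refine firstCountable_of_cofinal (fun n => ptSemi (P n) (Q n) (hP n) (hQ n))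
      (fun n => ptSemi_continuous _ _ _ _) ?_
    intro ρ hρ
    obtain ⟨p, q, hp, hq, hb⟩ := (pt_isContBilin (X := X) (Y := Y)).exists_bound ρ hρ
    obtain ⟨m, C, hC, hm⟩ := hPc p hp
    obtain ⟨n, D, hD, hn⟩ := hQc q hq
    refine ⟨max m n, C * D, by positivity, ?_⟩
    apply le_ptSemi hρ _ _ (by positivity)
    intro x y
    calc ρ (pt x y) ≤ p x * q y := hb x y
      _ ≤ (C * P m x) * (D * Q n y) :=
          mul_le_mul (hm x) (hn y) (apply_nonneg _ _)
            (mul_nonneg hC (apply_nonneg _ _))
      _ ≤ (C * P (max m n) x) * (D * Q (max m n) y) :=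
          mul_le_mul (mul_le_mul_of_nonneg_left (hPm _ _ (le_max_left _ _) _) hC)
            (mul_le_mul_of_nonneg_left (hQm _ _ (le_max_right _ _) _) hD)
            (mul_nonneg hD (apply_nonneg _ _)) (mul_nonneg hC (apply_nonneg _ _))
      _ = C * D * (P (max m n) x * Q (max m n) y) := by ring

instance isFrechet_prod : IsFrechet (X × Y) where
  firstCountable := inferInstance

end PTF

section Strict

variable {E F : Type u} [AddCommGroup E] [Module ℂ E] [UniformSpace E] [IsFrechet E]
  [AddCommGroup F] [Module ℂ F] [UniformSpace F] [IsPolynormed F]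

lemma frechet_of_strict {f : E → F} (hf : IsContLin f) (hd : DenseRange f)
    (hs : ∀ q : Seminorm ℂ E, Continuous q → (∀ t, f t = 0 → q t = 0) →
      ∃ q'' : Seminorm ℂ F, Continuous q'' ∧ ∀ t, q t ≤ q'' (f t)) :
    FirstCountableTopology F := by
  obtain ⟨P, hP, hPm, hPc⟩ := exists_cofinal (E := E)
  let N : Submodule ℂ E := LinearMap.ker hf.toCLM.toLinearMap
  have hN : ∀ t, t ∈ N ↔ f t = 0 := fun t => Iff.rfl
  have h1 : ∀ n, ∃ q'' : Seminorm ℂ F, Continuous q'' ∧ ∀ t, quotSemi (P n) N t ≤ q'' (f t) := by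
    intro n
    apply hs
    · refine Seminorm.continuous_of_le (hP n) ?_
      intro x
      have := quotSemi_le (P n) N x 0
      rwa [Submodule.coe_zero, add_zero] at this
    · intro t ht
      apply le_antisymm _ (apply_nonneg _ _)
      have := quotSemi_le (P n) N t ⟨-t, by
        rw [hN]
        have : f (-t) = - f t := map_neg hf.toCLM t
        rw [this, ht, neg_zero]⟩
      simpa using this
  choose R hR hRq using h1
  refine firstCountable_of_cofinal R hR ?_
  intro q hq
  have hqf : Continuous (q.comp hf.toCLM.toLinearMap) := hq.comp hf.cont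
  obtain ⟨n, C, hC, hn⟩ := hPc _ hqf
  refine ⟨n, C, hC, ?_⟩
  have key : ∀ t, q (f t) ≤ C * R n (f t) := by
    intro t
    refine le_trans ?_ (mul_le_mul_of_nonneg_left (hRq n t) hC)
    rw [quotSemi_apply, Real.mul_iInf_of_nonneg hC]
    apply le_ciInf
    intro m
    have h2 := hn (t + m)
    have h3 : q.comp hf.toCLM.toLinearMap (t + m) = q (f t) := by
      have h4 : f (t + (m : E)) = f t := by
        rw [hf.add, (hN _).1 m.2, add_zero]
      show q (f (t + m)) = q (f t)
      rw [h4]
    rw [h3] at h2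
    exact h2
  intro x
  refine hd.induction_on (p := fun x => q x ≤ C * R n x) x ?_ key
  exact isClosed_le hq (continuous_const.mul (hR n))

end Strict

section Strict2

variable {E F : Type u} [AddCommGroup E] [Module ℂ E] [UniformSpace E] [IsFrechet E]
  [AddCommGroup F] [Module ℂ F] [UniformSpace F] [IsFrechet F]

lemma surjective_of_strict {f : E → F} (hf : IsContLin f) (hd : DenseRange f)
    (hs : ∀ q : Seminorm ℂ E, Continuous q → (∀ t, f t = 0 → q t = 0) →
      ∃ q'' : Seminorm ℂ F, Continuous q'' ∧ ∀ t, q t ≤ q'' (f t)) :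
    Function.Surjective f := by
  let N : Submodule ℂ E := LinearMap.ker hf.toCLM.toLinearMap
  have hN : ∀ t, t ∈ N ↔ f t = 0 := fun t => Iff.rfl
  have hNc : IsClosed (N : Set E) := isClosed_eq hf.cont continuous_const
  have : IsPolynormed N := isPolynormed_submodule N hNc
  have hi : IsContLin (fun x : N => (x : E)) := ⟨fun _ _ => rfl, fun _ _ => rfl, continuous_subtype_val⟩
  have hex : IsTopExact (fun x : N => (x : E)) f := by
    refine ⟨hNc.isClosedEmbedding_subtypeVal, ?_, hd, hs⟩
    ext t
    constructor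
    · rintro ⟨x, rfl⟩
      exact x.2
    · intro ht
      exact ⟨⟨t, ht⟩, rfl⟩
  have : FirstCountableTopology N := Topology.IsInducing.subtypeVal.firstCountableTopology
  exact ((topExact_iff_of_frechet hi hf).1 hex).2.2

end Strict2

section Bal

variable {A X Y : Type u}
  [AddCommGroup X] [Module ℂ X] [UniformSpace X] [IsFrechet X]
  [AddCommGroup Y] [Module ℂ Y] [UniformSpace Y] [IsFrechet Y]
  (r : Y → A → Y) (l : A → X → X)

/-- The canonical map `Y ⊗̂ X → Y ⊗̂_A X`. -/
noncomputable def kap : PT Y X → PB r l := fun z => ptLift (pb_isContBilin r l) z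

lemma kap_lin : IsContLin (kap r l) := isContLin_clm _

@[simp] lemma kap_pt (y : Y) (x : X) : kap r l (pt y x) = pb r l y x := ptLift_pt _ _ _

lemma kap_coe (z : AlgT Y X) :
    kap r l (UniformSpace.Completion.coe' z : PT Y X) = cb r l (toBal r l z) := by
  let c : AlgT Y X →ₗ[ℂ] PT Y X :=
    { toFun := fun z => (UniformSpace.Completion.coe' z : PT Y X)
      map_add' := fun x y => UniformSpace.Completion.coe_add x y
      map_smul' := fun c x => UniformSpace.Completion.coe_smul c x }
  let f : AlgT Y X →ₗ[ℂ] PB r l := (kap_lin r l).toCLM.toLinearMap.comp c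
  show f z = cb r l (toBal r l z)
  refine algT_induction (P := fun z => f z = cb r l (toBal r l z)) z ?_ ?_ ?_
  · rw [map_zero, map_zero, map_zero]
  · intro y x
    exact kap_pt r l y x
  · intro a b ha hb
    rw [map_add, ha, hb, map_add, map_add]

lemma kap_dense : DenseRange (kap r l) := by
  have h1 : DenseRange (fun z : BalT r l => cb r l z) :=
    UniformSpace.Completion.denseRange_coe (α := BalT r l)
  refine h1.mono ?_
  rintro _ ⟨z, rfl⟩
  exact ⟨(UniformSpace.Completion.coe' (z : AlgT Y X) : PT Y X), kap_coe r l z⟩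

lemma kap_strict (q : Seminorm ℂ (PT Y X)) (hq : Continuous q)
    (h0 : ∀ t, kap r l t = 0 → q t = 0) :
    ∃ q'' : Seminorm ℂ (PB r l), Continuous q'' ∧ ∀ t, q t ≤ q'' (kap r l t) := by
  let c : AlgT Y X →ₗ[ℂ] PT Y X :=
    { toFun := fun z => (UniformSpace.Completion.coe' z : PT Y X)
      map_add' := fun x y => UniformSpace.Completion.coe_add x y
      map_smul' := fun c x => UniformSpace.Completion.coe_smul c x }
  have hc : Continuous c := UniformSpace.Completion.continuous_coe (AlgT Y X)
  let R : Seminorm ℂ (AlgT Y X) := q.comp c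
  have hR : Continuous R := hq.comp hc
  have hk : ∀ y a x, R (tm (r y a) x - tm y (l a x)) = 0 := by
    intro y a x
    show q (c (tm (r y a) x - tm y (l a x))) = 0
    apply h0
    rw [map_sub]
    have e1 : c (tm (r y a) x) = pt (r y a) x := rfl
    have e2 : c (tm y (l a x)) = pt y (l a x) := rfl
    have e3 := map_sub (kap_lin r l).toCLM (pt (r y a) x) (pt y (l a x))
    rw [e1, e2]
    refine e3.trans ?_
    show kap r l (pt (r y a) x) - kap r l (pt y (l a x)) = 0
    rw [kap_pt, kap_pt, pb_bal, sub_self]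
  let R' : Seminorm ℂ (BalT r l) := balFam r l ⟨R, hR, hk⟩
  have hR' : Continuous R' := (balT_withSeminorms r l).continuous_seminorm ⟨R, hR, hk⟩
  have hkc : Continuous (extSemi R' hR' : Seminorm ℂ (PB r l)) := extSemi_continuous R' hR'
  refine ⟨extSemi R' hR', hkc, ?_⟩
  intro t
  refine UniformSpace.Completion.induction_on (α := AlgT Y X)
    (p := fun t : PT Y X => q t ≤ (extSemi R' hR' : Seminorm ℂ (PB r l)) (kap r l t)) t ?_ ?_
  · exact isClosed_le hq (hkc.comp (kap_lin r l).cont)
  · intro a
    rw [kap_coe]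
    have h1 : (extSemi R' hR' : Seminorm ℂ (PB r l)) (cb r l (toBal r l a)) = R' (toBal r l a) :=
      extSemi_coe R' hR' _
    rw [h1]
    exact le_of_eq rfl

instance isFrechet_PB : IsFrechet (PB r l) where
  firstCountable := frechet_of_strict (kap_lin r l) (kap_dense r l) (kap_strict r l)

lemma kap_surj : Function.Surjective (kap r l) :=
  surjective_of_strict (kap_lin r l) (kap_dense r l) (kap_strict r l)

end Bal

section TriB

variable {A X Y : Type u}
  [AddCommGroup X] [Module ℂ X] [UniformSpace X] [IsFrechet X]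
  [AddCommGroup Y] [Module ℂ Y] [UniformSpace Y] [IsFrechet Y]
  {r : Y → A → Y} {l : A → X → X}
  {V : Type u} [AddCommGroup V] [Module ℂ V] [UniformSpace V] [IsFrechet V]
  {Z : Type u} [AddCommGroup Z] [Module ℂ Z] [UniformSpace Z] [IsPolynormed Z]

/-- two continuous linear maps on the balanced tensor product which agree on elementary tensors
are equal -/
lemma pb_ext {f g : PB r l → Z} (hf : IsContLin f) (hg : IsContLin g)
    (h : ∀ y x, f (pb r l y x) = g (pb r l y x)) (z : PB r l) : f z = g z := by
  refine pb_closure (P := fun z => f z = g z) (isClosed_eq hf.cont hg.cont) ?_ h ?_ z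
  · exact (map_zero hf.toCLM).trans (map_zero hg.toCLM).symm
  · intro a b ha hb
    rw [hf.add, hg.add, ha, hb]

/-- A jointly continuous bilinear map on `V × (Y ⊗̂ X)` which is balanced induces one on
`V × (Y ⊗̂_A X)`. -/
lemma exists_factor_bilin {B : V → PT Y X → Z} (hB : IsContBilin B)
    (hbal : ∀ v y a x, B v (pt (r y a) x) = B v (pt y (l a x))) :
    ∃ B' : V → PB r l → Z, IsContBilin B' ∧ ∀ v z, B' v (kap r l z) = B v z := by
  -- for each `v` the linear factorisation
  have h1 : ∀ v, ∃ F : PB r l → Z, IsContLin F ∧ ∀ z, F (kap r l z) = B v z := by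
    intro v
    obtain ⟨F, ⟨hF, hFt⟩, -⟩ : ∃! φ : PB r l → Z, IsContLin φ ∧ ∀ y x, φ (pb r l y x) = B v (pt y x) := by
      have hmodel : ∀ (β : Y → X → Z), IsContBilin β → (∀ y a x, β (r y a) x = β y (l a x)) →
          ∃! φ : PB r l → Z, IsContLin φ ∧ ∀ y x, φ (pb r l y x) = β y x := by
        intro β hβ hb
        have hu : UniformContinuousConstSMul ℂ Z :=
          uniformContinuousConstSMul_of_continuousConstSMul ℂ Z
        let f : BalT r l →L[ℂ] Z :=
          { toFun := fun z => algLift hβ.toLin z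
            map_add' := fun x y => map_add (algLift hβ.toLin) x y
            map_smul' := fun c x => map_smul (algLift hβ.toLin) c x
            cont := balLift_continuous hβ hb }
        let F : PB r l →L[ℂ] Z := ContinuousLinearMap.fromCompletion f
        have hF : ∀ y x, F (pb r l y x) = β y x := by
          intro y x
          have h1 : F (pb r l y x) = f (toBal r l (tm y x)) :=
            ContinuousLinearMap.fromCompletion_apply_coe f _
          rw [h1]
          exact algLift_tm _ _ _
        refine ⟨fun z => F z, ⟨isContLin_clm F, hF⟩, ?_⟩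
        rintro ψ ⟨hψ, hψ2⟩
        funext z
        exact pb_ext hψ (isContLin_clm F) (fun y x => by rw [hψ2, hF]) z
      apply hmodel
      · exact ⟨fun x x' y => by rw [pt_isContBilin.add_left, hB.add_right],
          fun c x y => by rw [pt_isContBilin.smul_left, hB.smul_right],
          fun x y y' => by rw [pt_isContBilin.add_right, hB.add_right],
          fun c x y => by rw [pt_isContBilin.smul_right, hB.smul_right],
          (hB.cont_right v).comp pt_isContBilin.cont⟩
      · exact hbal v
    refine ⟨F, hF, fun z => ?_⟩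
    have := pt_ext (f := fun z => F (kap r l z)) (g := fun z => B v z)
      (IsContLin.comp' (kap_lin r l) hF) (hB.isContLin_right v)
      (fun y x => by rw [kap_pt, hFt])
    exact congrFun this z
  choose F hF hFk using h1
  have hadd : ∀ v v' z, F (v + v') z = F v z + F v' z := by
    intro v v' z
    obtain ⟨z, rfl⟩ := kap_surj r l z
    rw [hFk, hFk, hFk, hB.add_left]
  have hsmul : ∀ (c : ℂ) v z, F (c • v) z = c • F v z := by
    intro c v z
    obtain ⟨z, rfl⟩ := kap_surj r l z
    rw [hFk, hFk, hB.smul_left]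
  refine ⟨F, ⟨hadd, hsmul, fun v => (hF v).add, fun c v z => (hF v).smul c z, ?_⟩, hFk⟩
  refine continuous_of_bound hadd (fun v => (hF v).add) ?_
  intro ρ hρ
  obtain ⟨p, q, hp, hq, hb⟩ := hB.exists_bound ρ hρ
  let N : Submodule ℂ (PT Y X) := LinearMap.ker (kap_lin r l).toCLM.toLinearMap
  have hN : ∀ t, t ∈ N ↔ kap r l t = 0 := fun t => Iff.rfl
  obtain ⟨q'', hq'', hqq⟩ := kap_strict r l (quotSemi q N) (by
      refine Seminorm.continuous_of_le hq ?_
      intro x
      have := quotSemi_le q N x 0
      rwa [Submodule.coe_zero, add_zero] at this) (by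
      intro t ht
      apply le_antisymm _ (apply_nonneg _ _)
      have := quotSemi_le q N t ⟨-t, by
        rw [hN]
        have : kap r l (-t) = - kap r l t := map_neg (kap_lin r l).toCLM t
        rw [this, ht, neg_zero]⟩
      simpa using this)
  refine ⟨p, q'', hp, hq'', ?_⟩
  intro v z
  obtain ⟨z, rfl⟩ := kap_surj r l z
  rw [hFk]
  refine le_trans ?_ (mul_le_mul_of_nonneg_left (hqq z) (apply_nonneg p v))
  rw [quotSemi_apply, Real.mul_iInf_of_nonneg (apply_nonneg p v)]
  apply le_ciInf
  intro m
  have h2 := hb v (z + m)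
  have h3 : B v (z + m) = B v z := by
    rw [← hFk, ← hFk, (kap_lin r l).add, (hN _).1 m.2, add_zero]
  rwa [h3] at h2

end TriB

end Pool.Agent.R298.Fr
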