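import Mathlib
import Pool.Agent.R298.Fr.A

/-!
Trilinear maps, functoriality and associativity of completed projective tensor products.
-/

set_option autoImplicit false
set_option linter.unusedSectionVars false
set_option linter.unusedVariables false

namespace Pool.Agent.R298.Fr

open Pool.Agent.Helper832.PN Topology Filter

universe u

section Basic

variable {X Y Z : Type u}
  [AddCommGroup X] [Module ℂ X] [UniformSpace X] [IsFrechet X]
  [AddCommGroup Y] [Module ℂ Y] [UniformSpace Y] [IsFrechet Y]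
  [AddCommGroup Z] [Module ℂ Z] [UniformSpace Z] [IsPolynormed Z]

/-- Two continuous linear maps agreeing on elementary tensors are equal. -/
lemma pext {f g : PT X Y → Z} (hf : IsContLin f) (hg : IsContLin g)
    (h : ∀ x y, f (pt x y) = g (pt x y)) (z : PT X Y) : f z = g z :=
  congrFun (pt_ext hf hg h) z

lemma pext' {f g : PT X Y →L[ℂ] Z} (h : ∀ x y, f (pt x y) = g (pt x y)) (z : PT X Y) :
    f z = g z := pext (isContLin_clm f) (isContLin_clm g) h z

lemma exists_plift {β : X → Y → Z} (h : IsContBilin β) :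
    ∃ m : PT X Y →L[ℂ] Z, ∀ x y, m (pt x y) = β x y :=
  ⟨ptLift h, fun x y => ptLift_pt _ _ _⟩

end Basic

section Tri

variable {X Y V W Z : Type u}
  [AddCommGroup X] [Module ℂ X] [UniformSpace X] [IsFrechet X]
  [AddCommGroup Y] [Module ℂ Y] [UniformSpace Y] [IsFrechet Y]
  [AddCommGroup V] [Module ℂ V] [UniformSpace V] [IsFrechet V]
  [AddCommGroup W] [Module ℂ W] [UniformSpace W] [IsPolynormed W]
  [AddCommGroup Z] [Module ℂ Z] [UniformSpace Z] [IsPolynormed Z]

/-- Jointly continuous trilinear maps. -/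
structure IsContTri (τ : X → Y → V → Z) : Prop where
  add1 : ∀ x x' y v, τ (x + x') y v = τ x y v + τ x' y v
  smul1 : ∀ (c : ℂ) x y v, τ (c • x) y v = c • τ x y v
  add2 : ∀ x y y' v, τ x (y + y') v = τ x y v + τ x y' v
  smul2 : ∀ (c : ℂ) x y v, τ x (c • y) v = c • τ x y v
  add3 : ∀ x y v v', τ x y (v + v') = τ x y v + τ x y v'
  smul3 : ∀ (c : ℂ) x y v, τ x y (c • v) = c • τ x y v
  bound : ∀ ρ : Seminorm ℂ Z, Continuous ρ → ∃ (p : Seminorm ℂ X) (q : Seminorm ℂ Y)
    (s : Seminorm ℂ V), Continuous p ∧ Continuous q ∧ Continuous s ∧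
      ∀ x y v, ρ (τ x y v) ≤ p x * q y * s v
  cont12 : ∀ v, Continuous fun p : X × Y => τ p.1 p.2 v
  cont23 : ∀ x, Continuous fun p : Y × V => τ x p.1 p.2
  cont13 : ∀ y, Continuous fun p : X × V => τ p.1 y p.2

lemma IsContTri.mkL {β : X → Y → W} {γ : W → V → Z} (hβ : IsContBilin β) (hγ : IsContBilin γ) :
    IsContTri (fun x y v => γ (β x y) v) where
  add1 x x' y v := by rw [hβ.add_left, hγ.add_left]
  smul1 c x y v := by rw [hβ.smul_left, hγ.smul_left]
  add2 x y y' v := by rw [hβ.add_right, hγ.add_left]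
  smul2 c x y v := by rw [hβ.smul_right, hγ.smul_left]
  add3 x y v v' := hγ.add_right _ _ _
  smul3 c x y v := hγ.smul_right _ _ _
  bound ρ hρ := by
    obtain ⟨q1, s, hq1, hs, h1⟩ := hγ.exists_bound ρ hρ
    obtain ⟨p, q, hp, hq, h2⟩ := hβ.exists_bound q1 hq1
    refine ⟨p, q, s, hp, hq, hs, fun x y v => (h1 _ _).trans ?_⟩
    exact mul_le_mul_of_nonneg_right (h2 x y) (apply_nonneg _ _)
  cont12 v := (hγ.cont_left v).comp hβ.cont
  cont23 x := hγ.cont.comp (((hβ.cont_right x).comp continuous_fst).prodMk continuous_snd)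
  cont13 y := hγ.cont.comp (((hβ.cont_left y).comp continuous_fst).prodMk continuous_snd)

lemma IsContTri.mkR {β : Y → V → W} {γ : X → W → Z} (hβ : IsContBilin β) (hγ : IsContBilin γ) :
    IsContTri (fun x y v => γ x (β y v)) where
  add1 x x' y v := hγ.add_left _ _ _
  smul1 c x y v := hγ.smul_left _ _ _
  add2 x y y' v := by rw [hβ.add_left, hγ.add_right]
  smul2 c x y v := by rw [hβ.smul_left, hγ.smul_right]
  add3 x y v v' := by rw [hβ.add_right, hγ.add_right]
  smul3 c x y v := by rw [hβ.smul_right, hγ.smul_right]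
  bound ρ hρ := by
    obtain ⟨p, q1, hp, hq1, h1⟩ := hγ.exists_bound ρ hρ
    obtain ⟨q, s, hq, hs, h2⟩ := hβ.exists_bound q1 hq1
    refine ⟨p, q, s, hp, hq, hs, fun x y v => (h1 _ _).trans ?_⟩
    rw [mul_assoc]
    exact mul_le_mul_of_nonneg_left (h2 y v) (apply_nonneg _ _)
  cont12 v := hγ.cont.comp (continuous_fst.prodMk ((hβ.cont_left v).comp continuous_snd))
  cont23 x := (hγ.cont_right x).comp hβ.cont
  cont13 y := hγ.cont.comp (continuous_fst.prodMk ((hβ.cont_right y).comp continuous_snd))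

lemma IsContTri.swap12 {τ : X → Y → V → Z} (h : IsContTri τ) :
    IsContTri (fun y x v => τ x y v) where
  add1 x x' y v := h.add2 _ _ _ _
  smul1 c x y v := h.smul2 _ _ _ _
  add2 x y y' v := h.add1 _ _ _ _
  smul2 c x y v := h.smul1 _ _ _ _
  add3 x y v v' := h.add3 _ _ _ _
  smul3 c x y v := h.smul3 _ _ _ _
  bound ρ hρ := by
    obtain ⟨p, q, s, hp, hq, hs, hb⟩ := h.bound ρ hρ
    refine ⟨q, p, s, hq, hp, hs, fun y x v => (hb x y v).trans (le_of_eq ?_)⟩
    rw [mul_comm (q y)]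
  cont12 v := (h.cont12 v).comp continuous_swap
  cont23 x := h.cont13 x
  cont13 y := h.cont23 y

lemma IsContTri.swap23 {τ : X → Y → V → Z} (h : IsContTri τ) :
    IsContTri (fun x v y => τ x y v) where
  add1 x x' y v := h.add1 _ _ _ _
  smul1 c x y v := h.smul1 _ _ _ _
  add2 x y y' v := h.add3 _ _ _ _
  smul2 c x y v := h.smul3 _ _ _ _
  add3 x y v v' := h.add2 _ _ _ _
  smul3 c x y v := h.smul2 _ _ _ _
  bound ρ hρ := by
    obtain ⟨p, q, s, hp, hq, hs, hb⟩ := h.bound ρ hρ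
    refine ⟨p, s, q, hp, hs, hq, fun x v y => (hb x y v).trans (le_of_eq ?_)⟩
    rw [mul_assoc, mul_assoc, mul_comm (q y)]
  cont12 v := h.cont13 v
  cont23 x := (h.cont23 x).comp continuous_swap
  cont13 y := h.cont12 y

/-- Linearisation in the first two variables. -/
lemma IsContTri.right {τ : X → Y → V → Z} (h : IsContTri τ) :
    ∃ B : PT X Y → V → Z, IsContBilin B ∧ ∀ x y v, B (pt x y) v = τ x y v := by
  have hT : ∀ v, IsContBilin (fun x y => τ x y v) := fun v =>
    ⟨fun x x' y => h.add1 _ _ _ _, fun c x y => h.smul1 _ _ _ _, fun x y y' => h.add2 _ _ _ _,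
      fun c x y => h.smul2 _ _ _ _, h.cont12 v⟩
  refine ⟨fun z v => ptLift (hT v) z, triExt (V := V) (Z := Z) hT ?_ ?_ ?_, ?_⟩
  · intro v v' x y
    exact h.add3 _ _ _ _
  · intro c v x y
    exact h.smul3 _ _ _ _
  · intro ρ hρ
    obtain ⟨p, q, s, hp, hq, hs, hb⟩ := h.bound ρ hρ
    refine ⟨p, q, s, hp, hq, hs, fun v x y => (hb x y v).trans (le_of_eq ?_)⟩
    rw [mul_comm]
  · intro x y v
    exact ptLift_pt _ _ _

/-- Linearisation in the last two variables. -/
lemma IsContTri.left {τ : X → Y → V → Z} (h : IsContTri τ) :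
    ∃ B : X → PT Y V → Z, IsContBilin B ∧ ∀ x y v, B x (pt y v) = τ x y v := by
  obtain ⟨B, hB, hBt⟩ := h.swap12.swap23.right
  exact ⟨fun x z => B z x, hB.flip', fun x y v => hBt y v x⟩

end Tri

section Map

variable {X Y X' Y' X'' Y'' V : Type u}
  [AddCommGroup X] [Module ℂ X] [UniformSpace X] [IsFrechet X]
  [AddCommGroup Y] [Module ℂ Y] [UniformSpace Y] [IsFrechet Y]
  [AddCommGroup X'] [Module ℂ X'] [UniformSpace X'] [IsFrechet X']
  [AddCommGroup Y'] [Module ℂ Y'] [UniformSpace Y'] [IsFrechet Y']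
  [AddCommGroup X''] [Module ℂ X''] [UniformSpace X''] [IsFrechet X'']
  [AddCommGroup Y''] [Module ℂ Y''] [UniformSpace Y''] [IsFrechet Y'']
  [AddCommGroup V] [Module ℂ V] [UniformSpace V] [IsFrechet V]

variable (X) in
/-- `1 ⊗ g`. -/
noncomputable def pmr (g : Y →L[ℂ] Y') : PT X Y →L[ℂ] PT X Y' :=
  ptLift (pt_isContBilin.comp_lin (isContLin_id (X := X)) (isContLin_clm g))

@[simp] lemma pmr_pt (g : Y →L[ℂ] Y') (x : X) (y : Y) : pmr X g (pt x y) = pt x (g y) :=
  ptLift_pt _ _ _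

/-- Exactness of `0 → E ⊗̂ U' → E ⊗̂ U → E ⊗̂ U'' → 0` for all Fréchet spaces `E`. -/
def PTExact (I : Y' →L[ℂ] Y) (J : Y →L[ℂ] Y'') : Prop :=
  ∀ (E : Type u) [AddCommGroup E] [Module ℂ E] [UniformSpace E] [IsFrechet E],
    IsExact (pmr E I) (pmr E J)

variable (X Y V) in
lemma exists_assoc : ∃ (f : PT X (PT Y V) →L[ℂ] PT (PT X Y) V)
    (g : PT (PT X Y) V →L[ℂ] PT X (PT Y V)), (∀ x y v, f (pt x (pt y v)) = pt (pt x y) v) ∧
    (∀ x y v, g (pt (pt x y) v) = pt x (pt y v)) ∧ (∀ z, f (g z) = z) ∧ ∀ z, g (f z) = z := by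
  obtain ⟨B, hB, hBt⟩ := (IsContTri.mkL (X := X) (Y := Y) (V := V) (pt_isContBilin (X := X) (Y := Y))
    (pt_isContBilin (X := PT X Y) (Y := V))).left
  obtain ⟨C, hC, hCt⟩ := (IsContTri.mkR (X := X) (Y := Y) (V := V) (pt_isContBilin (X := Y) (Y := V))
    (pt_isContBilin (X := X) (Y := PT Y V))).right
  obtain ⟨f, hf⟩ := exists_plift hB
  obtain ⟨g, hg⟩ := exists_plift hC
  have hf' : ∀ x y v, f (pt x (pt y v)) = pt (pt x y) v := fun x y v => by rw [hf, hBt]
  have hg' : ∀ x y v, g (pt (pt x y) v) = pt x (pt y v) := fun x y v => by rw [hg, hCt]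
  refine ⟨f, g, hf', hg', ?_, ?_⟩
  · intro z
    refine pext (f := fun z => f (g z)) (g := fun z => z)
      ((isContLin_clm g).comp' (isContLin_clm f)) isContLin_id ?_ z
    intro w v
    refine pext (f := fun w => f (g (pt w v))) (g := fun w => pt w v)
      (((pt_isContBilin.isContLin_left v).comp' (isContLin_clm g)).comp' (isContLin_clm f))
      (pt_isContBilin.isContLin_left v) ?_ w
    intro x y
    show f (g (pt (pt x y) v)) = _
    rw [hg', hf']
  · intro z
    refine pext (f := fun z => g (f z)) (g := fun z => z)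
      ((isContLin_clm f).comp' (isContLin_clm g)) isContLin_id ?_ z
    intro x w
    refine pext (f := fun w => g (f (pt x w))) (g := fun w => pt x w)
      (((pt_isContBilin.isContLin_right x).comp' (isContLin_clm f)).comp' (isContLin_clm g))
      (pt_isContBilin.isContLin_right x) ?_ w
    intro y v
    show g (f (pt x (pt y v))) = _
    rw [hf', hg']

/-- Transfer of exactness. -/
lemma IsExact.transfer {T' T T'' S' S S'' : Type u} [AddCommGroup T''] [AddCommGroup S'']
    {φ : T' → T} {ψ : T → T''} (h : IsExact φ ψ) {φ₁ : S' → S} {ψ₁ : S → S''}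
    {a' : S' → T'} {a : S → T} {a'' : S'' → T''} (ha' : Function.Bijective a')
    (ha : Function.Bijective a) (ha'' : Function.Bijective a'')
    (h0 : a'' 0 = 0) (h1 : ∀ s, a (φ₁ s) = φ (a' s)) (h2 : ∀ s, a'' (ψ₁ s) = ψ (a s)) :
    IsExact φ₁ ψ₁ := by
  obtain ⟨hi, he, hs⟩ := h
  refine ⟨?_, ?_, ?_⟩
  · intro x y hxy
    apply ha'.1
    apply hi
    rw [← h1, ← h1, hxy]
  · ext s
    constructor
    · rintro ⟨x, rfl⟩
      show ψ₁ (φ₁ x) = 0
      apply ha''.1
      rw [h0, h2, h1]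
      have : φ (a' x) ∈ {t | ψ t = 0} := he ▸ ⟨_, rfl⟩
      exact this
    · intro hs
      have hs' : ψ₁ s = 0 := hs
      have : a s ∈ {t | ψ t = 0} := by
        show ψ (a s) = 0
        rw [← h2, hs', h0]
      rw [← he] at this
      obtain ⟨x, hx⟩ := this
      obtain ⟨x', rfl⟩ := ha'.2 x
      refine ⟨x', ha.1 ?_⟩
      rw [h1, hx]
  · intro s
    obtain ⟨t, ht⟩ := hs (a'' s)
    obtain ⟨s', rfl⟩ := ha.2 t
    refine ⟨s', ha''.1 ?_⟩
    rw [h2, ht]

variable (V) in
/-- The property passes to `V ⊗̂ -`. -/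
lemma PTExact.pmr {I : Y' →L[ℂ] Y} {J : Y →L[ℂ] Y''} (h : PTExact I J) :
    PTExact (pmr V I) (pmr V J) := by
  intro E _ _ _ _
  obtain ⟨f', g', hf', hg', hfg', hgf'⟩ := exists_assoc E V Y'
  obtain ⟨f, g, hf, hg, hfg, hgf⟩ := exists_assoc E V Y
  obtain ⟨f'', g'', hf'', hg'', hfg'', hgf''⟩ := exists_assoc E V Y''
  have hb' : Function.Bijective f' := Function.bijective_iff_has_inverse.2 ⟨g', hgf', hfg'⟩
  have hb : Function.Bijective f := Function.bijective_iff_has_inverse.2 ⟨g, hgf, hfg⟩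
  have hb'' : Function.Bijective f'' := Function.bijective_iff_has_inverse.2 ⟨g'', hgf'', hfg''⟩
  refine (h (PT E V)).transfer hb' hb hb'' (map_zero f'') ?_ ?_
  · intro s
    refine pext (f := fun s => f (Fr.pmr E (Fr.pmr V I) s)) (g := fun s => Fr.pmr (PT E V) I (f' s))
      ((isContLin_clm _).comp' (isContLin_clm f)) ((isContLin_clm f').comp' (isContLin_clm _)) ?_ s
    intro e w
    refine pext (f := fun w => f (Fr.pmr E (Fr.pmr V I) (pt e w)))
      (g := fun w => Fr.pmr (PT E V) I (f' (pt e w)))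
      (((pt_isContBilin.isContLin_right e).comp' (isContLin_clm _)).comp' (isContLin_clm f))
      (((pt_isContBilin.isContLin_right e).comp' (isContLin_clm f')).comp' (isContLin_clm _)) ?_ w
    intro v y
    show f (Fr.pmr E (Fr.pmr V I) (pt e (pt v y))) = Fr.pmr (PT E V) I (f' (pt e (pt v y)))
    rw [pmr_pt, pmr_pt, hf, hf', pmr_pt]
  · intro s
    refine pext (f := fun s => f'' (Fr.pmr E (Fr.pmr V J) s)) (g := fun s => Fr.pmr (PT E V) J (f s))
      ((isContLin_clm _).comp' (isContLin_clm f'')) ((isContLin_clm f).comp' (isContLin_clm _)) ?_ s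
    intro e w
    refine pext (f := fun w => f'' (Fr.pmr E (Fr.pmr V J) (pt e w)))
      (g := fun w => Fr.pmr (PT E V) J (f (pt e w)))
      (((pt_isContBilin.isContLin_right e).comp' (isContLin_clm _)).comp' (isContLin_clm f''))
      (((pt_isContBilin.isContLin_right e).comp' (isContLin_clm f)).comp' (isContLin_clm _)) ?_ w
    intro v y
    show f'' (Fr.pmr E (Fr.pmr V J) (pt e (pt v y))) = Fr.pmr (PT E V) J (f (pt e (pt v y)))
    rw [pmr_pt, pmr_pt, hf'', hf, pmr_pt]

end Map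

end Pool.Agent.R298.Fr
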