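import Mathlib
import Pool.Agent.R298.Fr.B

/-!
Exactness of the bar complex of a flat right module, and the functor `Y ⊗̂_A -` on sequences
which are exact after tensoring with arbitrary Fréchet spaces.
-/

set_option autoImplicit false
set_option linter.unusedSectionVars false
set_option linter.unusedVariables false

namespace Pool.Agent.R298.Fr

open Pool.Agent.Helper832.PN Topology Filter

universe u

/-- a Fréchet algebra is a polynormed algebra -/
instance polyAlg_of_frAlg (A : Type u) [NonUnitalRing A] [Module ℂ A] [UniformSpace A]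
    [IsFrAlg A] : IsPolyAlg A where
  mul_bilin := IsFrAlg.mul_bilin

section Bar

variable {A Y V : Type u} [NonUnitalRing A] [Module ℂ A] [UniformSpace A] [IsFrAlg A]
  [AddCommGroup Y] [Module ℂ Y] [UniformSpace Y] [IsFrechet Y]
  [AddCommGroup V] [Module ℂ V] [UniformSpace V] [IsFrechet V]

/-- Exactness of `Y ⊗̂ K(V) → Y ⊗̂ V → Y ⊗̂_A V → 0`, where `K(V) = A ⊗̂ V` with the action
`a ⋆ z = a z - a ⊗ m(z)`; moreover the kernel of the first map is that of
`Y ⊗̂ K(V) → Y ⊗̂_A K(V)`. -/
theorem bar_exact {r : Y → A → Y} (hr : IsRightMod r) (hfl : FlatR r) {l : A → V → V}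
    (hl : IsLeftMod l) {lt : A → PT A V → PT A V} (lt_b : IsContBilin lt)
    (lt_p : ∀ a b v, lt a (pt b v) = pt (a * b) v)
    {m : PT A V →L[ℂ] V} (hm : ∀ a v, m (pt a v) = l a v)
    {lK : A → PT A V → PT A V} (hlK : ∀ a z, lK a z = lt a z - pt a (m z))
    {d : PT Y (PT A V) →L[ℂ] PT Y V} (hd : ∀ y b v, d (pt y (pt b v)) = pt (r y b) v - pt y (l b v)) :
    (∀ z, kap r l z = 0 ↔ ∃ w, d w = z) ∧ (∀ w, d w = 0 ↔ kap r lK w = 0) := by
  have hpt : IsContBilin (pt : A → V → PT A V) := pt_isContBilin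
  have hpY : IsContBilin (pt : Y → V → PT Y V) := pt_isContBilin
  have hpK : IsContBilin (pt : Y → PT A V → PT Y (PT A V)) := pt_isContBilin
  have hmlin : IsContLin (fun z => m z) := isContLin_clm m
  have lt_m : ∀ a b z, lt (a * b) z = lt a (lt b z) := by
    intro a b z
    refine pext (f := fun z => lt (a * b) z) (g := fun z => lt a (lt b z))
      (lt_b.isContLin_right _) ((lt_b.isContLin_right b).comp' (lt_b.isContLin_right a)) ?_ z
    intro c v
    simp only [lt_p, mul_assoc]
  have hml : ∀ a z, m (lt a z) = l a (m z) := by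
    intro a z
    refine pext (f := fun z => m (lt a z)) (g := fun z => l a (m z))
      ((lt_b.isContLin_right a).comp' hmlin) (hmlin.comp' (hl.bilin.isContLin_right a)) ?_ z
    intro b v
    simp only [lt_p, hm, hl.mul]
  -- the module `K`
  have hlKb : IsContBilin lK := by
    have := isContBilin_sub lt_b (hpt.comp_lin isContLin_id hmlin)
    have e : lK = fun a z => lt a z - pt a (m z) := by
      funext a z
      exact hlK a z
    rw [e]
    exact this
  have hmK : ∀ a z, m (lK a z) = 0 := by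
    intro a z
    rw [hlK, map_sub, hml, hm, sub_self]
  have hK : IsLeftMod lK := by
    refine ⟨hlKb, ?_⟩
    intro a b z
    rw [hlK a (lK b z), hmK, hpt.zero_right, sub_zero, hlK, hlK, lt_b.sub_right, lt_m, lt_p]
  -- the module `F`
  let lF : A → V × PT A V → V × PT A V := fun a e => (0, pt a e.1 + lt a e.2)
  have hF1 : ∀ a e, (lF a e).1 = 0 := fun _ _ => rfl
  have hF2 : ∀ a e, (lF a e).2 = pt a e.1 + lt a e.2 := fun _ _ => rfl
  have hlFb : IsContBilin lF := isContBilin_inr (isContBilin_add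
    (hpt.comp_lin isContLin_id isContLin_fst) (lt_b.comp_lin isContLin_id isContLin_snd))
  have hF : IsLeftMod lF := by
    refine ⟨hlFb, ?_⟩
    intro a b e
    apply Prod.ext
    · rfl
    · rw [hF2, hF2, hF1, hF2, hpt.zero_right, zero_add, lt_b.add_right, lt_m, lt_p]
  let i : PT A V → V × PT A V := fun z => (-(m z), z)
  have hi1 : ∀ z, (i z).1 = -(m z) := fun _ => rfl
  have hi2 : ∀ z, (i z).2 = z := fun _ => rfl
  have hi : IsContLin i := by
    refine ⟨?_, ?_, (hmlin.cont.neg).prodMk continuous_id⟩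
    · intro z z'
      apply Prod.ext
      · rw [Prod.fst_add, hi1, hi1, hi1, map_add, neg_add]
      · rw [Prod.snd_add, hi2, hi2, hi2]
    · intro c z
      apply Prod.ext
      · rw [Prod.smul_fst, hi1, hi1, map_smul, smul_neg]
      · rw [Prod.smul_snd, hi2, hi2]
  let j : V × PT A V → V := fun e => e.1 + m e.2
  have hj : IsContLin j := by
    refine ⟨?_, ?_, continuous_fst.add (hmlin.cont.comp continuous_snd)⟩
    · intro e e'
      show (e.1 + e'.1) + m (e.2 + e'.2) = (e.1 + m e.2) + (e'.1 + m e'.2)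
      rw [map_add]; abel
    · intro c e
      show c • e.1 + m (c • e.2) = c • (e.1 + m e.2)
      rw [map_smul, smul_add]
  have hadm : IsAdmissible i j := by
    refine ⟨hi, hj, fun e => e.2, fun v => (v, 0), isContLin_snd, ?_, fun _ => rfl, ?_, ?_, ?_⟩
    · refine ⟨?_, ?_, continuous_id.prodMk continuous_const⟩
      · intro v v'
        exact Prod.ext rfl (add_zero 0).symm
      · intro c v
        exact Prod.ext rfl (smul_zero c).symm
    · intro v
      show v + m 0 = v
      rw [map_zero, add_zero]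
    · intro z
      show -(m z) + m z = 0
      abel
    · intro e
      apply Prod.ext
      · show e.1 = -(m e.2) + (e.1 + m e.2)
        abel
      · show e.2 = e.2 + 0
        abel
  have hil : ∀ a z, i (lK a z) = lF a (i z) := by
    intro a z
    apply Prod.ext
    · rw [hi1, hF1, hmK, neg_zero]
    · rw [hi2, hF2, hi1, hi2, hpt.neg_right, hlK]
      abel
  have hjl : ∀ a e, j (lF a e) = l a (j e) := by
    intro a e
    show 0 + m (pt a e.1 + lt a e.2) = l a (e.1 + m e.2)
    rw [map_add, hm, hml, zero_add, hl.bilin.add_right]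
  -- the tensor product `Y ⊗̂_A F = Y ⊗̂ V`
  obtain ⟨μ, hμ, hμt⟩ := (IsContTri.mkL (X := Y) (Y := A) (V := V) hr.bilin hpY).left
  have hμl : ∀ y a z, μ (r y a) z = μ y (lt a z) := by
    intro y a z
    refine pext (f := fun z => μ (r y a) z) (g := fun z => μ y (lt a z))
      (hμ.isContLin_right _) ((lt_b.isContLin_right a).comp' (hμ.isContLin_right y)) ?_ z
    intro b v
    show μ (r y a) (pt b v) = μ y (lt a (pt b v))
    rw [hμt, lt_p, hμt, hr.mul]
  let tF : Y → V × PT A V → PT Y V := fun y e => pt y e.1 + μ y e.2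
  have htF : IsTensorOver r lF tF := by
    refine ⟨isContBilin_add (hpY.comp_lin isContLin_id isContLin_fst)
      (hμ.comp_lin isContLin_id isContLin_snd), ?_, ?_⟩
    · intro y a e
      show pt (r y a) e.1 + μ (r y a) e.2 = pt y 0 + μ y (pt a e.1 + lt a e.2)
      rw [hpY.zero_right, hμ.add_right, hμt, hμl, zero_add]
    · intro Z _ _ _ _ β hβ hbal
      have h1 : IsContBilin (fun y v => β y (v, 0)) := by
        refine ⟨fun x x' y => hβ.add_left _ _ _, fun c x y => hβ.smul_left _ _ _, ?_, ?_, ?_⟩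
        · intro x y y'
          rw [← hβ.add_right]
          congr 1
          exact Prod.ext rfl (add_zero 0).symm
        · intro c x y
          rw [← hβ.smul_right]
          congr 1
          exact Prod.ext rfl (smul_zero c).symm
        · exact hβ.cont.comp (continuous_fst.prodMk (continuous_snd.prodMk continuous_const))
      obtain ⟨g, hg⟩ := exists_plift h1
      have hgμ : ∀ y z, g (μ y z) = β y (0, z) := by
        intro y z
        have h2 : IsContLin (fun z => β y ((0, z) : V × PT A V)) := by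
          refine ⟨?_, ?_, ?_⟩
          · intro x x'
            rw [← hβ.add_right]
            congr 1
            exact Prod.ext (add_zero 0).symm rfl
          · intro c x
            rw [← hβ.smul_right]
            congr 1
            exact Prod.ext (smul_zero c).symm rfl
          · exact hβ.cont.comp (continuous_const.prodMk (continuous_const.prodMk continuous_id))
        refine pext (f := fun z => g (μ y z)) (g := fun z => β y (0, z))
          ((hμ.isContLin_right y).comp' (isContLin_clm g)) h2 ?_ z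
        intro b v
        show g (μ y (pt b v)) = β y (0, pt b v)
        rw [hμt, hg, hbal]
        congr 1
        apply Prod.ext
        · rfl
        · show pt b v + lt b 0 = pt b v
          rw [lt_b.zero_right, add_zero]
      refine ⟨fun z => g z, ⟨isContLin_clm g, ?_⟩, ?_⟩
      · intro y e
        show g (pt y e.1 + μ y e.2) = β y e
        rw [map_add, hg, hgμ, ← hβ.add_right]
        congr 1
        apply Prod.ext
        · exact add_zero _
        · exact zero_add _
      · rintro g' ⟨hg', hg't⟩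
        funext z
        refine pext (f := fun z => g' z) (g := fun z => g z) hg' (isContLin_clm g) ?_ z
        intro y v
        show g' (pt y v) = g (pt y v)
        have h3 := hg't y (v, 0)
        have h4 : tF y (v, 0) = pt y v := by
          show pt y v + μ y 0 = pt y v
          rw [hμ.zero_right, add_zero]
        rw [h4] at h3
        rw [h3, hg]
  have htK := isTensorOver_pb r lK
  have htV := isTensorOver_pb r l
  -- the maps
  obtain ⟨φ, ⟨hφ, hφt⟩, -⟩ := htK.univ (PT Y V) (fun y z => tF y (i z))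
    (htF.bilin.comp_lin isContLin_id hi) (fun y a z => by
      show tF (r y a) (i z) = tF y (i (lK a z))
      rw [hil, htF.bal])
  obtain ⟨ψ, ⟨hψ, hψt⟩, -⟩ := htF.univ (PB r l) (fun y e => pb r l y (j e))
    (htV.bilin.comp_lin isContLin_id hj) (fun y a e => by
      show pb r l (r y a) (j e) = pb r l y (j (lF a e))
      rw [hjl, htV.bal])
  obtain ⟨hinj, hex, hsurj⟩ := hfl (PT A V) (V × PT A V) V lK lF l i j hK hF hl hadm hil hjl
    (PB r lK) (PT Y V) (PB r l) (pb r lK) tF (pb r l) htK htF htV φ ψ hφ hψ hφt hψt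
  have hψk : ∀ z, ψ z = kap r l z := by
    intro z
    refine pext (f := fun z => ψ z) (g := fun z => kap r l z) hψ (kap_lin r l) ?_ z
    intro y v
    show ψ (pt y v) = kap r l (pt y v)
    have h3 := hψt y (v, 0)
    have h4 : tF y (v, 0) = pt y v := by
      show pt y v + μ y 0 = pt y v
      rw [hμ.zero_right, add_zero]
    rw [h4] at h3
    rw [h3, kap_pt]
    show pb r l y (v + m 0) = pb r l y v
    rw [map_zero, add_zero]
  have hφd : ∀ w, φ (kap r lK w) = d w := by
    intro w
    refine pext (f := fun w => φ (kap r lK w)) (g := fun w => d w)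
      ((kap_lin r lK).comp' hφ) (isContLin_clm d) ?_ w
    intro y z
    refine pext (f := fun z => φ (kap r lK (pt y z))) (g := fun z => d (pt y z))
      (((hpK.isContLin_right y).comp' (kap_lin r lK)).comp' hφ)
      ((hpK.isContLin_right y).comp' (isContLin_clm d)) ?_ z
    intro b v
    show φ (kap r lK (pt y (pt b v))) = d (pt y (pt b v))
    rw [kap_pt, hφt, hd]
    show pt y (-(m (pt b v))) + μ y (pt b v) = _
    rw [hpY.neg_right, hm, hμt]
    abel
  constructor
  · intro z
    rw [← hψk]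
    constructor
    · intro hz
      have : z ∈ Set.range φ := by
        rw [hex]
        exact hz
      obtain ⟨x, hx⟩ := this
      obtain ⟨w, rfl⟩ := kap_surj r lK x
      exact ⟨w, by rw [← hφd, hx]⟩
    · rintro ⟨w, rfl⟩
      have : φ (kap r lK w) ∈ {t | ψ t = 0} := hex ▸ ⟨_, rfl⟩
      rw [hφd] at this
      exact this
  · intro w
    rw [← hφd]
    constructor
    · intro hw
      apply hinj
      rw [hw]
      exact (map_zero hφ.toCLM).symm
    · intro hw
      rw [hw]
      exact map_zero hφ.toCLM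

end Bar

section Chase

variable {A Y U' U U'' : Type u} [NonUnitalRing A] [Module ℂ A] [UniformSpace A] [IsFrAlg A]
  [AddCommGroup Y] [Module ℂ Y] [UniformSpace Y] [IsFrechet Y]
  [AddCommGroup U'] [Module ℂ U'] [UniformSpace U'] [IsFrechet U']
  [AddCommGroup U] [Module ℂ U] [UniformSpace U] [IsFrechet U]
  [AddCommGroup U''] [Module ℂ U''] [UniformSpace U''] [IsFrechet U'']

/-- The data of the bar complex in low degrees. -/
lemma exists_bar {V : Type u} [AddCommGroup V] [Module ℂ V] [UniformSpace V] [IsFrechet V]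
    {r : Y → A → Y} (hr : IsRightMod r) {l : A → V → V} (hl : IsLeftMod l) :
    ∃ (lt : A → PT A V → PT A V) (m : PT A V →L[ℂ] V) (lK : A → PT A V → PT A V)
      (d : PT Y (PT A V) →L[ℂ] PT Y V), IsContBilin lt ∧
      (∀ a b v, lt a (pt b v) = pt (a * b) v) ∧ (∀ a v, m (pt a v) = l a v) ∧
      (∀ a z, lK a z = lt a z - pt a (m z)) ∧ IsLeftMod lK ∧
      (∀ y b v, d (pt y (pt b v)) = pt (r y b) v - pt y (l b v)) := by
  have hpt : IsContBilin (pt : A → V → PT A V) := pt_isContBilin
  have hpY : IsContBilin (pt : Y → V → PT Y V) := pt_isContBilin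
  obtain ⟨lt, lt_b, lt_p⟩ := (IsContTri.mkL (X := A) (Y := A) (V := V)
    (IsFrAlg.mul_bilin (A := A)) hpt).left
  obtain ⟨m, hm⟩ := exists_plift hl.bilin
  obtain ⟨B, hB, hBt⟩ := (IsContTri.mkL (X := Y) (Y := A) (V := V) hr.bilin hpY).left
  obtain ⟨C, hC, hCt⟩ := (IsContTri.mkR (X := Y) (Y := A) (V := V) hl.bilin hpY).left
  obtain ⟨d1, hd1⟩ := exists_plift hB
  obtain ⟨d2, hd2⟩ := exists_plift hC
  have hmlin : IsContLin (fun z => m z) := isContLin_clm m
  have lt_m : ∀ a b z, lt (a * b) z = lt a (lt b z) := by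
    intro a b z
    refine pext (f := fun z => lt (a * b) z) (g := fun z => lt a (lt b z))
      (lt_b.isContLin_right _) ((lt_b.isContLin_right b).comp' (lt_b.isContLin_right a)) ?_ z
    intro c v
    simp only [lt_p, mul_assoc]
  have hml : ∀ a z, m (lt a z) = l a (m z) := by
    intro a z
    refine pext (f := fun z => m (lt a z)) (g := fun z => l a (m z))
      ((lt_b.isContLin_right a).comp' hmlin) (hmlin.comp' (hl.bilin.isContLin_right a)) ?_ z
    intro b v
    simp only [lt_p, hm, hl.mul]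
  have hmK : ∀ a z, m (lt a z - pt a (m z)) = 0 := by
    intro a z
    rw [map_sub, hml, hm, sub_self]
  refine ⟨lt, m, fun a z => lt a z - pt a (m z), d1 - d2, lt_b, lt_p, hm, fun _ _ => rfl,
    ⟨isContBilin_sub lt_b (hpt.comp_lin isContLin_id hmlin), ?_⟩, ?_⟩
  · intro a b z
    show lt (a * b) z - pt (a * b) (m z) = lt a (lt b z - pt b (m z)) - pt a (m (lt b z - pt b (m z)))
    rw [hmK, hpt.zero_right, sub_zero, lt_b.sub_right, lt_m, lt_p]
  · intro y b v
    show d1 _ - d2 _ = _
    rw [hd1, hd2, hBt, hCt]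

/-- **Flat modules and sequences which stay exact after tensoring with Fréchet spaces.** -/
theorem chase {r : Y → A → Y} (hr : IsRightMod r) (hfl : FlatR r)
    {l' : A → U' → U'} {l : A → U → U} {l'' : A → U'' → U''}
    (hl' : IsLeftMod l') (hl : IsLeftMod l) (hl'' : IsLeftMod l'')
    {I : U' →L[ℂ] U} {J : U →L[ℂ] U''} (hI : ∀ a x, I (l' a x) = l a (I x))
    (hJ : ∀ a x, J (l a x) = l'' a (J x)) (hex : PTExact I J)
    {φ : PB r l' → PB r l} {ψ : PB r l → PB r l''} (hφ : IsContLin φ) (hψ : IsContLin ψ)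
    (hφt : ∀ y x, φ (pb r l' y x) = pb r l y (I x))
    (hψt : ∀ y x, ψ (pb r l y x) = pb r l'' y (J x)) : IsExact φ ψ := by
  obtain ⟨lt', m', lK', d', lt_b', lt_p', hm', hlK', hK', hd'⟩ := exists_bar hr hl'
  obtain ⟨lt, m, lK, d, lt_b, lt_p, hm, hlK, hK, hd⟩ := exists_bar hr hl
  obtain ⟨lt'', m'', lK'', d'', lt_b'', lt_p'', hm'', hlK'', hK'', hd''⟩ := exists_bar hr hl''
  obtain ⟨e1', e2'⟩ := bar_exact hr hfl hl' lt_b' lt_p' hm' hlK' hd'
  obtain ⟨e1, e2⟩ := bar_exact hr hfl hl lt_b lt_p hm hlK hd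
  obtain ⟨e1'', e2''⟩ := bar_exact hr hfl hl'' lt_b'' lt_p'' hm'' hlK'' hd''
  -- second level
  obtain ⟨Lt, M, LK, D, Lt_b, Lt_p, hM, hLK, hLKm, hD⟩ := exists_bar hr hK
  obtain ⟨Lt'', M'', LK'', D'', Lt_b'', Lt_p'', hM'', hLK'', hLKm'', hD''⟩ := exists_bar hr hK''
  obtain ⟨f1, f2⟩ := bar_exact hr hfl hK Lt_b Lt_p hM hLK hD
  obtain ⟨f1'', f2''⟩ := bar_exact hr hfl hK'' Lt_b'' Lt_p'' hM'' hLK'' hD''
  -- exactness in each degree
  obtain ⟨x0i, x0e, x0s⟩ := hex Y
  obtain ⟨x1i, x1e, x1s⟩ := (hex.pmr A) Y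
  obtain ⟨x2i, x2e, x2s⟩ := ((hex.pmr A).pmr A) Y
  -- naturality
  have n0 : ∀ z, φ (kap r l' z) = kap r l (pmr Y I z) := by
    intro z
    refine pext (f := fun z => φ (kap r l' z)) (g := fun z => kap r l (pmr Y I z))
      ((kap_lin _ _).comp' hφ) ((isContLin_clm _).comp' (kap_lin _ _)) ?_ z
    intro y x
    show φ (kap r l' (pt y x)) = kap r l (pmr Y I (pt y x))
    rw [kap_pt, hφt, pmr_pt, kap_pt]
  have n0' : ∀ z, ψ (kap r l z) = kap r l'' (pmr Y J z) := by
    intro z
    refine pext (f := fun z => ψ (kap r l z)) (g := fun z => kap r l'' (pmr Y J z))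
      ((kap_lin _ _).comp' hψ) ((isContLin_clm _).comp' (kap_lin _ _)) ?_ z
    intro y x
    show ψ (kap r l (pt y x)) = kap r l'' (pmr Y J (pt y x))
    rw [kap_pt, hψt, pmr_pt, kap_pt]
  have n1 : ∀ w, pmr Y I (d' w) = d (pmr Y (pmr A I) w) := by
    intro w
    refine pext (f := fun w => pmr Y I (d' w)) (g := fun w => d (pmr Y (pmr A I) w))
      ((isContLin_clm _).comp' (isContLin_clm _)) ((isContLin_clm _).comp' (isContLin_clm _)) ?_ w
    intro y z
    refine pext (f := fun z => pmr Y I (d' (pt y z))) (g := fun z => d (pmr Y (pmr A I) (pt y z)))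
      (((pt_isContBilin.isContLin_right y).comp' (isContLin_clm _)).comp' (isContLin_clm _))
      (((pt_isContBilin.isContLin_right y).comp' (isContLin_clm _)).comp' (isContLin_clm _)) ?_ z
    intro b v
    show pmr Y I (d' (pt y (pt b v))) = d (pmr Y (pmr A I) (pt y (pt b v)))
    rw [pmr_pt, pmr_pt, hd, hd', map_sub, pmr_pt, pmr_pt, hI]
  have n1' : ∀ w, pmr Y J (d w) = d'' (pmr Y (pmr A J) w) := by
    intro w
    refine pext (f := fun w => pmr Y J (d w)) (g := fun w => d'' (pmr Y (pmr A J) w))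
      ((isContLin_clm _).comp' (isContLin_clm _)) ((isContLin_clm _).comp' (isContLin_clm _)) ?_ w
    intro y z
    refine pext (f := fun z => pmr Y J (d (pt y z))) (g := fun z => d'' (pmr Y (pmr A J) (pt y z)))
      (((pt_isContBilin.isContLin_right y).comp' (isContLin_clm _)).comp' (isContLin_clm _))
      (((pt_isContBilin.isContLin_right y).comp' (isContLin_clm _)).comp' (isContLin_clm _)) ?_ z
    intro b v
    show pmr Y J (d (pt y (pt b v))) = d'' (pmr Y (pmr A J) (pt y (pt b v)))
    rw [pmr_pt, pmr_pt, hd, hd'', map_sub, pmr_pt, pmr_pt, hJ]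
  -- the map `K(J)` is a morphism
  have hKJ : ∀ a z, pmr A J (lK a z) = lK'' a (pmr A J z) := by
    intro a z
    refine pext (f := fun z => pmr A J (lK a z)) (g := fun z => lK'' a (pmr A J z))
      ((hK.bilin.isContLin_right a).comp' (isContLin_clm _))
      ((isContLin_clm _).comp' (hK''.bilin.isContLin_right a)) ?_ z
    intro b v
    show pmr A J (lK a (pt b v)) = lK'' a (pmr A J (pt b v))
    rw [hlK, lt_p, hm, map_sub, pmr_pt, pmr_pt, pmr_pt, hlK'', lt_p'', hm'', hJ]
  have n2' : ∀ w, pmr Y (pmr A J) (D w) = D'' (pmr Y (pmr A (pmr A J)) w) := by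
    intro w
    refine pext (f := fun w => pmr Y (pmr A J) (D w))
      (g := fun w => D'' (pmr Y (pmr A (pmr A J)) w))
      ((isContLin_clm _).comp' (isContLin_clm _)) ((isContLin_clm _).comp' (isContLin_clm _)) ?_ w
    intro y z
    refine pext (f := fun z => pmr Y (pmr A J) (D (pt y z)))
      (g := fun z => D'' (pmr Y (pmr A (pmr A J)) (pt y z)))
      (((pt_isContBilin.isContLin_right y).comp' (isContLin_clm _)).comp' (isContLin_clm _))
      (((pt_isContBilin.isContLin_right y).comp' (isContLin_clm _)).comp' (isContLin_clm _)) ?_ z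
    intro b v
    show pmr Y (pmr A J) (D (pt y (pt b v))) = D'' (pmr Y (pmr A (pmr A J)) (pt y (pt b v)))
    rw [pmr_pt, pmr_pt, hD, hD'', map_sub, pmr_pt, pmr_pt, hKJ]
  -- images of `x0e` etc.
  have z0 : ∀ z, pmr Y J (pmr Y I z) = 0 := by
    intro z
    have : pmr Y I z ∈ {t | pmr Y J t = 0} := x0e ▸ ⟨_, rfl⟩
    exact this
  have hφ0 : φ 0 = 0 := map_zero hφ.toCLM
  have hk0 : ∀ {X : Type u} [AddCommGroup X] [Module ℂ X] [UniformSpace X] [IsFrechet X]
      (l : A → X → X), kap r l 0 = 0 := fun l => map_zero (kap_lin r l).toCLM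
  have hsub : ∀ {X : Type u} [AddCommGroup X] [Module ℂ X] [UniformSpace X] [IsFrechet X]
      (l : A → X → X) (x y), kap r l (x - y) = kap r l x - kap r l y :=
    fun l x y => map_sub (kap_lin r l).toCLM x y
  refine ⟨?_, ?_, ?_⟩
  · -- injectivity
    have key : ∀ t', φ t' = 0 → t' = 0 := by
      intro t' ht'
      obtain ⟨z', rfl⟩ := kap_surj r l' t'
      rw [n0] at ht'
      obtain ⟨w, hw⟩ := (e1 _).1 ht'
      have h1 : d'' (pmr Y (pmr A J) w) = 0 := by
        rw [← n1', hw, z0]
      obtain ⟨x'', hx''⟩ := (f1'' _).1 ((e2'' _).1 h1)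
      obtain ⟨x, rfl⟩ := x2s x''
      rw [← n2'] at hx''
      have h2 : w - D x ∈ {t | pmr Y (pmr A J) t = 0} := by
        show pmr Y (pmr A J) (w - D x) = 0
        rw [map_sub, hx'', sub_self]
      rw [← x1e] at h2
      obtain ⟨w', hw'⟩ := h2
      have h3 : d (D x) = 0 := (e2 _).2 ((f1 _).2 ⟨x, rfl⟩)
      have h4 : pmr Y I (d' w') = pmr Y I z' := by
        rw [n1, hw', map_sub, h3, sub_zero, hw]
      exact (e1' _).2 ⟨w', x0i h4⟩
    intro s t hst
    have h5 : φ (s - t) = 0 := by
      have : φ (s - t) = φ s - φ t := map_sub hφ.toCLM s t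
      rw [this, hst, sub_self]
    exact sub_eq_zero.1 (key _ h5)
  · ext t
    constructor
    · rintro ⟨t', rfl⟩
      obtain ⟨z', rfl⟩ := kap_surj r l' t'
      show ψ (φ (kap r l' z')) = 0
      rw [n0, n0', z0, hk0]
    · intro ht
      have ht0 : ψ t = 0 := ht
      obtain ⟨z, rfl⟩ := kap_surj r l t
      rw [n0'] at ht0
      obtain ⟨w'', hw''⟩ := (e1'' _).1 ht0
      obtain ⟨w, rfl⟩ := x1s w''
      rw [← n1'] at hw''
      have h2 : z - d w ∈ {t | pmr Y J t = 0} := by
        show pmr Y J (z - d w) = 0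
        rw [map_sub, hw'', sub_self]
      rw [← x0e] at h2
      obtain ⟨z', hz'⟩ := h2
      refine ⟨kap r l' z', ?_⟩
      rw [n0, hz', hsub, (e1 (d w)).2 ⟨w, rfl⟩, sub_zero]
  · intro t''
    obtain ⟨z'', rfl⟩ := kap_surj r l'' t''
    obtain ⟨z, rfl⟩ := x0s z''
    exact ⟨kap r l z, n0' z⟩

end Chase

end Pool.Agent.R298.Fr
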