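import Mathlib
import Pool.Agent.R298.Fr.C

/-!
Flatness of the bimodule `X ⊗̂ Y`.
-/

set_option autoImplicit false
set_option linter.unusedSectionVars false
set_option linter.unusedVariables false

namespace Pool.Agent.R298.Fr

open Pool.Agent.Helper832.PN Topology Filter

universe u

section Right

variable {A E W W' W'' X : Type u} [NonUnitalRing A] [Module ℂ A] [UniformSpace A] [IsFrAlg A]
  [AddCommGroup E] [Module ℂ E] [UniformSpace E] [IsFrechet E]
  [AddCommGroup W] [Module ℂ W] [UniformSpace W] [IsFrechet W]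
  [AddCommGroup W'] [Module ℂ W'] [UniformSpace W'] [IsFrechet W']
  [AddCommGroup W''] [Module ℂ W''] [UniformSpace W''] [IsFrechet W'']
  [AddCommGroup X] [Module ℂ X] [UniformSpace X] [IsFrechet X]

variable (E) in
/-- The right module `E ⊗̂ W`. -/
lemma exists_rmod {r : W → A → W} (hr : IsRightMod r) :
    ∃ R : PT E W → A → PT E W, IsRightMod R ∧ ∀ e w a, R (pt e w) a = pt e (r w a) := by
  obtain ⟨R, hR, hRt⟩ := (IsContTri.mkR (X := E) (Y := W) (V := A) hr.bilin
    (pt_isContBilin (X := E) (Y := W))).right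
  refine ⟨R, ⟨hR, ?_⟩, hRt⟩
  intro z a b
  refine pext (f := fun z => R z (a * b)) (g := fun z => R (R z a) b)
    (hR.isContLin_left _) ((hR.isContLin_left a).comp' (hR.isContLin_left b)) ?_ z
  intro e w
  show R (pt e w) (a * b) = R (R (pt e w) a) b
  rw [hRt, hRt, hRt, hr.mul]

/-- `(E ⊗̂ W) ⊗̂_A X = E ⊗̂ (W ⊗̂_A X)`. -/
lemma exists_assoc_model {r : W → A → W} (hr : IsRightMod r) {l : A → X → X}
    {R : PT E W → A → PT E W} (hR : IsRightMod R) (hRt : ∀ e w a, R (pt e w) a = pt e (r w a)) :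
    ∃ T : PT E W → X → PT E (PB r l), IsTensorOver R l T ∧
      ∀ e w x, T (pt e w) x = pt e (pb r l w x) := by
  have hpb := pb_isContBilin r l
  have hpE : IsContBilin (pt : E → PB r l → PT E (PB r l)) := pt_isContBilin
  obtain ⟨T, hT, hTt⟩ := (IsContTri.mkR (X := E) (Y := W) (V := X) hpb hpE).right
  refine ⟨T, ⟨hT, ?_, ?_⟩, hTt⟩
  · intro z a x
    refine pext (f := fun z => T (R z a) x) (g := fun z => T z (l a x))
      ((hR.bilin.isContLin_left a).comp' (hT.isContLin_left x)) (hT.isContLin_left _) ?_ z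
    intro e w
    show T (R (pt e w) a) x = T (pt e w) (l a x)
    rw [hRt, hTt, hTt, pb_bal]
  · intro Z _ _ _ _ β hβ hbal
    obtain ⟨B, hB, hBt⟩ := (IsContTri.mkL (X := E) (Y := W) (V := X)
      (pt_isContBilin (X := E) (Y := W)) hβ).left
    obtain ⟨B', hB', hBB'⟩ := exists_factor_bilin (r := r) (l := l) hB (by
      intro e w a x
      rw [hBt, hBt, ← hRt, hbal])
    obtain ⟨g, hg⟩ := exists_plift hB'
    have hgt : ∀ z x, g (T z x) = β z x := by
      intro z x
      refine pext (f := fun z => g (T z x)) (g := fun z => β z x)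
        ((hT.isContLin_left x).comp' (isContLin_clm g)) (hβ.isContLin_left x) ?_ z
      intro e w
      show g (T (pt e w) x) = β (pt e w) x
      rw [hTt, hg, ← kap_pt, hBB', hBt]
    refine ⟨fun z => g z, ⟨isContLin_clm g, hgt⟩, ?_⟩
    rintro g' ⟨hg', hg't⟩
    funext z
    refine pext (f := fun z => g' z) (g := fun z => g z) hg' (isContLin_clm g) ?_ z
    intro e u
    refine pb_ext (f := fun u => g' (pt e u)) (g := fun u => g (pt e u))
      ((hpE.isContLin_right e).comp' hg') ((hpE.isContLin_right e).comp' (isContLin_clm g)) ?_ u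
    intro w x
    show g' (pt e (pb r l w x)) = g (pt e (pb r l w x))
    rw [← hTt, hg't, hgt]

/-- Tensoring with a flat left module sends admissible sequences to sequences which stay exact
after tensoring with arbitrary Fréchet spaces. -/
theorem ptExact_of_flatL {l : A → X → X} (hfl : FlatL l) {r' : W' → A → W'} {r : W → A → W}
    {r'' : W'' → A → W''} {i : W' → W} {j : W → W''} (hr' : IsRightMod r') (hr : IsRightMod r)
    (hr'' : IsRightMod r'') (hadm : IsAdmissible i j) (hi : ∀ y a, i (r' y a) = r (i y) a)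
    (hj : ∀ y a, j (r y a) = r'' (j y) a) {I : PB r' l →L[ℂ] PB r l} {J : PB r l →L[ℂ] PB r'' l}
    (hI : ∀ w x, I (pb r' l w x) = pb r l (i w) x)
    (hJ : ∀ w x, J (pb r l w x) = pb r'' l (j w) x) : PTExact I J := by
  intro E _ _ _ _
  obtain ⟨R', hR', hRt'⟩ := exists_rmod E hr'
  obtain ⟨R, hR, hRt⟩ := exists_rmod E hr
  obtain ⟨R'', hR'', hRt''⟩ := exists_rmod E hr''
  obtain ⟨T', hT', hTt'⟩ := exists_assoc_model (l := l) hr' hR' hRt'
  obtain ⟨T, hT, hTt⟩ := exists_assoc_model (l := l) hr hR hRt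
  obtain ⟨T'', hT'', hTt''⟩ := exists_assoc_model (l := l) hr'' hR'' hRt''
  obtain ⟨p, s, hp, hs, hpi, hjs, hji, hdec⟩ := hadm.split
  let ic : W' →L[ℂ] W := hadm.lin_i.toCLM
  let jc : W →L[ℂ] W'' := hadm.lin_j.toCLM
  let pc : W →L[ℂ] W' := hp.toCLM
  let sc : W'' →L[ℂ] W := hs.toCLM
  have hicv : ∀ w, ic w = i w := fun _ => rfl
  have hjcv : ∀ w, jc w = j w := fun _ => rfl
  have hpcv : ∀ w, pc w = p w := fun _ => rfl
  have hscv : ∀ w, sc w = s w := fun _ => rfl
  have hadmE : IsAdmissible (fun z => pmr E ic z) (fun z => pmr E jc z) := by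
    refine ⟨isContLin_clm _, isContLin_clm _, fun z => pmr E pc z, fun z => pmr E sc z,
      isContLin_clm _, isContLin_clm _, ?_, ?_, ?_, ?_⟩
    · intro z
      refine pext (f := fun z => pmr E pc (pmr E ic z)) (g := fun z => z)
        ((isContLin_clm _).comp' (isContLin_clm _)) isContLin_id ?_ z
      intro e w
      show pmr E pc (pmr E ic (pt e w)) = pt e w
      rw [pmr_pt, pmr_pt, hpcv, hicv, hpi]
    · intro z
      refine pext (f := fun z => pmr E jc (pmr E sc z)) (g := fun z => z)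
        ((isContLin_clm _).comp' (isContLin_clm _)) isContLin_id ?_ z
      intro e w
      show pmr E jc (pmr E sc (pt e w)) = pt e w
      rw [pmr_pt, pmr_pt, hjcv, hscv, hjs]
    · intro z
      refine pext (f := fun z => pmr E jc (pmr E ic z)) (g := fun _ => 0)
        ((isContLin_clm _).comp' (isContLin_clm _)) (isContLin_clm (0 : PT E W' →L[ℂ] PT E W'')) ?_ z
      intro e w
      show pmr E jc (pmr E ic (pt e w)) = 0
      rw [pmr_pt, pmr_pt, hjcv, hicv, hji, pt_isContBilin.zero_right]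
    · intro z
      refine pext (f := fun z => z) (g := fun z => pmr E ic (pmr E pc z) + pmr E sc (pmr E jc z))
        isContLin_id (isContLin_clm (((pmr E ic).comp (pmr E pc)) + ((pmr E sc).comp (pmr E jc))))
        ?_ z
      intro e w
      show pt e w = pmr E ic (pmr E pc (pt e w)) + pmr E sc (pmr E jc (pt e w))
      rw [pmr_pt, pmr_pt, pmr_pt, pmr_pt, ← pt_isContBilin.add_right, hicv, hpcv, hscv, hjcv,
        ← hdec]
  refine hfl (PT E W') (PT E W) (PT E W'') R' R R'' _ _ hR' hR hR'' hadmE ?_ ?_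
    (PT E (PB r' l)) (PT E (PB r l)) (PT E (PB r'' l)) T' T T'' hT' hT hT'' _ _
    (isContLin_clm _) (isContLin_clm _) ?_ ?_
  · intro z a
    refine pext (f := fun z => pmr E ic (R' z a)) (g := fun z => R (pmr E ic z) a)
      ((hR'.bilin.isContLin_left a).comp' (isContLin_clm _))
      ((isContLin_clm _).comp' (hR.bilin.isContLin_left a)) ?_ z
    intro e w
    show pmr E ic (R' (pt e w) a) = R (pmr E ic (pt e w)) a
    rw [hRt', pmr_pt, pmr_pt, hRt, hicv, hicv, hi]
  · intro z a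
    refine pext (f := fun z => pmr E jc (R z a)) (g := fun z => R'' (pmr E jc z) a)
      ((hR.bilin.isContLin_left a).comp' (isContLin_clm _))
      ((isContLin_clm _).comp' (hR''.bilin.isContLin_left a)) ?_ z
    intro e w
    show pmr E jc (R (pt e w) a) = R'' (pmr E jc (pt e w)) a
    rw [hRt, pmr_pt, pmr_pt, hRt'', hjcv, hjcv, hj]
  · intro z x
    refine pext (f := fun z => pmr E I (T' z x)) (g := fun z => T (pmr E ic z) x)
      ((hT'.bilin.isContLin_left x).comp' (isContLin_clm _))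
      ((isContLin_clm _).comp' (hT.bilin.isContLin_left x)) ?_ z
    intro e w
    show pmr E I (T' (pt e w) x) = T (pmr E ic (pt e w)) x
    rw [hTt', pmr_pt, pmr_pt, hTt, hI, hicv]
  · intro z x
    refine pext (f := fun z => pmr E J (T z x)) (g := fun z => T'' (pmr E jc z) x)
      ((hT.bilin.isContLin_left x).comp' (isContLin_clm _))
      ((isContLin_clm _).comp' (hT''.bilin.isContLin_left x)) ?_ z
    intro e w
    show pmr E J (T (pt e w) x) = T'' (pmr E jc (pt e w)) x
    rw [hTt, pmr_pt, pmr_pt, hTt'', hJ, hjcv]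

/-- Functoriality of `PB`. -/
lemma exists_pbmap {r : W → A → W} {r' : W' → A → W'} {l : A → X → X} {i : W' → W}
    (hi : IsContLin i) (hir : ∀ w a, i (r' w a) = r (i w) a) :
    ∃ I : PB r' l →L[ℂ] PB r l, ∀ w x, I (pb r' l w x) = pb r l (i w) x := by
  obtain ⟨I, ⟨hI, hIt⟩, -⟩ := (isTensorOver_pb r' l).univ (PB r l) (fun w x => pb r l (i w) x)
    ((pb_isContBilin r l).comp_lin hi isContLin_id) (fun w a x => by rw [hir, pb_bal])
  exact ⟨hI.toCLM, hIt⟩

/-- The left action on `W ⊗̂_A X` for a bimodule `W`. -/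
lemma exists_pblact {lW : A → W → W} {r : W → A → W} (hW : IsBimod lW r) {l : A → X → X} :
    ∃ L : A → PB r l → PB r l, IsLeftMod L ∧ ∀ a w x, L a (pb r l w x) = pb r l (lW a w) x := by
  have hpb := pb_isContBilin r l
  obtain ⟨B, hB, hBt⟩ := (IsContTri.mkL (X := A) (Y := W) (V := X) hW.left.bilin hpb).left
  obtain ⟨L, hL, hLB⟩ := exists_factor_bilin (r := r) (l := l) hB (by
    intro a w b x
    rw [hBt, hBt, ← hW.comm, pb_bal])
  have hLt : ∀ a w x, L a (pb r l w x) = pb r l (lW a w) x := by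
    intro a w x
    rw [← kap_pt, hLB, hBt]
  refine ⟨L, ⟨hL, ?_⟩, hLt⟩
  intro a b u
  refine pb_ext (f := fun u => L (a * b) u) (g := fun u => L a (L b u))
    (hL.isContLin_right _) ((hL.isContLin_right b).comp' (hL.isContLin_right a)) ?_ u
  intro w x
  show L (a * b) (pb r l w x) = L a (L b (pb r l w x))
  rw [hLt, hLt, hLt, hW.left.mul]

end Right

section Bi

variable {A W X Y : Type u} [NonUnitalRing A] [Module ℂ A] [UniformSpace A] [IsFrAlg A]
  [AddCommGroup W] [Module ℂ W] [UniformSpace W] [IsFrechet W]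
  [AddCommGroup X] [Module ℂ X] [UniformSpace X] [IsFrechet X]
  [AddCommGroup Y] [Module ℂ Y] [UniformSpace Y] [IsFrechet Y]

/-- `W ⊗̂_{A-A} (X ⊗̂ Y) = Y ⊗̂_A (W ⊗̂_A X)`. -/
lemma exists_bimodel {lW : A → W → W} {rW : W → A → W} (hW : IsBimod lW rW) {l : A → X → X}
    {r : Y → A → Y} {lV : A → PT X Y → PT X Y} {rV : PT X Y → A → PT X Y}
    (hV : IsBimod lV rV) (hlV : ∀ a x y, lV a (pt x y) = pt (l a x) y)
    (hrV : ∀ a x y, rV (pt x y) a = pt x (r y a))
    {L : A → PB rW l → PB rW l} (hL : IsLeftMod L)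
    (hLt : ∀ a w x, L a (pb rW l w x) = pb rW l (lW a w) x) :
    ∃ t : W → PT X Y → PB r L, IsBiTensorOver lW rW lV rV t ∧
      ∀ w x y, t w (pt x y) = pb r L y (pb rW l w x) := by
  have hpb := pb_isContBilin rW l
  have hpL := pb_isContBilin r L
  obtain ⟨t, ht, htt⟩ := (IsContTri.mkL (X := W) (Y := X) (V := Y) hpb hpL.flip').left
  have htt' : ∀ w x y, t w (pt x y) = pb r L y (pb rW l w x) := htt
  refine ⟨t, ⟨ht, ?_, ?_, ?_⟩, htt'⟩
  · intro w a v
    refine pext (f := fun v => t (rW w a) v) (g := fun v => t w (lV a v))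
      (ht.isContLin_right _) ((hV.left.bilin.isContLin_right a).comp' (ht.isContLin_right w)) ?_ v
    intro x y
    show t (rW w a) (pt x y) = t w (lV a (pt x y))
    rw [htt', hlV, htt', pb_bal]
  · intro w a v
    refine pext (f := fun v => t (lW a w) v) (g := fun v => t w (rV v a))
      (ht.isContLin_right _) ((hV.right.bilin.isContLin_left a).comp' (ht.isContLin_right w)) ?_ v
    intro x y
    show t (lW a w) (pt x y) = t w (rV (pt x y) a)
    rw [htt', hrV, htt', pb_bal, hLt]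
  · intro Z _ _ _ _ β hβ hbr hbl
    -- `(y, w, x) ↦ β (w, x ⊗ y)`
    obtain ⟨B, hB, hBt⟩ := (IsContTri.mkR (X := W) (Y := X) (V := Y)
      (pt_isContBilin (X := X) (Y := Y)) hβ).swap23.swap12.left
    have hBt' : ∀ y w x, B y (pt w x) = β w (pt x y) := hBt
    obtain ⟨B', hB', hBB'⟩ := exists_factor_bilin (r := rW) (l := l) hB (by
      intro y w a x
      rw [hBt', hBt', hbr, hlV])
    have hB't : ∀ y w x, B' y (pb rW l w x) = β w (pt x y) := by
      intro y w x
      rw [← kap_pt, hBB', hBt']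
    obtain ⟨g, ⟨hg, hgt⟩, -⟩ := (isTensorOver_pb r L).univ Z B' hB' (by
      intro y a u
      refine pb_ext (f := fun u => B' (r y a) u) (g := fun u => B' y (L a u))
        (hB'.isContLin_right _) ((hL.bilin.isContLin_right a).comp' (hB'.isContLin_right y)) ?_ u
      intro w x
      show B' (r y a) (pb rW l w x) = B' y (L a (pb rW l w x))
      rw [hLt, hB't, hB't, hbl, hrV])
    have hgv : ∀ w v, g (t w v) = β w v := by
      intro w v
      refine pext (f := fun v => g (t w v)) (g := fun v => β w v)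
        ((ht.isContLin_right w).comp' hg) (hβ.isContLin_right w) ?_ v
      intro x y
      show g (t w (pt x y)) = β w (pt x y)
      rw [htt', hgt, hB't]
    refine ⟨g, ⟨hg, hgv⟩, ?_⟩
    rintro g' ⟨hg', hg't⟩
    funext z
    refine pb_ext (f := fun z => g' z) (g := fun z => g z) hg' hg ?_ z
    intro y u
    refine pb_ext (f := fun u => g' (pb r L y u)) (g := fun u => g (pb r L y u))
      ((hpL.isContLin_right y).comp' hg') ((hpL.isContLin_right y).comp' hg) ?_ u
    intro w x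
    show g' (pb r L y (pb rW l w x)) = g (pb r L y (pb rW l w x))
    rw [← htt', hg't, hgv]

end Bi

section Transfer

variable {A W V T₁ T₂ : Type u} [NonUnitalRing A] [Module ℂ A] [UniformSpace A]
  [AddCommGroup W] [Module ℂ W] [UniformSpace W] [AddCommGroup V] [Module ℂ V] [UniformSpace V]
  [AddCommGroup T₁] [Module ℂ T₁] [UniformSpace T₁] [IsPolynormed T₁]
  [AddCommGroup T₂] [Module ℂ T₂] [UniformSpace T₂] [IsPolynormed T₂]
  {lW : A → W → W} {rW : W → A → W} {lV : A → V → V} {rV : V → A → V}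

lemma IsBiTensorOver.ext {t₁ : W → V → T₁} (h : IsBiTensorOver lW rW lV rV t₁) {f g : T₁ → T₂}
    (hf : IsContLin f) (hg : IsContLin g) (hfg : ∀ w v, f (t₁ w v) = g (t₁ w v)) : f = g := by
  have hb : IsContBilin (fun w v => f (t₁ w v)) :=
    ⟨fun x x' y => by rw [h.bilin.add_left, hf.add], fun c x y => by
      rw [h.bilin.smul_left, hf.smul], fun x y y' => by rw [h.bilin.add_right, hf.add],
      fun c x y => by rw [h.bilin.smul_right, hf.smul], hf.cont.comp h.bilin.cont⟩
  obtain ⟨φ, -, hu⟩ := h.univ T₂ (fun w v => f (t₁ w v)) hb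
    (fun w a v => by
      show f (t₁ (rW w a) v) = f (t₁ w (lV a v))
      rw [h.bal_right])
    (fun w a v => by
      show f (t₁ (lW a w) v) = f (t₁ w (rV v a))
      rw [h.bal_left])
  rw [hu f ⟨hf, fun _ _ => rfl⟩, hu g ⟨hg, fun w v => (hfg w v).symm⟩]

/-- Two tensor products of the same bimodules are isomorphic. -/
lemma IsBiTensorOver.exists_iso {t₁ : W → V → T₁} (h₁ : IsBiTensorOver lW rW lV rV t₁)
    {t₂ : W → V → T₂} (h₂ : IsBiTensorOver lW rW lV rV t₂) :
    ∃ f : T₁ → T₂, IsContLin f ∧ Function.Bijective f ∧ ∀ w v, f (t₁ w v) = t₂ w v := by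
  obtain ⟨f, ⟨hf, hft⟩, -⟩ := h₁.univ T₂ t₂ h₂.bilin h₂.bal_right h₂.bal_left
  obtain ⟨g, ⟨hg, hgt⟩, -⟩ := h₂.univ T₁ t₁ h₁.bilin h₁.bal_right h₁.bal_left
  have e1 := h₁.ext (hf.comp' hg) (isContLin_id (X := T₁)) (fun w v => by
    show g (f (t₁ w v)) = t₁ w v
    rw [hft, hgt])
  have e2 := h₂.ext (hg.comp' hf) (isContLin_id (X := T₂)) (fun w v => by
    show f (g (t₂ w v)) = t₂ w v
    rw [hgt, hft])
  exact ⟨f, hf, Function.bijective_iff_has_inverse.2 ⟨g, congrFun e1, congrFun e2⟩, hft⟩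

/-- Flatness from exactness for one choice of the tensor products. -/
lemma flatB_of_models {V : Type u} [AddCommGroup V] [Module ℂ V] [UniformSpace V]
    {lV : A → V → V} {rV : V → A → V}
    (h : ∀ (W' W W'' : Type u)
    [AddCommGroup W'] [Module ℂ W'] [UniformSpace W'] [IsFrechet W']
    [AddCommGroup W] [Module ℂ W] [UniformSpace W] [IsFrechet W]
    [AddCommGroup W''] [Module ℂ W''] [UniformSpace W''] [IsFrechet W'']
    (l' : A → W' → W') (r' : W' → A → W') (l : A → W → W) (r : W → A → W)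
    (l'' : A → W'' → W'') (r'' : W'' → A → W'') (i : W' → W) (j : W → W''),
    IsBimod l' r' → IsBimod l r → IsBimod l'' r'' → IsAdmissible i j →
    (∀ a w, i (l' a w) = l a (i w)) → (∀ w a, i (r' w a) = r (i w) a) →
    (∀ a w, j (l a w) = l'' a (j w)) → (∀ w a, j (r w a) = r'' (j w) a) →
    ∃ (T' T T'' : Type u) (_ : AddCommGroup T') (_ : Module ℂ T') (_ : UniformSpace T')
      (_ : IsFrechet T') (_ : AddCommGroup T) (_ : Module ℂ T) (_ : UniformSpace T)
      (_ : IsFrechet T) (_ : AddCommGroup T'') (_ : Module ℂ T'') (_ : UniformSpace T'')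
      (_ : IsFrechet T'') (t' : W' → V → T') (t : W → V → T) (t'' : W'' → V → T'')
      (φ : T' → T) (ψ : T → T''),
      IsBiTensorOver l' r' lV rV t' ∧ IsBiTensorOver l r lV rV t ∧
      IsBiTensorOver l'' r'' lV rV t'' ∧ IsContLin φ ∧ IsContLin ψ ∧
      (∀ w v, φ (t' w v) = t (i w) v) ∧ (∀ w v, ψ (t w v) = t'' (j w) v) ∧ IsExact φ ψ) :
    FlatB lV rV := by
  intro W' W W'' _ _ _ _ _ _ _ _ _ _ _ _ l' r' l r l'' r'' i j hW' hW hW'' hadm hil hir hjl hjr
    S' S S'' _ _ _ _ _ _ _ _ _ _ _ _ s' s s'' hs' hs hs'' φ₁ ψ₁ hφ₁ hψ₁ hφ₁t hψ₁t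
  obtain ⟨T', T, T'', _, _, _, _, _, _, _, _, _, _, _, _, t', t, t'', φ, ψ, ht', ht, ht'', hφ, hψ,
    hφt, hψt, hex⟩ := h W' W W'' l' r' l r l'' r'' i j hW' hW hW'' hadm hil hir hjl hjr
  obtain ⟨f', hf', hfb', hft'⟩ := hs'.exists_iso ht'
  obtain ⟨f, hf, hfb, hft⟩ := hs.exists_iso ht
  obtain ⟨f'', hf'', hfb'', hft''⟩ := hs''.exists_iso ht''
  refine hex.transfer hfb' hfb hfb'' (map_zero hf''.toCLM) ?_ ?_
  · have := hs'.ext (hφ₁.comp' hf) (hf'.comp' hφ) (fun w v => by
      show f (φ₁ (s' w v)) = φ (f' (s' w v))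
      rw [hφ₁t, hft, hft', hφt])
    exact congrFun this
  · have := hs.ext (hψ₁.comp' hf'') (hf.comp' hψ) (fun w v => by
      show f'' (ψ₁ (s w v)) = ψ (f (s w v))
      rw [hψ₁t, hft'', hft, hψt])
    exact congrFun this

/-- Flatness is invariant under isomorphisms of bimodules. -/
lemma FlatB.of_iso {V V₁ : Type u} [AddCommGroup V] [Module ℂ V] [UniformSpace V]
    [AddCommGroup V₁] [Module ℂ V₁] [UniformSpace V₁]
    {lV : A → V → V} {rV : V → A → V} {lV₁ : A → V₁ → V₁} {rV₁ : V₁ → A → V₁}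
    (h : FlatB lV rV) {f : V₁ → V} {g : V → V₁} (hf : IsContLin f) (hg : IsContLin g)
    (hfg : ∀ v, f (g v) = v) (hgf : ∀ v, g (f v) = v)
    (hl : ∀ a v, f (lV₁ a v) = lV a (f v)) (hr : ∀ v a, f (rV₁ v a) = rV (f v) a) :
    FlatB lV₁ rV₁ := by
  have hgl : ∀ a v, g (lV a v) = lV₁ a (g v) := by
    intro a v
    rw [← hgf (lV₁ a (g v)), hl, hfg]
  have hgr : ∀ v a, g (rV v a) = rV₁ (g v) a := by
    intro v a
    rw [← hgf (rV₁ (g v) a), hr, hfg]
  have key : ∀ {W T : Type u} [AddCommGroup W] [Module ℂ W] [UniformSpace W]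
      [AddCommGroup T] [Module ℂ T] [UniformSpace T] (lW : A → W → W) (rW : W → A → W)
      (t : W → V₁ → T), IsBiTensorOver lW rW lV₁ rV₁ t →
      IsBiTensorOver lW rW lV rV (fun w v => t w (g v)) := by
    intro W T _ _ _ _ _ _ lW rW t ht
    refine ⟨ht.bilin.comp_lin isContLin_id hg, ?_, ?_, ?_⟩
    · intro w a v
      rw [ht.bal_right, hgl]
    · intro w a v
      rw [ht.bal_left, hgr]
    · intro Z _ _ _ _ β hβ hbr hbl
      obtain ⟨φ, ⟨hφ, hφt⟩, hu⟩ := ht.univ Z (fun w v => β w (f v)) (hβ.comp_lin isContLin_id hf)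
        (fun w a v => by rw [hbr, hl]) (fun w a v => by rw [hbl, hr])
      refine ⟨φ, ⟨hφ, fun w v => by rw [hφt, hfg]⟩, ?_⟩
      rintro ψ ⟨hψ, hψt⟩
      apply hu
      refine ⟨hψ, fun w v => ?_⟩
      rw [← hψt, hgf]
  intro W' W W'' _ _ _ _ _ _ _ _ _ _ _ _ l' r' l r l'' r'' i j hW' hW hW'' hadm hil hir hjl hjr
    S' S S'' _ _ _ _ _ _ _ _ _ _ _ _ s' s s'' hs' hs hs'' φ₁ ψ₁ hφ₁ hψ₁ hφ₁t hψ₁t
  exact h W' W W'' l' r' l r l'' r'' i j hW' hW hW'' hadm hil hir hjl hjr S' S S''
    _ _ _ (key l' r' s' hs') (key l r s hs) (key l'' r'' s'' hs'') φ₁ ψ₁ hφ₁ hψ₁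
    (fun w v => hφ₁t w (g v)) (fun w v => hψ₁t w (g v))

end Transfer

section Main

variable {A X Y : Type u} [NonUnitalRing A] [Module ℂ A] [UniformSpace A] [IsFrAlg A]
  [AddCommGroup X] [Module ℂ X] [UniformSpace X] [IsFrechet X]
  [AddCommGroup Y] [Module ℂ Y] [UniformSpace Y] [IsFrechet Y]

/-- **The bimodule `X ⊗̂ Y` is flat if `X` and `Y` are flat.** -/
theorem flatB_pt {l : A → X → X} (hl : IsLeftMod l) (hX : FlatL l) {r : Y → A → Y}
    (hr : IsRightMod r) (hY : FlatR r) {lV : A → PT X Y → PT X Y} {rV : PT X Y → A → PT X Y}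
    (hV : IsBimod lV rV) (hlV : ∀ a x y, lV a (pt x y) = pt (l a x) y)
    (hrV : ∀ a x y, rV (pt x y) a = pt x (r y a)) : FlatB lV rV := by
  apply flatB_of_models
  intro W' W W'' _ _ _ _ _ _ _ _ _ _ _ _ lW' rW' lW rW lW'' rW'' i j hW' hW hW'' hadm hil hir hjl hjr
  obtain ⟨L', hL', hLt'⟩ := exists_pblact hW' (l := l)
  obtain ⟨L, hL, hLt⟩ := exists_pblact hW (l := l)
  obtain ⟨L'', hL'', hLt''⟩ := exists_pblact hW'' (l := l)
  obtain ⟨I, hI⟩ := exists_pbmap (l := l) hadm.lin_i hir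
  obtain ⟨J, hJ⟩ := exists_pbmap (l := l) hadm.lin_j hjr
  have hIL : ∀ a u, I (L' a u) = L a (I u) := by
    intro a u
    refine pb_ext (f := fun u => I (L' a u)) (g := fun u => L a (I u))
      ((hL'.bilin.isContLin_right a).comp' (isContLin_clm I))
      ((isContLin_clm I).comp' (hL.bilin.isContLin_right a)) ?_ u
    intro w x
    show I (L' a (pb rW' l w x)) = L a (I (pb rW' l w x))
    rw [hLt', hI, hI, hLt, hil]
  have hJL : ∀ a u, J (L a u) = L'' a (J u) := by
    intro a u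
    refine pb_ext (f := fun u => J (L a u)) (g := fun u => L'' a (J u))
      ((hL.bilin.isContLin_right a).comp' (isContLin_clm J))
      ((isContLin_clm J).comp' (hL''.bilin.isContLin_right a)) ?_ u
    intro w x
    show J (L a (pb rW l w x)) = L'' a (J (pb rW l w x))
    rw [hLt, hJ, hJ, hLt'', hjl]
  obtain ⟨t', ht', htt'⟩ := exists_bimodel hW' hV hlV hrV hL' hLt'
  obtain ⟨t, ht, htt⟩ := exists_bimodel hW hV hlV hrV hL hLt
  obtain ⟨t'', ht'', htt''⟩ := exists_bimodel hW'' hV hlV hrV hL'' hLt''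
  obtain ⟨φ, ⟨hφ, hφt⟩, -⟩ := (isTensorOver_pb r L').univ (PB r L) (fun y u => pb r L y (I u))
    ((pb_isContBilin r L).comp_lin isContLin_id (isContLin_clm I))
    (fun y a u => by rw [hIL, pb_bal])
  obtain ⟨ψ, ⟨hψ, hψt⟩, -⟩ := (isTensorOver_pb r L).univ (PB r L'') (fun y u => pb r L'' y (J u))
    ((pb_isContBilin r L'').comp_lin isContLin_id (isContLin_clm J))
    (fun y a u => by rw [hJL, pb_bal])
  refine ⟨PB r L', PB r L, PB r L'', inferInstance, inferInstance, inferInstance, inferInstance,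
    inferInstance, inferInstance, inferInstance, inferInstance, inferInstance, inferInstance,
    inferInstance, inferInstance, t', t, t'', φ, ψ, ht', ht, ht'', hφ, hψ, ?_, ?_, ?_⟩
  · intro w v
    refine pext (f := fun v => φ (t' w v)) (g := fun v => t (i w) v)
      ((ht'.bilin.isContLin_right w).comp' hφ) (ht.bilin.isContLin_right _) ?_ v
    intro x y
    show φ (t' w (pt x y)) = t (i w) (pt x y)
    rw [htt', hφt, hI, htt]
  · intro w v
    refine pext (f := fun v => ψ (t w v)) (g := fun v => t'' (j w) v)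
      ((ht.bilin.isContLin_right w).comp' hψ) (ht''.bilin.isContLin_right _) ?_ v
    intro x y
    show ψ (t w (pt x y)) = t'' (j w) (pt x y)
    rw [htt, hψt, hJ, htt'']
  · exact chase hr hY hL' hL hL'' hIL hJL
      (ptExact_of_flatL hX hW'.right hW.right hW''.right hadm hir hjr hI hJ) hφ hψ hφt hψt

/-- The bimodule structure on `X ⊗̂ Y`. -/
lemma exists_bimod {l : A → X → X} (hl : IsLeftMod l) {r : Y → A → Y} (hr : IsRightMod r) :
    ∃ (lV : A → PT X Y → PT X Y) (rV : PT X Y → A → PT X Y), IsBimod lV rV ∧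
      (∀ a x y, lV a (pt x y) = pt (l a x) y) ∧ ∀ a x y, rV (pt x y) a = pt x (r y a) := by
  obtain ⟨rV, hrV, hrt⟩ := exists_rmod X hr
  obtain ⟨lV, hlV, hlt⟩ := (IsContTri.mkL (X := A) (Y := X) (V := Y) hl.bilin
    (pt_isContBilin (X := X) (Y := Y))).left
  refine ⟨lV, rV, ⟨⟨hlV, ?_⟩, hrV, ?_⟩, hlt, fun a x y => hrt x y a⟩
  · intro a b z
    refine pext (f := fun z => lV (a * b) z) (g := fun z => lV a (lV b z))
      (hlV.isContLin_right _) ((hlV.isContLin_right b).comp' (hlV.isContLin_right a)) ?_ z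
    intro x y
    show lV (a * b) (pt x y) = lV a (lV b (pt x y))
    rw [hlt, hlt, hlt, hl.mul]
  · intro a z b
    refine pext (f := fun z => rV (lV a z) b) (g := fun z => lV a (rV z b))
      ((hlV.isContLin_right a).comp' (hrV.bilin.isContLin_left b))
      ((hrV.bilin.isContLin_left b).comp' (hlV.isContLin_right a)) ?_ z
    intro x y
    show rV (lV a (pt x y)) b = lV a (rV (pt x y) b)
    rw [hlt, hrt, hrt, hlt]

/-- **Main theorem**, for an arbitrary completed projective tensor product. -/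
theorem flatB_tensor {V : Type u} [AddCommGroup V] [Module ℂ V] [UniformSpace V] [IsFrechet V]
    {l : A → X → X} (hl : IsLeftMod l) (hX : FlatL l) {r : Y → A → Y}
    (hr : IsRightMod r) (hY : FlatR r) {t : X → Y → V} (ht : IsProjTensor t)
    {lV : A → V → V} {rV : V → A → V}
    (hV : IsBimod lV rV) (hlV : ∀ a x y, lV a (t x y) = t (l a x) y)
    (hrV : ∀ x y a, rV (t x y) a = t x (r y a)) : FlatB lV rV := by
  obtain ⟨lP, rP, hP, hlP, hrP⟩ := exists_bimod hl hr
  have hflat := flatB_pt hl hX hr hY hP hlP hrP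
  obtain ⟨f, ⟨hf, hft⟩, -⟩ := ht.2 (PT X Y) pt pt_isContBilin
  obtain ⟨g, hg⟩ := exists_plift ht.1
  -- uniqueness for `V`
  have hVext : ∀ {Z : Type u} [AddCommGroup Z] [Module ℂ Z] [UniformSpace Z] [IsPolynormed Z]
      {f₁ f₂ : V → Z}, IsContLin f₁ → IsContLin f₂ → (∀ x y, f₁ (t x y) = f₂ (t x y)) →
      ∀ v, f₁ v = f₂ v := by
    intro Z _ _ _ _ f₁ f₂ h₁ h₂ h₁₂
    have hb : IsContBilin (fun x y => f₁ (t x y)) :=
      ⟨fun x x' y => by rw [ht.1.add_left, h₁.add], fun c x y => by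
        rw [ht.1.smul_left, h₁.smul], fun x y y' => by rw [ht.1.add_right, h₁.add],
        fun c x y => by rw [ht.1.smul_right, h₁.smul], h₁.cont.comp ht.1.cont⟩
    obtain ⟨φ, -, hu⟩ := ht.2 Z (fun x y => f₁ (t x y)) hb
    have e1 := hu f₁ ⟨h₁, fun _ _ => rfl⟩
    have e2 := hu f₂ ⟨h₂, fun x y => (h₁₂ x y).symm⟩
    intro v
    rw [e1, e2]
  refine hflat.of_iso (f := f) (g := fun z => g z) hf (isContLin_clm g) ?_ ?_ ?_ ?_
  · intro z
    refine pext (f := fun z => f (g z)) (g := fun z => z) ((isContLin_clm g).comp' hf)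
      isContLin_id ?_ z
    intro x y
    show f (g (pt x y)) = pt x y
    rw [hg, hft]
  · exact hVext (hf.comp' (isContLin_clm g)) isContLin_id (fun x y => by
      show g (f (t x y)) = t x y
      rw [hft, hg])
  · intro a
    refine hVext ((hV.left.bilin.isContLin_right a).comp' hf)
      (hf.comp' (hP.left.bilin.isContLin_right a)) ?_
    intro x y
    show f (lV a (t x y)) = lP a (f (t x y))
    rw [hlV, hft, hft, hlP]
  · intro v a
    refine hVext ((hV.right.bilin.isContLin_left a).comp' hf)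
      (hf.comp' (hP.right.bilin.isContLin_left a)) ?_ v
    intro x y
    show f (rV (t x y) a) = rP (f (t x y)) a
    rw [hrV, hft, hft, hrP]

end Main

end Pool.Agent.R298.Fr
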