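import Mathlib
import Pool.Agent.R298.Fr.Defs

/-!
Flat resolutions of Fréchet bimodules, weak homological dimension, weak bidimension.
-/

set_option autoImplicit false

namespace Pool.Agent.R298.Fr

open Pool.Agent.Helper832.PN

universe u

section Defs

variable (A : Type u) [NonUnitalRing A] [Module ℂ A] [UniformSpace A]

/-- A Fréchet `A`-bimodule. -/
structure FrBimod where
  /-- the underlying Fréchet space -/
  carrier : Type u
  /-- addition -/
  grp : AddCommGroup carrier
  /-- scalar multiplication -/
  mod : Module ℂ carrier
  /-- topology -/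
  unif : UniformSpace carrier
  /-- it is a Fréchet space -/
  frechet : IsFrechet carrier
  /-- left action -/
  l : A → carrier → carrier
  /-- right action -/
  r : carrier → A → carrier
  /-- the actions are jointly continuous, associative and commute -/
  isBimod : IsBimod l r

attribute [instance] FrBimod.grp FrBimod.mod FrBimod.unif FrBimod.frechet

variable {A}

/-- Morphisms of Fréchet bimodules: continuous linear maps commuting with the actions. -/
structure IsBimodHom (P Q : FrBimod A) (f : P.carrier → Q.carrier) : Prop where
  lin : IsContLin f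
  left : ∀ a x, f (P.l a x) = Q.l a (f x)
  right : ∀ x a, f (P.r x a) = Q.r (f x) a

/-- A flat resolution `⋯ → P 1 → P 0 → M → 0` of the Fréchet bimodule `M`: the `P n` are flat
bimodules, and the augmented complex has a contracting homotopy consisting of continuous linear
maps. -/
structure FlatRes (M : FrBimod A) where
  /-- the modules -/
  P : ℕ → FrBimod A
  /-- the differentials -/
  d : ∀ n, (P (n + 1)).carrier → (P n).carrier
  /-- the augmentation -/
  aug : (P 0).carrier → M.carrier
  flat : ∀ n, FlatB (P n).l (P n).r
  hom_d : ∀ n, IsBimodHom (P (n + 1)) (P n) (d n)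
  hom_aug : IsBimodHom (P 0) M aug
  d_d : ∀ n x, d n (d (n + 1) x) = 0
  aug_d : ∀ x, aug (d 0 x) = 0
  homotopy : ∃ (s : ∀ n, (P n).carrier → (P (n + 1)).carrier) (s' : M.carrier → (P 0).carrier),
    (∀ n, IsContLin (s n)) ∧ IsContLin s' ∧ (∀ m, aug (s' m) = m) ∧
    (∀ x, d 0 (s 0 x) + s' (aug x) = x) ∧ ∀ n x, d (n + 1) (s (n + 1) x) + s n (d n x) = x

/-- The length of a resolution: the least `n` with `P i = 0` for all `i > n`, or `∞`. -/
noncomputable def FlatRes.length {M : FrBimod A} (R : FlatRes M) : ℕ∞ :=
  sInf {n : ℕ∞ | ∃ k : ℕ, n = k ∧ ∀ i, k < i → ∀ x : (R.P i).carrier, x = 0}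

/-- The weak homological dimension of `M` in `A`-mod-`A`: the least length of a flat
resolution. -/
noncomputable def wdh (M : FrBimod A) : ℕ∞ := ⨅ R : FlatRes M, R.length

end Defs

end Pool.Agent.R298.Fr
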