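import Mathlib
import Pool.Agent.R298.Fr.DefsRes

/-!
The bimodule `A₊`, the weak bidimension, biflat algebras.
-/

set_option autoImplicit false
set_option linter.unusedSectionVars false
set_option linter.unusedVariables false

namespace Pool.Agent.R298.Fr

open Pool.Agent.Helper832.PN Topology Filter

universe u

section Plus

variable {A : Type u} [NonUnitalRing A] [Module ℂ A] [UniformSpace A] [IsFrAlg A]

instance isFrechet_plus : IsFrechet (ℂ × A) where
  uniformAddGroup := inferInstance
  continuousSMul := inferInstance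
  polynormable := inferInstance
  t2 := inferInstance
  complete := inferInstance
  firstCountable := inferInstance

/-- The left action of `A` on `A₊ = ℂ × A`. -/
def plL (a : A) (x : ℂ × A) : ℂ × A := plusMul (0, a) x

/-- The right action of `A` on `A₊ = ℂ × A`. -/
def plR (x : ℂ × A) (a : A) : ℂ × A := plusMul x (0, a)

lemma plL_eq (a : A) (x : ℂ × A) : plL a x = (0, x.1 • a + a * x.2) := by
  simp [plL, plusMul]

lemma plR_eq (x : ℂ × A) (a : A) : plR x a = (0, x.1 • a + x.2 * a) := by
  simp [plR, plusMul]

/-- `A × A₊ → A`. -/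
def rdot (a : A) (x : ℂ × A) : A := x.1 • a + a * x.2

/-- `A₊ × A → A`. -/
def ldot (x : ℂ × A) (a : A) : A := x.1 • a + x.2 * a

lemma smul_mul' (c : ℂ) (a b : A) : (c • a) * b = c • (a * b) :=
  (IsFrAlg.mul_bilin (A := A)).smul_left c a b

lemma mul_smul' (c : ℂ) (a b : A) : a * (c • b) = c • (a * b) :=
  (IsFrAlg.mul_bilin (A := A)).smul_right c a b

lemma rdot_bilin : IsContBilin (rdot : A → ℂ × A → A) := by
  have hm := IsFrAlg.mul_bilin (A := A)
  refine ⟨?_, ?_, ?_, ?_, ?_⟩
  · intro a a' x
    simp only [rdot, smul_add, add_mul]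
    abel
  · intro c a x
    simp only [rdot, smul_mul', smul_add, smul_smul, mul_comm c]
  · intro a x x'
    simp only [rdot, Prod.fst_add, Prod.snd_add, add_smul, mul_add]
    abel
  · intro c a x
    simp only [rdot, Prod.smul_fst, Prod.smul_snd, mul_smul', smul_add, smul_smul, smul_eq_mul]
  · have h1 : Continuous fun p : A × (ℂ × A) => p.1 * p.2.2 :=
      hm.cont.comp (continuous_fst.prodMk (continuous_snd.comp continuous_snd))
    have h2 : Continuous fun p : A × (ℂ × A) => p.2.1 • p.1 :=
      (continuous_fst.comp continuous_snd).smul continuous_fst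
    exact h2.add h1

lemma ldot_bilin : IsContBilin (ldot : ℂ × A → A → A) := by
  have hm := IsFrAlg.mul_bilin (A := A)
  refine ⟨?_, ?_, ?_, ?_, ?_⟩
  · intro a a' x
    simp only [ldot, Prod.fst_add, Prod.snd_add, add_smul, add_mul]
    abel
  · intro c a x
    simp only [ldot, Prod.smul_fst, Prod.smul_snd, smul_mul', smul_add, smul_smul, smul_eq_mul]
  · intro a x x'
    simp only [ldot, smul_add, mul_add]
    abel
  · intro c a x
    simp only [ldot, mul_smul', smul_add, smul_smul, mul_comm c]
  · have h1 : Continuous fun p : (ℂ × A) × A => p.1.2 * p.2 :=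
      hm.cont.comp ((continuous_snd.comp continuous_fst).prodMk continuous_snd)
    have h2 : Continuous fun p : (ℂ × A) × A => p.1.1 • p.2 :=
      (continuous_fst.comp continuous_fst).smul continuous_snd
    exact h2.add h1

/-- `A → A₊`. -/
lemma iotaLin : IsContLin (fun a : A => ((0, a) : ℂ × A)) :=
  ⟨fun _ _ => Prod.ext (add_zero 0).symm rfl, fun _ _ => Prod.ext (smul_zero _).symm rfl,
    continuous_const.prodMk continuous_id⟩

lemma sndLin : IsContLin (fun x : ℂ × A => x.2) := ⟨fun _ _ => rfl, fun _ _ => rfl, continuous_snd⟩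

lemma post_bilin {X Y Z Z' : Type u} [AddCommGroup X] [Module ℂ X] [TopologicalSpace X]
    [AddCommGroup Y] [Module ℂ Y] [TopologicalSpace Y] [AddCommGroup Z] [Module ℂ Z]
    [TopologicalSpace Z] [AddCommGroup Z'] [Module ℂ Z'] [TopologicalSpace Z'] {β : X → Y → Z}
    (hβ : IsContBilin β) {f : Z → Z'} (hf : IsContLin f) : IsContBilin (fun x y => f (β x y)) :=
  ⟨fun x x' y => by rw [hβ.add_left, hf.add], fun c x y => by rw [hβ.smul_left, hf.smul],
    fun x y y' => by rw [hβ.add_right, hf.add], fun c x y => by rw [hβ.smul_right, hf.smul],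
    hf.cont.comp hβ.cont⟩

lemma isBimod_plus : IsBimod (plL : A → ℂ × A → ℂ × A) plR := by
  have e1 : (plL : A → ℂ × A → ℂ × A) = fun a x => (0, rdot a x) := by
    funext a x
    rw [plL_eq]
    rfl
  have e2 : (plR : ℂ × A → A → ℂ × A) = fun x a => (0, ldot x a) := by
    funext x a
    rw [plR_eq]
    rfl
  refine ⟨⟨?_, ?_⟩, ⟨?_, ?_⟩, ?_⟩
  · rw [e1]
    exact post_bilin rdot_bilin iotaLin
  · intro a b x
    rw [plL_eq, plL_eq, plL_eq, mul_add, mul_smul', zero_smul, zero_add, mul_assoc]
  · rw [e2]
    exact post_bilin ldot_bilin iotaLin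
  · intro x a b
    rw [plR_eq, plR_eq, plR_eq, add_mul, smul_mul', zero_smul, zero_add, mul_assoc]
  · intro a v b
    rw [plL_eq, plR_eq, plR_eq, plL_eq]
    simp only [zero_smul, zero_add, add_mul, mul_add, smul_mul', mul_smul', mul_assoc]

end Plus

section Def

variable (A : Type u) [NonUnitalRing A] [Module ℂ A] [UniformSpace A] [IsFrAlg A]

/-- The Fréchet bimodule `A₊ = ℂ × A` (the unitization of `A`). -/
noncomputable def plusBimod : FrBimod A where
  carrier := ℂ × A
  grp := inferInstance
  mod := inferInstance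
  unif := inferInstance
  frechet := isFrechet_plus
  l := plL
  r := plR
  isBimod := isBimod_plus

/-- The weak bidimension `wdb A`: the weak homological dimension of the bimodule `A₊`. -/
noncomputable def wdb : ℕ∞ := wdh (plusBimod A)

/-- The algebra `A` is biflat: `A` is flat in `A`-mod-`A`. -/
def Biflat : Prop := FlatB (fun a x : A => a * x) (fun x a : A => x * a)

end Def

end Pool.Agent.R298.Fr
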