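import Mathlib
import Pool.Agent.R298.Fr.D

/-!
Models of tensor products, direct sums, and flatness of the modules `A₊` and `A`.
-/

set_option autoImplicit false
set_option linter.unusedSectionVars false
set_option linter.unusedVariables false

namespace Pool.Agent.R298.Fr

open Pool.Agent.Helper832.PN Topology Filter

universe u

section Univ

variable {A X Y : Type u}
  [AddCommGroup X] [Module ℂ X] [UniformSpace X] [IsFrechet X]
  [AddCommGroup Y] [Module ℂ Y] [UniformSpace Y] [IsFrechet Y]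

/-- The universal property of `PB`, for arbitrary index types. -/
lemma pb_univ (r : Y → A → Y) (l : A → X → X) {Z : Type u} [AddCommGroup Z] [Module ℂ Z]
    [UniformSpace Z] [IsPolynormed Z] (β : Y → X → Z) (hβ : IsContBilin β)
    (hb : ∀ y a x, β (r y a) x = β y (l a x)) :
    ∃! φ : PB r l → Z, IsContLin φ ∧ ∀ y x, φ (pb r l y x) = β y x := by
  have hu : UniformContinuousConstSMul ℂ Z :=
    uniformContinuousConstSMul_of_continuousConstSMul ℂ Z
  let f : BalT r l →L[ℂ] Z :=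
    { toFun := fun z => algLift hβ.toLin z
      map_add' := fun x y => map_add (algLift hβ.toLin) x y
      map_smul' := fun c x => map_smul (algLift hβ.toLin) c x
      cont := balLift_continuous hβ hb }
  let F : PB r l →L[ℂ] Z := ContinuousLinearMap.fromCompletion f
  have hF : ∀ y x, F (pb r l y x) = β y x := by
    intro y x
    have h1 : F (pb r l y x) = f (toBal r l (tm y x)) :=
      ContinuousLinearMap.fromCompletion_apply_coe f _
    rw [h1]
    exact algLift_tm _ _ _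
  refine ⟨fun z => F z, ⟨isContLin_clm F, hF⟩, ?_⟩
  rintro ψ ⟨hψ, hψ2⟩
  funext z
  exact pb_ext hψ (isContLin_clm F) (fun y x => by rw [hψ2, hF]) z

end Univ

section BiModel

variable {A W V : Type u} [NonUnitalRing A] [Module ℂ A] [UniformSpace A]
  [AddCommGroup W] [Module ℂ W] [UniformSpace W] [IsFrechet W]
  [AddCommGroup V] [Module ℂ V] [UniformSpace V] [IsFrechet V]

/-- Both actions on `W`. -/
def dubR (lW : A → W → W) (rW : W → A → W) : W → A ⊕ A → W := fun w s =>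
  Sum.elim (fun a => rW w a) (fun a => lW a w) s

/-- Both actions on `V`. -/
def dubL (lV : A → V → V) (rV : V → A → V) : A ⊕ A → V → V := fun s v =>
  Sum.elim (fun a => lV a v) (fun a => rV v a) s

/-- Existence of `W ⊗̂_{A-A} V`. -/
lemma isBiTensorOver_pb (lW : A → W → W) (rW : W → A → W) (lV : A → V → V) (rV : V → A → V) :
    IsBiTensorOver lW rW lV rV (pb (dubR lW rW) (dubL lV rV)) := by
  refine ⟨pb_isContBilin _ _, ?_, ?_, ?_⟩
  · intro w a v
    exact pb_bal (dubR lW rW) (dubL lV rV) w (Sum.inl a) v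
  · intro w a v
    exact pb_bal (dubR lW rW) (dubL lV rV) w (Sum.inr a) v
  · intro Z _ _ _ _ β hβ hbr hbl
    apply pb_univ _ _ β hβ
    rintro w (a | a) v
    · exact hbr w a v
    · exact hbl w a v

end BiModel

section Sum

lemma IsExact.prod {T₁' T₁ T₁'' T₂' T₂ T₂'' : Type u} [AddCommGroup T₁''] [AddCommGroup T₂'']
    {φ₁ : T₁' → T₁} {ψ₁ : T₁ → T₁''} {φ₂ : T₂' → T₂} {ψ₂ : T₂ → T₂''}
    (h₁ : IsExact φ₁ ψ₁) (h₂ : IsExact φ₂ ψ₂) :
    IsExact (fun x : T₁' × T₂' => (φ₁ x.1, φ₂ x.2)) (fun x : T₁ × T₂ => (ψ₁ x.1, ψ₂ x.2)) := by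
  obtain ⟨i1, e1, s1⟩ := h₁
  obtain ⟨i2, e2, s2⟩ := h₂
  refine ⟨?_, ?_, ?_⟩
  · intro x y hxy
    have h := Prod.ext_iff.1 hxy
    exact Prod.ext (i1 h.1) (i2 h.2)
  · ext ⟨a, b⟩
    constructor
    · rintro ⟨x, hx⟩
      have h := Prod.ext_iff.1 hx
      have ha : a ∈ {t | ψ₁ t = 0} := e1 ▸ ⟨x.1, h.1⟩
      have hb : b ∈ {t | ψ₂ t = 0} := e2 ▸ ⟨x.2, h.2⟩
      exact Prod.ext ha hb
    · intro h
      have h' := Prod.ext_iff.1 h
      have ha : a ∈ Set.range φ₁ := by rw [e1]; exact h'.1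
      have hb : b ∈ Set.range φ₂ := by rw [e2]; exact h'.2
      obtain ⟨x, hx⟩ := ha
      obtain ⟨y, hy⟩ := hb
      exact ⟨(x, y), Prod.ext hx hy⟩
  · rintro ⟨a, b⟩
    obtain ⟨x, hx⟩ := s1 a
    obtain ⟨y, hy⟩ := s2 b
    exact ⟨(x, y), Prod.ext hx hy⟩

variable {A V₁ V₂ : Type u} [NonUnitalRing A] [Module ℂ A] [UniformSpace A]
  [AddCommGroup V₁] [Module ℂ V₁] [UniformSpace V₁] [IsFrechet V₁]
  [AddCommGroup V₂] [Module ℂ V₂] [UniformSpace V₂] [IsFrechet V₂]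

lemma inlLin {X Y : Type u} [AddCommGroup X] [Module ℂ X] [TopologicalSpace X]
    [AddCommGroup Y] [Module ℂ Y] [TopologicalSpace Y] : IsContLin (fun x : X => ((x, 0) : X × Y)) :=
  ⟨fun _ _ => Prod.ext rfl (add_zero 0).symm, fun _ _ => Prod.ext rfl (smul_zero _).symm,
    continuous_id.prodMk continuous_const⟩

lemma inrLin {X Y : Type u} [AddCommGroup X] [Module ℂ X] [TopologicalSpace X]
    [AddCommGroup Y] [Module ℂ Y] [TopologicalSpace Y] : IsContLin (fun y : Y => ((0, y) : X × Y)) :=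
  ⟨fun _ _ => Prod.ext (add_zero 0).symm rfl, fun _ _ => Prod.ext (smul_zero _).symm rfl,
    continuous_const.prodMk continuous_id⟩

/-- Direct sums of tensor products. -/
lemma isBiTensorOver_prod {W T₁ T₂ : Type u} [AddCommGroup W] [Module ℂ W] [UniformSpace W]
    [AddCommGroup T₁] [Module ℂ T₁] [UniformSpace T₁] [IsPolynormed T₁]
    [AddCommGroup T₂] [Module ℂ T₂] [UniformSpace T₂] [IsPolynormed T₂]
    {lW : A → W → W} {rW : W → A → W} {l₁ : A → V₁ → V₁} {r₁ : V₁ → A → V₁}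
    {l₂ : A → V₂ → V₂} {r₂ : V₂ → A → V₂} (hl₁ : ∀ a, l₁ a 0 = 0) (hr₁ : ∀ a, r₁ 0 a = 0)
    (hl₂ : ∀ a, l₂ a 0 = 0) (hr₂ : ∀ a, r₂ 0 a = 0) {t₁ : W → V₁ → T₁} {t₂ : W → V₂ → T₂}
    (h₁ : IsBiTensorOver lW rW l₁ r₁ t₁) (h₂ : IsBiTensorOver lW rW l₂ r₂ t₂) :
    IsBiTensorOver lW rW (fun a (v : V₁ × V₂) => (l₁ a v.1, l₂ a v.2))
      (fun (v : V₁ × V₂) a => (r₁ v.1 a, r₂ v.2 a))
      (fun w (v : V₁ × V₂) => (t₁ w v.1, t₂ w v.2)) := by
  refine ⟨⟨?_, ?_, ?_, ?_, ?_⟩, ?_, ?_, ?_⟩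
  · intro x x' y
    exact Prod.ext (h₁.bilin.add_left _ _ _) (h₂.bilin.add_left _ _ _)
  · intro c x y
    exact Prod.ext (h₁.bilin.smul_left _ _ _) (h₂.bilin.smul_left _ _ _)
  · intro x y y'
    exact Prod.ext (h₁.bilin.add_right _ _ _) (h₂.bilin.add_right _ _ _)
  · intro c x y
    exact Prod.ext (h₁.bilin.smul_right _ _ _) (h₂.bilin.smul_right _ _ _)
  · exact (h₁.bilin.cont.comp (continuous_fst.prodMk (continuous_fst.comp continuous_snd))).prodMk
      (h₂.bilin.cont.comp (continuous_fst.prodMk (continuous_snd.comp continuous_snd)))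
  · intro w a v
    exact Prod.ext (h₁.bal_right _ _ _) (h₂.bal_right _ _ _)
  · intro w a v
    exact Prod.ext (h₁.bal_left _ _ _) (h₂.bal_left _ _ _)
  · intro Z _ _ _ _ β hβ hbr hbl
    have b1 : IsContBilin (fun w v => β w ((v, 0) : V₁ × V₂)) :=
      hβ.comp_lin isContLin_id (inlLin (X := V₁) (Y := V₂))
    have b2 : IsContBilin (fun w v => β w ((0, v) : V₁ × V₂)) :=
      hβ.comp_lin isContLin_id (inrLin (X := V₁) (Y := V₂))
    obtain ⟨φ₁, ⟨hφ₁, hφ₁t⟩, -⟩ := h₁.univ Z _ b1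
      (fun w a v => by
        show β (rW w a) (v, 0) = β w (l₁ a v, 0)
        rw [hbr]
        show β w (l₁ a v, l₂ a 0) = _
        rw [hl₂])
      (fun w a v => by
        show β (lW a w) (v, 0) = β w (r₁ v a, 0)
        rw [hbl]
        show β w (r₁ v a, r₂ 0 a) = _
        rw [hr₂])
    obtain ⟨φ₂, ⟨hφ₂, hφ₂t⟩, -⟩ := h₂.univ Z _ b2
      (fun w a v => by
        show β (rW w a) (0, v) = β w (0, l₂ a v)
        rw [hbr]
        show β w (l₁ a 0, l₂ a v) = _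
        rw [hl₁])
      (fun w a v => by
        show β (lW a w) (0, v) = β w (0, r₂ v a)
        rw [hbl]
        show β w (r₁ 0 a, r₂ v a) = _
        rw [hr₁])
    have hsum : IsContLin (fun x : T₁ × T₂ => φ₁ x.1 + φ₂ x.2) := by
      refine ⟨?_, ?_, (hφ₁.cont.comp continuous_fst).add (hφ₂.cont.comp continuous_snd)⟩
      · intro x y
        show φ₁ (x.1 + y.1) + φ₂ (x.2 + y.2) = _
        rw [hφ₁.add, hφ₂.add]
        abel
      · intro c x
        show φ₁ (c • x.1) + φ₂ (c • x.2) = _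
        rw [hφ₁.smul, hφ₂.smul, smul_add]
    refine ⟨fun x => φ₁ x.1 + φ₂ x.2, ⟨hsum, ?_⟩, ?_⟩
    · intro w v
      show φ₁ (t₁ w v.1) + φ₂ (t₂ w v.2) = β w v
      rw [hφ₁t, hφ₂t, ← hβ.add_right]
      congr 1
      exact Prod.ext (add_zero _) (zero_add _)
    · rintro ψ ⟨hψ, hψt⟩
      have e1 := h₁.ext ((inlLin (X := T₁) (Y := T₂)).comp' hψ) hφ₁ (fun w v => by
        show ψ (t₁ w v, 0) = φ₁ (t₁ w v)
        rw [hφ₁t, ← hψt, h₂.bilin.zero_right])
      have e2 := h₂.ext ((inrLin (X := T₁) (Y := T₂)).comp' hψ) hφ₂ (fun w v => by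
        show ψ (0, t₂ w v) = φ₂ (t₂ w v)
        rw [hφ₂t, ← hψt, h₁.bilin.zero_right])
      funext x
      have e3 : x = (x.1, 0) + (0, x.2) := Prod.ext (add_zero _).symm (zero_add _).symm
      calc ψ x = ψ ((x.1, 0) + (0, x.2)) := by rw [← e3]
        _ = ψ (x.1, 0) + ψ (0, x.2) := hψ.add _ _
        _ = φ₁ x.1 + φ₂ x.2 := by
            rw [← congrFun e1 x.1, ← congrFun e2 x.2]

/-- Direct sums of flat bimodules are flat. -/
theorem flatB_prod {l₁ : A → V₁ → V₁} {r₁ : V₁ → A → V₁}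
    {l₂ : A → V₂ → V₂} {r₂ : V₂ → A → V₂} (hV₁ : IsBimod l₁ r₁) (hV₂ : IsBimod l₂ r₂)
    (h₁ : FlatB l₁ r₁) (h₂ : FlatB l₂ r₂) :
    FlatB (fun a (v : V₁ × V₂) => (l₁ a v.1, l₂ a v.2))
      (fun (v : V₁ × V₂) a => (r₁ v.1 a, r₂ v.2 a)) := by
  apply flatB_of_models
  intro W' W W'' _ _ _ _ _ _ _ _ _ _ _ _ lW' rW' lW rW lW'' rW'' i j hW' hW hW'' hadm hil hir hjl hjr
  have p1' := isBiTensorOver_pb lW' rW' l₁ r₁
  have p1 := isBiTensorOver_pb lW rW l₁ r₁
  have p1'' := isBiTensorOver_pb lW'' rW'' l₁ r₁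
  have p2' := isBiTensorOver_pb lW' rW' l₂ r₂
  have p2 := isBiTensorOver_pb lW rW l₂ r₂
  have p2'' := isBiTensorOver_pb lW'' rW'' l₂ r₂
  obtain ⟨φ₁, ⟨hφ₁, hφ₁t⟩, -⟩ := p1'.univ _ _ (p1.bilin.comp_lin hadm.lin_i isContLin_id)
    (fun w a v => by rw [hir, p1.bal_right]) (fun w a v => by rw [hil, p1.bal_left])
  obtain ⟨ψ₁, ⟨hψ₁, hψ₁t⟩, -⟩ := p1.univ _ _ (p1''.bilin.comp_lin hadm.lin_j isContLin_id)
    (fun w a v => by rw [hjr, p1''.bal_right]) (fun w a v => by rw [hjl, p1''.bal_left])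
  obtain ⟨φ₂, ⟨hφ₂, hφ₂t⟩, -⟩ := p2'.univ _ _ (p2.bilin.comp_lin hadm.lin_i isContLin_id)
    (fun w a v => by rw [hir, p2.bal_right]) (fun w a v => by rw [hil, p2.bal_left])
  obtain ⟨ψ₂, ⟨hψ₂, hψ₂t⟩, -⟩ := p2.univ _ _ (p2''.bilin.comp_lin hadm.lin_j isContLin_id)
    (fun w a v => by rw [hjr, p2''.bal_right]) (fun w a v => by rw [hjl, p2''.bal_left])
  have ex1 := h₁ W' W W'' lW' rW' lW rW lW'' rW'' i j hW' hW hW'' hadm hil hir hjl hjr _ _ _
    _ _ _ p1' p1 p1'' φ₁ ψ₁ hφ₁ hψ₁ hφ₁t hψ₁t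
  have ex2 := h₂ W' W W'' lW' rW' lW rW lW'' rW'' i j hW' hW hW'' hadm hil hir hjl hjr _ _ _
    _ _ _ p2' p2 p2'' φ₂ ψ₂ hφ₂ hψ₂ hφ₂t hψ₂t
  have prodLin : ∀ {T₁ T₂ S₁ S₂ : Type u} [AddCommGroup T₁] [Module ℂ T₁] [UniformSpace T₁]
      [AddCommGroup T₂] [Module ℂ T₂] [UniformSpace T₂] [AddCommGroup S₁] [Module ℂ S₁]
      [UniformSpace S₁] [AddCommGroup S₂] [Module ℂ S₂] [UniformSpace S₂] {f : T₁ → S₁}
      {g : T₂ → S₂}, IsContLin f → IsContLin g →
      IsContLin (fun x : T₁ × T₂ => (f x.1, g x.2)) := by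
    intro T₁ T₂ S₁ S₂ _ _ _ _ _ _ _ _ _ _ _ _ f g hf hg
    exact ⟨fun x y => Prod.ext (hf.add _ _) (hg.add _ _),
      fun c x => Prod.ext (hf.smul _ _) (hg.smul _ _),
      (hf.cont.comp continuous_fst).prodMk (hg.cont.comp continuous_snd)⟩
  have z1 := fun a => hV₁.left.bilin.zero_right a
  have z2 := fun a => hV₁.right.bilin.zero_left a
  have z3 := fun a => hV₂.left.bilin.zero_right a
  have z4 := fun a => hV₂.right.bilin.zero_left a
  refine ⟨_, _, _, inferInstance, inferInstance, inferInstance, inferInstance,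
    inferInstance, inferInstance, inferInstance, inferInstance, inferInstance, inferInstance,
    inferInstance, inferInstance, _, _, _, _, _,
    isBiTensorOver_prod z1 z2 z3 z4 p1' p2', isBiTensorOver_prod z1 z2 z3 z4 p1 p2,
    isBiTensorOver_prod z1 z2 z3 z4 p1'' p2'', prodLin hφ₁ hφ₂, prodLin hψ₁ hψ₂, ?_, ?_,
    ex1.prod ex2⟩
  · intro w v
    exact Prod.ext (hφ₁t _ _) (hφ₂t _ _)
  · intro w v
    exact Prod.ext (hψ₁t _ _) (hψ₂t _ _)

/-- The zero bimodule is flat. -/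
lemma flatB_zero {V : Type u} [AddCommGroup V] [Module ℂ V] [UniformSpace V] [Subsingleton V]
    (lV : A → V → V) (rV : V → A → V) : FlatB lV rV := by
  intro W' W W'' _ _ _ _ _ _ _ _ _ _ _ _ l' r' l r l'' r'' i j hW' hW hW'' hadm hil hir hjl hjr
    S' S S'' _ _ _ _ _ _ _ _ _ _ _ _ s' s s'' hs' hs hs'' φ₁ ψ₁ hφ₁ hψ₁ hφ₁t hψ₁t
  have key : ∀ {W T : Type u} [AddCommGroup W] [Module ℂ W] [UniformSpace W]
      [AddCommGroup T] [Module ℂ T] [UniformSpace T] [IsPolynormed T] {lW : A → W → W}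
      {rW : W → A → W} {t : W → V → T}, IsBiTensorOver lW rW lV rV t → ∀ x : T, x = 0 := by
    intro W T _ _ _ _ _ _ _ lW rW t ht x
    have := ht.ext (isContLin_id (X := T)) (isContLin_clm (0 : T →L[ℂ] T)) (fun w v => by
      have hv : v = 0 := Subsingleton.elim _ _
      rw [hv, ht.bilin.zero_right]
      rfl)
    exact congrFun this x
  refine ⟨?_, ?_, ?_⟩
  · intro x y _
    rw [key hs' x, key hs' y]
  · ext x
    constructor
    · intro _
      exact key hs'' _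
    · intro _
      exact ⟨0, by rw [key hs x, key hs (φ₁ 0)]⟩
  · intro x
    exact ⟨0, by rw [key hs'' x, key hs'' (ψ₁ 0)]⟩

end Sum

section OneSided

variable {A : Type u} [NonUnitalRing A] [Module ℂ A] [UniformSpace A]

/-- Uniqueness of `Y ⊗̂_A X`. -/
lemma IsTensorOver_exists_iso {X Y T₁ T₂ : Type u} [AddCommGroup X] [Module ℂ X] [UniformSpace X]
    [AddCommGroup Y] [Module ℂ Y] [UniformSpace Y]
    [AddCommGroup T₁] [Module ℂ T₁] [UniformSpace T₁] [IsPolynormed T₁]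
    [AddCommGroup T₂] [Module ℂ T₂] [UniformSpace T₂] [IsPolynormed T₂]
    {r : Y → A → Y} {l : A → X → X} {t₁ : Y → X → T₁} (h₁ : IsTensorOver r l t₁)
    {t₂ : Y → X → T₂} (h₂ : IsTensorOver r l t₂) :
    ∃ f : T₁ → T₂, IsContLin f ∧ Function.Bijective f ∧ ∀ w v, f (t₁ w v) = t₂ w v := by
  obtain ⟨f, ⟨hf, hft⟩, -⟩ := h₁.univ T₂ t₂ h₂.bilin h₂.bal
  obtain ⟨g, ⟨hg, hgt⟩, -⟩ := h₂.univ T₁ t₁ h₁.bilin h₁.bal
  have e1 := h₁.ext (hf.comp' hg) (isContLin_id (X := T₁)) (fun w v => by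
    show g (f (t₁ w v)) = t₁ w v
    rw [hft, hgt])
  have e2 := h₂.ext (hg.comp' hf) (isContLin_id (X := T₂)) (fun w v => by
    show f (g (t₂ w v)) = t₂ w v
    rw [hgt, hft])
  exact ⟨f, hf, Function.bijective_iff_has_inverse.2 ⟨g, congrFun e1, congrFun e2⟩, hft⟩

/-- Flatness of a left module from exactness for one choice of the tensor products. -/
lemma flatL_of_models {X : Type u} [AddCommGroup X] [Module ℂ X] [UniformSpace X]
    {l : A → X → X}
    (h : ∀ (Y' Y Y'' : Type u)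
    [AddCommGroup Y'] [Module ℂ Y'] [UniformSpace Y'] [IsFrechet Y']
    [AddCommGroup Y] [Module ℂ Y] [UniformSpace Y] [IsFrechet Y]
    [AddCommGroup Y''] [Module ℂ Y''] [UniformSpace Y''] [IsFrechet Y'']
    (r' : Y' → A → Y') (r : Y → A → Y) (r'' : Y'' → A → Y'') (i : Y' → Y) (j : Y → Y''),
    IsRightMod r' → IsRightMod r → IsRightMod r'' → IsAdmissible i j →
    (∀ y a, i (r' y a) = r (i y) a) → (∀ y a, j (r y a) = r'' (j y) a) →
    ∃ (T' T T'' : Type u) (_ : AddCommGroup T') (_ : Module ℂ T') (_ : UniformSpace T')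
      (_ : IsFrechet T') (_ : AddCommGroup T) (_ : Module ℂ T) (_ : UniformSpace T)
      (_ : IsFrechet T) (_ : AddCommGroup T'') (_ : Module ℂ T'') (_ : UniformSpace T'')
      (_ : IsFrechet T'') (t' : Y' → X → T') (t : Y → X → T) (t'' : Y'' → X → T'')
      (φ : T' → T) (ψ : T → T''),
      IsTensorOver r' l t' ∧ IsTensorOver r l t ∧ IsTensorOver r'' l t'' ∧ IsContLin φ ∧
      IsContLin ψ ∧ (∀ y x, φ (t' y x) = t (i y) x) ∧ (∀ y x, ψ (t y x) = t'' (j y) x) ∧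
      IsExact φ ψ) :
    FlatL l := by
  intro Y' Y Y'' _ _ _ _ _ _ _ _ _ _ _ _ r' r r'' i j hr' hr hr'' hadm hir hjr
    S' S S'' _ _ _ _ _ _ _ _ _ _ _ _ s' s s'' hs' hs hs'' φ₁ ψ₁ hφ₁ hψ₁ hφ₁t hψ₁t
  obtain ⟨T', T, T'', _, _, _, _, _, _, _, _, _, _, _, _, t', t, t'', φ, ψ, ht', ht, ht'', hφ, hψ,
    hφt, hψt, hex⟩ := h Y' Y Y'' r' r r'' i j hr' hr hr'' hadm hir hjr
  obtain ⟨f', hf', hfb', hft'⟩ := IsTensorOver_exists_iso hs' ht'
  obtain ⟨f, hf, hfb, hft⟩ := IsTensorOver_exists_iso hs ht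
  obtain ⟨f'', hf'', hfb'', hft''⟩ := IsTensorOver_exists_iso hs'' ht''
  refine hex.transfer hfb' hfb hfb'' (map_zero hf''.toCLM) ?_ ?_
  · have := hs'.ext (hφ₁.comp' hf) (hf'.comp' hφ) (fun w v => by
      show f (φ₁ (s' w v)) = φ (f' (s' w v))
      rw [hφ₁t, hft, hft', hφt])
    exact congrFun this
  · have := hs.ext (hψ₁.comp' hf'') (hf.comp' hψ) (fun w v => by
      show f'' (ψ₁ (s w v)) = ψ (f (s w v))
      rw [hψ₁t, hft'', hft, hψt])
    exact congrFun this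

/-- Flatness of a right module from exactness for one choice of the tensor products. -/
lemma flatR_of_models {Y : Type u} [AddCommGroup Y] [Module ℂ Y] [UniformSpace Y]
    {r : Y → A → Y}
    (h : ∀ (X' X X'' : Type u)
    [AddCommGroup X'] [Module ℂ X'] [UniformSpace X'] [IsFrechet X']
    [AddCommGroup X] [Module ℂ X] [UniformSpace X] [IsFrechet X]
    [AddCommGroup X''] [Module ℂ X''] [UniformSpace X''] [IsFrechet X'']
    (l' : A → X' → X') (l : A → X → X) (l'' : A → X'' → X'') (i : X' → X) (j : X → X''),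
    IsLeftMod l' → IsLeftMod l → IsLeftMod l'' → IsAdmissible i j →
    (∀ a x, i (l' a x) = l a (i x)) → (∀ a x, j (l a x) = l'' a (j x)) →
    ∃ (T' T T'' : Type u) (_ : AddCommGroup T') (_ : Module ℂ T') (_ : UniformSpace T')
      (_ : IsFrechet T') (_ : AddCommGroup T) (_ : Module ℂ T) (_ : UniformSpace T)
      (_ : IsFrechet T) (_ : AddCommGroup T'') (_ : Module ℂ T'') (_ : UniformSpace T'')
      (_ : IsFrechet T'') (t' : Y → X' → T') (t : Y → X → T) (t'' : Y → X'' → T'')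
      (φ : T' → T) (ψ : T → T''),
      IsTensorOver r l' t' ∧ IsTensorOver r l t ∧ IsTensorOver r l'' t'' ∧ IsContLin φ ∧
      IsContLin ψ ∧ (∀ y x, φ (t' y x) = t y (i x)) ∧ (∀ y x, ψ (t y x) = t'' y (j x)) ∧
      IsExact φ ψ) :
    FlatR r := by
  intro Y' Y Y'' _ _ _ _ _ _ _ _ _ _ _ _ r' r r'' i j hr' hr hr'' hadm hir hjr
    S' S S'' _ _ _ _ _ _ _ _ _ _ _ _ s' s s'' hs' hs hs'' φ₁ ψ₁ hφ₁ hψ₁ hφ₁t hψ₁t
  obtain ⟨T', T, T'', _, _, _, _, _, _, _, _, _, _, _, _, t', t, t'', φ, ψ, ht', ht, ht'', hφ, hψ,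
    hφt, hψt, hex⟩ := h Y' Y Y'' r' r r'' i j hr' hr hr'' hadm hir hjr
  obtain ⟨f', hf', hfb', hft'⟩ := IsTensorOver_exists_iso hs' ht'
  obtain ⟨f, hf, hfb, hft⟩ := IsTensorOver_exists_iso hs ht
  obtain ⟨f'', hf'', hfb'', hft''⟩ := IsTensorOver_exists_iso hs'' ht''
  refine hex.transfer hfb' hfb hfb'' (map_zero hf''.toCLM) ?_ ?_
  · have := hs'.ext (hφ₁.comp' hf) (hf'.comp' hφ) (fun w v => by
      show f (φ₁ (s' w v)) = φ (f' (s' w v))
      rw [hφ₁t, hft, hft', hφt])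
    exact congrFun this
  · have := hs.ext (hψ₁.comp' hf'') (hf.comp' hψ) (fun w v => by
      show f'' (ψ₁ (s w v)) = ψ (f (s w v))
      rw [hψ₁t, hft'', hft, hψt])
    exact congrFun this

/-- Admissible sequences are exact. -/
lemma IsAdmissible_isExact {Y' Y Y'' : Type u} [AddCommGroup Y'] [Module ℂ Y'] [UniformSpace Y']
    [AddCommGroup Y] [Module ℂ Y] [UniformSpace Y] [AddCommGroup Y''] [Module ℂ Y'']
    [UniformSpace Y''] {i : Y' → Y} {j : Y → Y''} (h : IsAdmissible i j) : IsExact i j := by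
  obtain ⟨p, s, hp, hs, hpi, hjs, hji, hdec⟩ := h.split
  refine ⟨Function.LeftInverse.injective hpi, ?_, Function.RightInverse.surjective hjs⟩
  ext t
  constructor
  · rintro ⟨x, rfl⟩
    exact hji x
  · intro ht
    refine ⟨p t, ?_⟩
    have h1 := hdec t
    have ht' : j t = 0 := ht
    have hs0 : s 0 = 0 := map_zero hs.toCLM
    rw [ht', hs0, add_zero] at h1
    exact h1.symm

end OneSided

section Adm

variable {E W W' W'' : Type u}
  [AddCommGroup E] [Module ℂ E] [UniformSpace E] [IsFrechet E]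
  [AddCommGroup W] [Module ℂ W] [UniformSpace W] [IsFrechet W]
  [AddCommGroup W'] [Module ℂ W'] [UniformSpace W'] [IsFrechet W']
  [AddCommGroup W''] [Module ℂ W''] [UniformSpace W''] [IsFrechet W'']

variable (E) in
/-- `g ⊗ 1`. -/
noncomputable def pml (g : W →L[ℂ] W') : PT W E →L[ℂ] PT W' E :=
  ptLift (pt_isContBilin.comp_lin (isContLin_clm g) (isContLin_id (X := E)))

@[simp] lemma pml_pt (g : W →L[ℂ] W') (w : W) (e : E) : pml E g (pt w e) = pt (g w) e :=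
  ptLift_pt _ _ _

variable (E) in
lemma admissible_pmr {i : W' → W} {j : W → W''} (hadm : IsAdmissible i j) :
    IsAdmissible (fun z => pmr E hadm.lin_i.toCLM z) (fun z => pmr E hadm.lin_j.toCLM z) := by
  obtain ⟨p, s, hp, hs, hpi, hjs, hji, hdec⟩ := hadm.split
  let ic : W' →L[ℂ] W := hadm.lin_i.toCLM
  let jc : W →L[ℂ] W'' := hadm.lin_j.toCLM
  let pc : W →L[ℂ] W' := hp.toCLM
  let sc : W'' →L[ℂ] W := hs.toCLM
  have hicv : ∀ w, ic w = i w := fun _ => rfl
  have hjcv : ∀ w, jc w = j w := fun _ => rfl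
  have hpcv : ∀ w, pc w = p w := fun _ => rfl
  have hscv : ∀ w, sc w = s w := fun _ => rfl
  refine ⟨isContLin_clm _, isContLin_clm _, fun z => pmr E pc z, fun z => pmr E sc z,
    isContLin_clm _, isContLin_clm _, ?_, ?_, ?_, ?_⟩
  · intro z
    refine pext (f := fun z => pmr E pc (pmr E ic z)) (g := fun z => z)
      ((isContLin_clm _).comp' (isContLin_clm _)) isContLin_id ?_ z
    intro e w
    show pmr E pc (pmr E ic (pt e w)) = pt e w
    rw [pmr_pt, pmr_pt, hpcv, hicv, hpi]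
  · intro z
    refine pext (f := fun z => pmr E jc (pmr E sc z)) (g := fun z => z)
      ((isContLin_clm _).comp' (isContLin_clm _)) isContLin_id ?_ z
    intro e w
    show pmr E jc (pmr E sc (pt e w)) = pt e w
    rw [pmr_pt, pmr_pt, hjcv, hscv, hjs]
  · intro z
    refine pext (f := fun z => pmr E jc (pmr E ic z)) (g := fun _ => 0)
      ((isContLin_clm _).comp' (isContLin_clm _)) (isContLin_clm (0 : PT E W' →L[ℂ] PT E W'')) ?_ z
    intro e w
    show pmr E jc (pmr E ic (pt e w)) = 0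
    rw [pmr_pt, pmr_pt, hjcv, hicv, hji, pt_isContBilin.zero_right]
  · intro z
    refine pext (f := fun z => z) (g := fun z => pmr E ic (pmr E pc z) + pmr E sc (pmr E jc z))
      isContLin_id (isContLin_clm (((pmr E ic).comp (pmr E pc)) + ((pmr E sc).comp (pmr E jc))))
      ?_ z
    intro e w
    show pt e w = pmr E ic (pmr E pc (pt e w)) + pmr E sc (pmr E jc (pt e w))
    rw [pmr_pt, pmr_pt, pmr_pt, pmr_pt, ← pt_isContBilin.add_right, hicv, hpcv, hscv, hjcv,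
      ← hdec]

variable (E) in
lemma admissible_pml {i : W' → W} {j : W → W''} (hadm : IsAdmissible i j) :
    IsAdmissible (fun z => pml E hadm.lin_i.toCLM z) (fun z => pml E hadm.lin_j.toCLM z) := by
  obtain ⟨p, s, hp, hs, hpi, hjs, hji, hdec⟩ := hadm.split
  let ic : W' →L[ℂ] W := hadm.lin_i.toCLM
  let jc : W →L[ℂ] W'' := hadm.lin_j.toCLM
  let pc : W →L[ℂ] W' := hp.toCLM
  let sc : W'' →L[ℂ] W := hs.toCLM
  have hicv : ∀ w, ic w = i w := fun _ => rfl
  have hjcv : ∀ w, jc w = j w := fun _ => rfl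
  have hpcv : ∀ w, pc w = p w := fun _ => rfl
  have hscv : ∀ w, sc w = s w := fun _ => rfl
  refine ⟨isContLin_clm _, isContLin_clm _, fun z => pml E pc z, fun z => pml E sc z,
    isContLin_clm _, isContLin_clm _, ?_, ?_, ?_, ?_⟩
  · intro z
    refine pext (f := fun z => pml E pc (pml E ic z)) (g := fun z => z)
      ((isContLin_clm _).comp' (isContLin_clm _)) isContLin_id ?_ z
    intro w e
    show pml E pc (pml E ic (pt w e)) = pt w e
    rw [pml_pt, pml_pt, hpcv, hicv, hpi]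
  · intro z
    refine pext (f := fun z => pml E jc (pml E sc z)) (g := fun z => z)
      ((isContLin_clm _).comp' (isContLin_clm _)) isContLin_id ?_ z
    intro w e
    show pml E jc (pml E sc (pt w e)) = pt w e
    rw [pml_pt, pml_pt, hjcv, hscv, hjs]
  · intro z
    refine pext (f := fun z => pml E jc (pml E ic z)) (g := fun _ => 0)
      ((isContLin_clm _).comp' (isContLin_clm _)) (isContLin_clm (0 : PT W' E →L[ℂ] PT W'' E)) ?_ z
    intro w e
    show pml E jc (pml E ic (pt w e)) = 0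
    rw [pml_pt, pml_pt, hjcv, hicv, hji, pt_isContBilin.zero_left]
  · intro z
    refine pext (f := fun z => z) (g := fun z => pml E ic (pml E pc z) + pml E sc (pml E jc z))
      isContLin_id (isContLin_clm (((pml E ic).comp (pml E pc)) + ((pml E sc).comp (pml E jc))))
      ?_ z
    intro w e
    show pt w e = pml E ic (pml E pc (pt w e)) + pml E sc (pml E jc (pt w e))
    rw [pml_pt, pml_pt, pml_pt, pml_pt, ← pt_isContBilin.add_left, hicv, hpcv, hscv, hjcv,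
      ← hdec]

end Adm

end Pool.Agent.R298.Fr
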