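import Mathlib
import Pool.Agent.R298.Fr.E
import Pool.Agent.R298.Fr.DefsPlus

/-!
The modules `A₊` and `A` over a biflat algebra.
-/

set_option autoImplicit false
set_option linter.unusedSectionVars false
set_option linter.unusedVariables false

namespace Pool.Agent.R298.Fr

open Pool.Agent.Helper832.PN Topology Filter

universe u

section Plus

variable {A : Type u} [NonUnitalRing A] [Module ℂ A] [UniformSpace A] [IsFrAlg A]

instance isFrechet_punit : IsFrechet PUnit.{u+1} where
  uniformAddGroup := inferInstance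
  continuousSMul := inferInstance
  polynormable := inferInstance
  t2 := inferInstance
  complete := inferInstance
  firstCountable := inferInstance

lemma isBimod_self : IsBimod (fun a x : A => a * x) (fun x a : A => x * a) :=
  ⟨⟨IsFrAlg.mul_bilin, fun a b x => mul_assoc a b x⟩,
    ⟨IsFrAlg.mul_bilin, fun x a b => (mul_assoc x a b).symm⟩, fun a v b => mul_assoc a v b⟩

lemma fstSmul_bilin {Y : Type u} [AddCommGroup Y] [Module ℂ Y] [UniformSpace Y] [IsFrechet Y]
    {r : Y → A → Y} (hr : IsContBilin r) :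
    IsContBilin (fun (y : Y) (x : ℂ × A) => x.1 • y + r y x.2) := by
  refine ⟨?_, ?_, ?_, ?_, ?_⟩
  · intro y y' x
    simp only [smul_add, hr.add_left]
    abel
  · intro c y x
    simp only [hr.smul_left, smul_add, smul_smul, mul_comm c]
  · intro y x x'
    simp only [Prod.fst_add, Prod.snd_add, add_smul, hr.add_right]
    abel
  · intro c y x
    simp only [Prod.smul_fst, Prod.smul_snd, hr.smul_right, smul_add, smul_smul, smul_eq_mul]
  · have h1 : Continuous fun p : Y × (ℂ × A) => r p.1 p.2.2 :=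
      hr.cont.comp (continuous_fst.prodMk (continuous_snd.comp continuous_snd))
    have h2 : Continuous fun p : Y × (ℂ × A) => p.2.1 • p.1 :=
      (continuous_fst.comp continuous_snd).smul continuous_fst
    exact h2.add h1

/-- `Y ⊗̂_A A₊ = Y`. -/
lemma isTensorOver_plusL {Y : Type u} [AddCommGroup Y] [Module ℂ Y] [UniformSpace Y] [IsFrechet Y]
    {r : Y → A → Y} (hr : IsRightMod r) :
    IsTensorOver r plL (fun (y : Y) (x : ℂ × A) => x.1 • y + r y x.2) := by
  refine ⟨fstSmul_bilin hr.bilin, ?_, ?_⟩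
  · intro y a x
    simp only [plL_eq, zero_smul, zero_add, hr.bilin.add_right, hr.bilin.smul_right, hr.mul]
  · intro Z _ _ _ _ β hβ hbal
    have hv : ∀ y x, β (x.1 • y + r y x.2) (1, 0) = β y x := by
      intro y x
      rw [hβ.add_left, hβ.smul_left, hbal, ← hβ.smul_right, ← hβ.add_right, plL_eq]
      congr 1
      ext <;> simp
    refine ⟨fun y => β y (1, 0), ⟨hβ.isContLin_left _, hv⟩, ?_⟩
    rintro ψ ⟨hψ, hψt⟩
    funext y
    have := hψt y (1, 0)
    simp only [one_smul, hr.bilin.zero_right, add_zero] at this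
    exact this

/-- `A₊ ⊗̂_A X = X`. -/
lemma isTensorOver_plusR {X : Type u} [AddCommGroup X] [Module ℂ X] [UniformSpace X] [IsFrechet X]
    {l : A → X → X} (hl : IsLeftMod l) :
    IsTensorOver plR l (fun (y : ℂ × A) (x : X) => y.1 • x + l y.2 x) := by
  refine ⟨(fstSmul_bilin hl.bilin.flip').flip', ?_, ?_⟩
  · intro y a x
    simp only [plR_eq, zero_smul, zero_add, hl.bilin.add_left, hl.bilin.smul_left, hl.mul]
  · intro Z _ _ _ _ β hβ hbal
    have hv : ∀ y x, β (1, 0) (y.1 • x + l y.2 x) = β y x := by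
      intro y x
      rw [hβ.add_right, hβ.smul_right, ← hbal, ← hβ.smul_left, ← hβ.add_left, plR_eq]
      congr 1
      ext <;> simp
    refine ⟨fun x => β (1, 0) x, ⟨hβ.isContLin_right _, hv⟩, ?_⟩
    rintro ψ ⟨hψ, hψt⟩
    funext x
    have := hψt (1, 0) x
    simp only [one_smul, hl.bilin.zero_left, add_zero] at this
    exact this

/-- `A₊` is a flat left module. -/
theorem flatL_plus : FlatL (plL : A → ℂ × A → ℂ × A) := by
  apply flatL_of_models
  intro Y' Y Y'' _ _ _ _ _ _ _ _ _ _ _ _ r' r r'' i j hr' hr hr'' hadm hir hjr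
  refine ⟨Y', Y, Y'', inferInstance, inferInstance, inferInstance, inferInstance,
    inferInstance, inferInstance, inferInstance, inferInstance, inferInstance, inferInstance,
    inferInstance, inferInstance, _, _, _, i, j, isTensorOver_plusL hr', isTensorOver_plusL hr,
    isTensorOver_plusL hr'', hadm.lin_i, hadm.lin_j, ?_, ?_, IsAdmissible_isExact hadm⟩
  · intro y x
    rw [hadm.lin_i.add, hadm.lin_i.smul, hir]
  · intro y x
    rw [hadm.lin_j.add, hadm.lin_j.smul, hjr]

/-- `A₊` is a flat right module. -/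
theorem flatR_plus : FlatR (plR : ℂ × A → A → ℂ × A) := by
  apply flatR_of_models
  intro Y' Y Y'' _ _ _ _ _ _ _ _ _ _ _ _ r' r r'' i j hr' hr hr'' hadm hir hjr
  refine ⟨Y', Y, Y'', inferInstance, inferInstance, inferInstance, inferInstance,
    inferInstance, inferInstance, inferInstance, inferInstance, inferInstance, inferInstance,
    inferInstance, inferInstance, _, _, _, i, j, isTensorOver_plusR hr', isTensorOver_plusR hr,
    isTensorOver_plusR hr'', hadm.lin_i, hadm.lin_j, ?_, ?_, IsAdmissible_isExact hadm⟩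
  · intro y x
    rw [hadm.lin_i.add, hadm.lin_i.smul, hir]
  · intro y x
    rw [hadm.lin_j.add, hadm.lin_j.smul, hjr]

/-- `(A₊ ⊗̂ Y) ⊗̂_{A-A} A = Y ⊗̂_A A`. -/
lemma exists_biModel_left {Y : Type u} [AddCommGroup Y] [Module ℂ Y] [UniformSpace Y]
    [IsFrechet Y] {r : Y → A → Y} (hr : IsRightMod r)
    {lW : A → PT (ℂ × A) Y → PT (ℂ × A) Y} {rW : PT (ℂ × A) Y → A → PT (ℂ × A) Y}
    (hW : IsBimod lW rW) (hlW : ∀ a x y, lW a (pt x y) = pt (plL a x) y)
    (hrW : ∀ a x y, rW (pt x y) a = pt x (r y a)) :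
    ∃ t : PT (ℂ × A) Y → A → PB r (fun a x : A => a * x),
      IsBiTensorOver lW rW (fun a x : A => a * x) (fun x a : A => x * a) t ∧
      ∀ u y v, t (pt u y) v = pb r (fun a x : A => a * x) y (rdot v u) := by
  let lA : A → A → A := fun a x : A => a * x
  have hpb := pb_isContBilin r lA
  obtain ⟨t, ht, htt⟩ := (IsContTri.mkR (X := Y) (Y := A) (V := ℂ × A) (rdot_bilin (A := A))
    hpb).swap23.swap12.right
  have htt' : ∀ u y v, t (pt u y) v = pb r lA y (rdot v u) := htt
  have hpl : IsContBilin (pt : ℂ × A → Y → PT (ℂ × A) Y) := pt_isContBilin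
  refine ⟨t, ⟨ht, ?_, ?_, ?_⟩, htt'⟩
  · intro w a v
    refine pext (f := fun w => t (rW w a) v) (g := fun w => t w (a * v))
      ((hW.right.bilin.isContLin_left a).comp' (ht.isContLin_left v)) (ht.isContLin_left _) ?_ w
    intro u y
    show t (rW (pt u y) a) v = t (pt u y) (a * v)
    rw [hrW, htt', htt', pb_bal]
    congr 1
    show a * (u.1 • v + v * u.2) = u.1 • (a * v) + (a * v) * u.2
    rw [mul_add, mul_smul', mul_assoc]
  · intro w a v
    refine pext (f := fun w => t (lW a w) v) (g := fun w => t w (v * a))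
      ((hW.left.bilin.isContLin_right a).comp' (ht.isContLin_left v)) (ht.isContLin_left _) ?_ w
    intro u y
    show t (lW a (pt u y)) v = t (pt u y) (v * a)
    rw [hlW, htt', htt', plL_eq]
    congr 1
    show (0 : ℂ) • v + v * (u.1 • a + a * u.2) = u.1 • (v * a) + (v * a) * u.2
    rw [mul_add, mul_smul', mul_assoc, zero_smul, zero_add]
  · intro Z _ _ _ _ β hβ hbr hbl
    have hγ : IsContBilin (fun (y : Y) (v : A) => β (pt (1, 0) y) v) :=
      hβ.comp_lin (hpl.isContLin_right (1, 0)) isContLin_id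
    obtain ⟨φ, ⟨hφ, hφt⟩, -⟩ := (isTensorOver_pb r lA).univ Z _ hγ (by
      intro y a v
      show β (pt (1, 0) (r y a)) v = β (pt (1, 0) y) (a * v)
      rw [← hrW, hbr])
    have hval : ∀ w v, φ (t w v) = β w v := by
      intro w v
      refine pext (f := fun w => φ (t w v)) (g := fun w => β w v)
        ((ht.isContLin_left v).comp' hφ) (hβ.isContLin_left v) ?_ w
      intro u y
      show φ (t (pt u y) v) = β (pt u y) v
      rw [htt', hφt]
      show β (pt (1, 0) y) (u.1 • v + v * u.2) = β (pt u y) v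
      rw [hβ.add_right, hβ.smul_right, ← hbl, hlW, ← hβ.smul_left, ← hβ.add_left,
        ← hpl.smul_left, ← hpl.add_left, plL_eq]
      congr 2
      ext <;> simp
    refine ⟨φ, ⟨hφ, hval⟩, ?_⟩
    rintro ψ ⟨hψ, hψt⟩
    have := (isTensorOver_pb r lA).ext hψ hφ (by
      intro y v
      have h1 := hψt (pt (1, 0) y) v
      have h2 := hval (pt (1, 0) y) v
      have h3 : rdot v ((1 : ℂ), (0 : A)) = v := by
        simp [rdot]
      rw [htt', h3] at h1 h2
      rw [h1, h2])
    exact this

/-- `(X ⊗̂ A₊) ⊗̂_{A-A} A = A ⊗̂_A X`. -/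
lemma exists_biModel_right {X : Type u} [AddCommGroup X] [Module ℂ X] [UniformSpace X]
    [IsFrechet X] {l : A → X → X} (hl : IsLeftMod l)
    {lW : A → PT X (ℂ × A) → PT X (ℂ × A)} {rW : PT X (ℂ × A) → A → PT X (ℂ × A)}
    (hW : IsBimod lW rW) (hlW : ∀ a x y, lW a (pt x y) = pt (l a x) y)
    (hrW : ∀ a x y, rW (pt x y) a = pt x (plR y a)) :
    ∃ t : PT X (ℂ × A) → A → PB (fun x a : A => x * a) l,
      IsBiTensorOver lW rW (fun a x : A => a * x) (fun x a : A => x * a) t ∧
      ∀ x u v, t (pt x u) v = pb (fun x a : A => x * a) l (ldot u v) x := by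
  let rA : A → A → A := fun x a : A => x * a
  have hpb := pb_isContBilin rA l
  obtain ⟨t, ht, htt⟩ := (IsContTri.mkL (X := ℂ × A) (Y := A) (V := X) (ldot_bilin (A := A))
    hpb).swap23.swap12.right
  have htt' : ∀ x u v, t (pt x u) v = pb rA l (ldot u v) x := htt
  have hpl : IsContBilin (pt : X → ℂ × A → PT X (ℂ × A)) := pt_isContBilin
  refine ⟨t, ⟨ht, ?_, ?_, ?_⟩, htt'⟩
  · intro w a v
    refine pext (f := fun w => t (rW w a) v) (g := fun w => t w (a * v))
      ((hW.right.bilin.isContLin_left a).comp' (ht.isContLin_left v)) (ht.isContLin_left _) ?_ w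
    intro x u
    show t (rW (pt x u) a) v = t (pt x u) (a * v)
    rw [hrW, htt', htt', plR_eq]
    congr 1
    show (0 : ℂ) • v + (u.1 • a + u.2 * a) * v = u.1 • (a * v) + u.2 * (a * v)
    rw [add_mul, smul_mul', mul_assoc, zero_smul, zero_add]
  · intro w a v
    refine pext (f := fun w => t (lW a w) v) (g := fun w => t w (v * a))
      ((hW.left.bilin.isContLin_right a).comp' (ht.isContLin_left v)) (ht.isContLin_left _) ?_ w
    intro x u
    show t (lW a (pt x u)) v = t (pt x u) (v * a)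
    rw [hlW, htt', htt', ← pb_bal]
    congr 1
    show (u.1 • v + u.2 * v) * a = u.1 • (v * a) + u.2 * (v * a)
    rw [add_mul, smul_mul', mul_assoc]
  · intro Z _ _ _ _ β hβ hbr hbl
    have hγ : IsContBilin (fun (v : A) (x : X) => β (pt x (1, 0)) v) :=
      (hβ.comp_lin (hpl.isContLin_left (1, 0)) isContLin_id).flip'
    obtain ⟨φ, ⟨hφ, hφt⟩, -⟩ := (isTensorOver_pb rA l).univ Z _ hγ (by
      intro v a x
      show β (pt x (1, 0)) (v * a) = β (pt (l a x) (1, 0)) v
      rw [← hlW, hbl])
    have hval : ∀ w v, φ (t w v) = β w v := by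
      intro w v
      refine pext (f := fun w => φ (t w v)) (g := fun w => β w v)
        ((ht.isContLin_left v).comp' hφ) (hβ.isContLin_left v) ?_ w
      intro x u
      show φ (t (pt x u) v) = β (pt x u) v
      rw [htt', hφt]
      show β (pt x (1, 0)) (u.1 • v + u.2 * v) = β (pt x u) v
      rw [hβ.add_right, hβ.smul_right, ← hbr, hrW, ← hβ.smul_left, ← hβ.add_left,
        ← hpl.smul_right, ← hpl.add_right, plR_eq]
      congr 2
      ext <;> simp
    refine ⟨φ, ⟨hφ, hval⟩, ?_⟩
    rintro ψ ⟨hψ, hψt⟩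
    have := (isTensorOver_pb rA l).ext hψ hφ (by
      intro v x
      have h1 := hψt (pt x (1, 0)) v
      have h2 := hval (pt x (1, 0)) v
      have h3 : ldot ((1 : ℂ), (0 : A)) v = v := by
        simp [ldot]
      rw [htt', h3] at h1 h2
      rw [h1, h2])
    exact this

/-- A biflat algebra is flat as a left module. -/
theorem flatL_of_biflat (h : FlatB (fun a x : A => a * x) (fun x a : A => x * a)) :
    FlatL (fun a x : A => a * x) := by
  apply flatL_of_models
  intro Y' Y Y'' _ _ _ _ _ _ _ _ _ _ _ _ r' r r'' i j hr' hr hr'' hadm hir hjr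
  have hp := isBimod_plus (A := A)
  obtain ⟨lW', rW', hW', hl', hrt'⟩ := exists_bimod hp.left hr'
  obtain ⟨lW, rW, hW, hl, hrt⟩ := exists_bimod hp.left hr
  obtain ⟨lW'', rW'', hW'', hl'', hrt''⟩ := exists_bimod hp.left hr''
  obtain ⟨t', ht', htt'⟩ := exists_biModel_left hr' hW' hl' hrt'
  obtain ⟨t, ht, htt⟩ := exists_biModel_left hr hW hl hrt
  obtain ⟨t'', ht'', htt''⟩ := exists_biModel_left hr'' hW'' hl'' hrt''
  obtain ⟨I, hI⟩ := exists_pbmap (l := fun a x : A => a * x) hadm.lin_i hir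
  obtain ⟨J, hJ⟩ := exists_pbmap (l := fun a x : A => a * x) hadm.lin_j hjr
  have hicv : ∀ y, hadm.lin_i.toCLM y = i y := fun _ => rfl
  have hjcv : ∀ y, hadm.lin_j.toCLM y = j y := fun _ => rfl
  have hex := h (PT (ℂ × A) Y') (PT (ℂ × A) Y) (PT (ℂ × A) Y'') lW' rW' lW rW lW'' rW'' _ _
    hW' hW hW'' (admissible_pmr (ℂ × A) hadm)
    (fun a w => pext (f := fun w => pmr (ℂ × A) hadm.lin_i.toCLM (lW' a w))
      (g := fun w => lW a (pmr (ℂ × A) hadm.lin_i.toCLM w))
      ((hW'.left.bilin.isContLin_right a).comp' (isContLin_clm _))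
      ((isContLin_clm _).comp' (hW.left.bilin.isContLin_right a)) (fun u y => by
        show pmr (ℂ × A) hadm.lin_i.toCLM (lW' a (pt u y)) =
          lW a (pmr (ℂ × A) hadm.lin_i.toCLM (pt u y))
        rw [hl', pmr_pt, pmr_pt, hl]) w)
    (fun w a => pext (f := fun w => pmr (ℂ × A) hadm.lin_i.toCLM (rW' w a))
      (g := fun w => rW (pmr (ℂ × A) hadm.lin_i.toCLM w) a)
      ((hW'.right.bilin.isContLin_left a).comp' (isContLin_clm _))
      ((isContLin_clm _).comp' (hW.right.bilin.isContLin_left a)) (fun u y => by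
        show pmr (ℂ × A) hadm.lin_i.toCLM (rW' (pt u y) a) =
          rW (pmr (ℂ × A) hadm.lin_i.toCLM (pt u y)) a
        rw [hrt', pmr_pt, pmr_pt, hrt, hicv, hicv, hir]) w)
    (fun a w => pext (f := fun w => pmr (ℂ × A) hadm.lin_j.toCLM (lW a w))
      (g := fun w => lW'' a (pmr (ℂ × A) hadm.lin_j.toCLM w))
      ((hW.left.bilin.isContLin_right a).comp' (isContLin_clm _))
      ((isContLin_clm _).comp' (hW''.left.bilin.isContLin_right a)) (fun u y => by
        show pmr (ℂ × A) hadm.lin_j.toCLM (lW a (pt u y)) =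
          lW'' a (pmr (ℂ × A) hadm.lin_j.toCLM (pt u y))
        rw [hl, pmr_pt, pmr_pt, hl'']) w)
    (fun w a => pext (f := fun w => pmr (ℂ × A) hadm.lin_j.toCLM (rW w a))
      (g := fun w => rW'' (pmr (ℂ × A) hadm.lin_j.toCLM w) a)
      ((hW.right.bilin.isContLin_left a).comp' (isContLin_clm _))
      ((isContLin_clm _).comp' (hW''.right.bilin.isContLin_left a)) (fun u y => by
        show pmr (ℂ × A) hadm.lin_j.toCLM (rW (pt u y) a) =
          rW'' (pmr (ℂ × A) hadm.lin_j.toCLM (pt u y)) a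
        rw [hrt, pmr_pt, pmr_pt, hrt'', hjcv, hjcv, hjr]) w)
    _ _ _ t' t t'' ht' ht ht'' (fun x => I x) (fun x => J x) (isContLin_clm I) (isContLin_clm J)
    (fun w v => pext (f := fun w => I (t' w v))
      (g := fun w => t (pmr (ℂ × A) hadm.lin_i.toCLM w) v)
      ((ht'.bilin.isContLin_left v).comp' (isContLin_clm _))
      ((isContLin_clm _).comp' (ht.bilin.isContLin_left v)) (fun u y => by
        show I (t' (pt u y) v) = t (pmr (ℂ × A) hadm.lin_i.toCLM (pt u y)) v
        rw [htt', pmr_pt, htt, hI, hicv]) w)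
    (fun w v => pext (f := fun w => J (t w v))
      (g := fun w => t'' (pmr (ℂ × A) hadm.lin_j.toCLM w) v)
      ((ht.bilin.isContLin_left v).comp' (isContLin_clm _))
      ((isContLin_clm _).comp' (ht''.bilin.isContLin_left v)) (fun u y => by
        show J (t (pt u y) v) = t'' (pmr (ℂ × A) hadm.lin_j.toCLM (pt u y)) v
        rw [htt, pmr_pt, htt'', hJ, hjcv]) w)
  exact ⟨_, _, _, inferInstance, inferInstance, inferInstance, inferInstance,
    inferInstance, inferInstance, inferInstance, inferInstance, inferInstance, inferInstance,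
    inferInstance, inferInstance, _, _, _, (fun x => I x), (fun x => J x),
    isTensorOver_pb r' _, isTensorOver_pb r _, isTensorOver_pb r'' _, isContLin_clm I,
    isContLin_clm J, hI, hJ, hex⟩

/-- A biflat algebra is flat as a right module. -/
theorem flatR_of_biflat (h : FlatB (fun a x : A => a * x) (fun x a : A => x * a)) :
    FlatR (fun x a : A => x * a) := by
  apply flatR_of_models
  intro Y' Y Y'' _ _ _ _ _ _ _ _ _ _ _ _ l' l l'' i j hr' hr hr'' hadm hir hjr
  have hp := isBimod_plus (A := A)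
  obtain ⟨lW', rW', hW', hl', hrt'⟩ := exists_bimod hr' hp.right
  obtain ⟨lW, rW, hW, hl, hrt⟩ := exists_bimod hr hp.right
  obtain ⟨lW'', rW'', hW'', hl'', hrt''⟩ := exists_bimod hr'' hp.right
  obtain ⟨t', ht', htt'⟩ := exists_biModel_right hr' hW' hl' hrt'
  obtain ⟨t, ht, htt⟩ := exists_biModel_right hr hW hl hrt
  obtain ⟨t'', ht'', htt''⟩ := exists_biModel_right hr'' hW'' hl'' hrt''
  have hT' := isTensorOver_pb (fun x a : A => x * a) l'
  have hT := isTensorOver_pb (fun x a : A => x * a) l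
  have hT'' := isTensorOver_pb (fun x a : A => x * a) l''
  obtain ⟨I, ⟨hIc, hI⟩, -⟩ := hT'.univ _ _ (hT.bilin.comp_lin isContLin_id hadm.lin_i)
    (fun y a x => by rw [hir, hT.bal])
  obtain ⟨J, ⟨hJc, hJ⟩, -⟩ := hT.univ _ _ (hT''.bilin.comp_lin isContLin_id hadm.lin_j)
    (fun y a x => by rw [hjr, hT''.bal])
  have hicv : ∀ y, hadm.lin_i.toCLM y = i y := fun _ => rfl
  have hjcv : ∀ y, hadm.lin_j.toCLM y = j y := fun _ => rfl
  have hex := h (PT Y' (ℂ × A)) (PT Y (ℂ × A)) (PT Y'' (ℂ × A)) lW' rW' lW rW lW'' rW'' _ _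
    hW' hW hW'' (admissible_pml (ℂ × A) hadm)
    (fun a w => pext (f := fun w => pml (ℂ × A) hadm.lin_i.toCLM (lW' a w))
      (g := fun w => lW a (pml (ℂ × A) hadm.lin_i.toCLM w))
      ((hW'.left.bilin.isContLin_right a).comp' (isContLin_clm _))
      ((isContLin_clm _).comp' (hW.left.bilin.isContLin_right a)) (fun y u => by
        show pml (ℂ × A) hadm.lin_i.toCLM (lW' a (pt y u)) =
          lW a (pml (ℂ × A) hadm.lin_i.toCLM (pt y u))
        rw [hl', pml_pt, pml_pt, hl, hicv, hicv, hir]) w)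
    (fun w a => pext (f := fun w => pml (ℂ × A) hadm.lin_i.toCLM (rW' w a))
      (g := fun w => rW (pml (ℂ × A) hadm.lin_i.toCLM w) a)
      ((hW'.right.bilin.isContLin_left a).comp' (isContLin_clm _))
      ((isContLin_clm _).comp' (hW.right.bilin.isContLin_left a)) (fun y u => by
        show pml (ℂ × A) hadm.lin_i.toCLM (rW' (pt y u) a) =
          rW (pml (ℂ × A) hadm.lin_i.toCLM (pt y u)) a
        rw [hrt', pml_pt, pml_pt, hrt]) w)
    (fun a w => pext (f := fun w => pml (ℂ × A) hadm.lin_j.toCLM (lW a w))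
      (g := fun w => lW'' a (pml (ℂ × A) hadm.lin_j.toCLM w))
      ((hW.left.bilin.isContLin_right a).comp' (isContLin_clm _))
      ((isContLin_clm _).comp' (hW''.left.bilin.isContLin_right a)) (fun y u => by
        show pml (ℂ × A) hadm.lin_j.toCLM (lW a (pt y u)) =
          lW'' a (pml (ℂ × A) hadm.lin_j.toCLM (pt y u))
        rw [hl, pml_pt, pml_pt, hl'', hjcv, hjcv, hjr]) w)
    (fun w a => pext (f := fun w => pml (ℂ × A) hadm.lin_j.toCLM (rW w a))
      (g := fun w => rW'' (pml (ℂ × A) hadm.lin_j.toCLM w) a)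
      ((hW.right.bilin.isContLin_left a).comp' (isContLin_clm _))
      ((isContLin_clm _).comp' (hW''.right.bilin.isContLin_left a)) (fun y u => by
        show pml (ℂ × A) hadm.lin_j.toCLM (rW (pt y u) a) =
          rW'' (pml (ℂ × A) hadm.lin_j.toCLM (pt y u)) a
        rw [hrt, pml_pt, pml_pt, hrt'']) w)
    _ _ _ t' t t'' ht' ht ht'' I J hIc hJc
    (fun w v => pext (f := fun w => I (t' w v))
      (g := fun w => t (pml (ℂ × A) hadm.lin_i.toCLM w) v)
      ((ht'.bilin.isContLin_left v).comp' hIc)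
      ((isContLin_clm _).comp' (ht.bilin.isContLin_left v)) (fun y u => by
        show I (t' (pt y u) v) = t (pml (ℂ × A) hadm.lin_i.toCLM (pt y u)) v
        rw [htt', pml_pt, htt, hI, hicv]) w)
    (fun w v => pext (f := fun w => J (t w v))
      (g := fun w => t'' (pml (ℂ × A) hadm.lin_j.toCLM w) v)
      ((ht.bilin.isContLin_left v).comp' hJc)
      ((isContLin_clm _).comp' (ht''.bilin.isContLin_left v)) (fun y u => by
        show J (t (pt y u) v) = t'' (pml (ℂ × A) hadm.lin_j.toCLM (pt y u)) v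
        rw [htt, pml_pt, htt'', hJ, hjcv]) w)
  exact ⟨_, _, _, inferInstance, inferInstance, inferInstance, inferInstance,
    inferInstance, inferInstance, inferInstance, inferInstance, inferInstance, inferInstance,
    inferInstance, inferInstance, _, _, _, I, J, hT', hT, hT'', hIc, hJc, hI, hJ, hex⟩

end Plus

end Pool.Agent.R298.Fr
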