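import Mathlib
import Pool.Agent.R298.Fr.F
import Pool.Agent.R298.Fr.DefsPlus

/-!
The weak bidimension of a biflat Fréchet algebra is at most two.
-/

set_option autoImplicit false
set_option linter.unusedSectionVars false
set_option linter.unusedVariables false

namespace Pool.Agent.R298.Fr

open Pool.Agent.Helper832.PN Topology Filter

universe u

section Build

variable {A : Type u} [NonUnitalRing A] [Module ℂ A] [UniformSpace A] [IsFrAlg A]

/-- The zero bimodule. -/
noncomputable def zeroBimod : FrBimod A where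
  carrier := PUnit.{u+1}
  grp := inferInstance
  mod := inferInstance
  unif := inferInstance
  frechet := isFrechet_punit
  l := fun _ x => x
  r := fun x _ => x
  isBimod := by
    have hb : ∀ f : A → PUnit.{u+1} → PUnit.{u+1}, IsContBilin f := fun f =>
      ⟨fun _ _ _ => rfl, fun _ _ _ => rfl, fun _ _ _ => rfl, fun _ _ _ => rfl,
        continuous_of_const (fun _ _ => rfl)⟩
    exact ⟨⟨hb _, fun _ _ _ => rfl⟩, ⟨(hb (fun _ x => x)).flip', fun _ _ _ => rfl⟩, fun _ _ _ => rfl⟩

/-- Short data give a flat resolution of length at most two. -/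
lemma wdh_le_two {M P0 P1 P2 : FrBimod A} {d0 : P1.carrier → P0.carrier}
    {d1 : P2.carrier → P1.carrier} {e : P0.carrier → M.carrier}
    (f0 : FlatB P0.l P0.r) (f1 : FlatB P1.l P1.r) (f2 : FlatB P2.l P2.r)
    (hd0 : IsBimodHom P1 P0 d0) (hd1 : IsBimodHom P2 P1 d1) (he : IsBimodHom P0 M e)
    (h1 : ∀ x, d0 (d1 x) = 0) (h0 : ∀ x, e (d0 x) = 0)
    {s' : M.carrier → P0.carrier} {s0 : P0.carrier → P1.carrier} {s1 : P1.carrier → P2.carrier}
    (hs' : IsContLin s') (hs0 : IsContLin s0) (hs1 : IsContLin s1)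
    (k0 : ∀ m, e (s' m) = m) (k1 : ∀ x, d0 (s0 x) + s' (e x) = x)
    (k2 : ∀ x, d1 (s1 x) + s0 (d0 x) = x) (k3 : ∀ x, s1 (d1 x) = x) : wdh M ≤ 2 := by
  let P : ℕ → FrBimod A := fun n => match n with
    | 0 => P0
    | 1 => P1
    | 2 => P2
    | _ + 3 => zeroBimod
  let d : ∀ n, (P (n + 1)).carrier → (P n).carrier := fun n => match n with
    | 0 => d0
    | 1 => d1
    | 2 => fun _ => (0 : P2.carrier)
    | _ + 3 => fun _ => PUnit.unit
  let s : ∀ n, (P n).carrier → (P (n + 1)).carrier := fun n => match n with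
    | 0 => s0
    | 1 => s1
    | 2 => fun _ => PUnit.unit
    | _ + 3 => fun _ => PUnit.unit
  have z1 : d1 0 = 0 := map_zero hd1.lin.toCLM
  have z2 : s1 0 = 0 := map_zero hs1.toCLM
  have zero_lin : ∀ {X Y : Type u} [AddCommGroup X] [Module ℂ X] [TopologicalSpace X]
      [AddCommGroup Y] [Module ℂ Y] [TopologicalSpace Y], IsContLin (fun _ : X => (0 : Y)) := by
    intro X Y _ _ _ _ _ _
    exact ⟨fun _ _ => (add_zero _).symm, fun _ _ => (smul_zero _).symm, continuous_const⟩
  let R : FlatRes M :=
    { P := P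
      d := d
      aug := e
      flat := by
        intro n
        match n with
        | 0 => exact f0
        | 1 => exact f1
        | 2 => exact f2
        | k + 3 =>
          have : Subsingleton (P (k + 3)).carrier := inferInstanceAs (Subsingleton PUnit.{u+1})
          exact flatB_zero (A := A) (P (k + 3)).l (P (k + 3)).r
      hom_d := by
        intro n
        match n with
        | 0 => exact hd0
        | 1 => exact hd1
        | 2 =>
          refine ⟨zero_lin (X := PUnit.{u+1}) (Y := P2.carrier), ?_, ?_⟩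
          · intro a x
            exact (P2.isBimod.left.bilin.zero_right a).symm
          · intro x a
            exact (P2.isBimod.right.bilin.zero_left a).symm
        | k + 3 =>
          exact ⟨zero_lin (X := PUnit.{u+1}) (Y := PUnit.{u+1}), fun _ _ => rfl, fun _ _ => rfl⟩
      hom_aug := he
      d_d := by
        intro n
        match n with
        | 0 => exact h1
        | 1 => exact fun _ => z1
        | 2 => exact fun _ => rfl
        | k + 3 => exact fun _ => rfl
      aug_d := h0
      homotopy := by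
        refine ⟨s, s', ?_, hs', k0, k1, ?_⟩
        · intro n
          match n with
          | 0 => exact hs0
          | 1 => exact hs1
          | 2 => exact zero_lin (X := P2.carrier) (Y := PUnit.{u+1})
          | k + 3 => exact zero_lin (X := PUnit.{u+1}) (Y := PUnit.{u+1})
        · intro n
          match n with
          | 0 => exact k2
          | 1 =>
            intro x
            show (0 : P2.carrier) + s1 (d1 x) = x
            rw [k3, zero_add]
          | 2 => exact fun _ => rfl
          | k + 3 => exact fun _ => rfl }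
  refine (iInf_le _ R).trans ?_
  apply sInf_le
  refine ⟨2, rfl, ?_⟩
  intro i hi x
  obtain ⟨k, rfl⟩ : ∃ k, i = k + 3 := ⟨i - 3, by omega⟩
  exact Subsingleton.elim (α := PUnit.{u+1}) x 0

/-- **A biflat Fréchet algebra has weak bidimension at most two.** -/
theorem wdb_le_two (h : Biflat A) : wdb A ≤ 2 := by
  have hl := flatL_of_biflat h
  have hr := flatR_of_biflat h
  have hlp := flatL_plus (A := A)
  have hrp := flatR_plus (A := A)
  have hself := isBimod_self (A := A)
  have hplus := isBimod_plus (A := A)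
  -- the four tensor products
  obtain ⟨lpp, rpp, hpp, lppt, rppt⟩ := exists_bimod hplus.left hplus.right
  obtain ⟨lpa, rpa, hpa, lpat, rpat⟩ := exists_bimod hplus.left hself.right
  obtain ⟨lap, rap, hap, lapt, rapt⟩ := exists_bimod hself.left hplus.right
  obtain ⟨laa, raa, haa, laat, raat⟩ := exists_bimod hself.left hself.right
  have fpp := flatB_pt hplus.left hlp hplus.right hrp hpp lppt rppt
  have fpa := flatB_pt hplus.left hlp hself.right hr hpa lpat rpat
  have fap := flatB_pt hself.left hl hplus.right hrp hap lapt rapt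
  have faa := flatB_pt hself.left hl hself.right hr haa laat raat
  have prodBimod : ∀ {V₁ V₂ : Type u} [AddCommGroup V₁] [Module ℂ V₁] [UniformSpace V₁]
      [AddCommGroup V₂] [Module ℂ V₂] [UniformSpace V₂] {l₁ : A → V₁ → V₁} {r₁ : V₁ → A → V₁}
      {l₂ : A → V₂ → V₂} {r₂ : V₂ → A → V₂}, IsBimod l₁ r₁ → IsBimod l₂ r₂ →
      IsBimod (fun a (v : V₁ × V₂) => (l₁ a v.1, l₂ a v.2))
        (fun (v : V₁ × V₂) a => (r₁ v.1 a, r₂ v.2 a)) := by
    intro V₁ V₂ _ _ _ _ _ _ l₁ r₁ l₂ r₂ h₁ h₂
    refine ⟨⟨⟨?_, ?_, ?_, ?_, ?_⟩, ?_⟩, ⟨⟨?_, ?_, ?_, ?_, ?_⟩, ?_⟩, ?_⟩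
    · intro a a' x
      exact Prod.ext (h₁.left.bilin.add_left _ _ _) (h₂.left.bilin.add_left _ _ _)
    · intro a a' x
      exact Prod.ext (h₁.left.bilin.smul_left _ _ _) (h₂.left.bilin.smul_left _ _ _)
    · intro a a' x
      exact Prod.ext (h₁.left.bilin.add_right _ _ _) (h₂.left.bilin.add_right _ _ _)
    · intro a a' x
      exact Prod.ext (h₁.left.bilin.smul_right _ _ _) (h₂.left.bilin.smul_right _ _ _)
    · exact (h₁.left.bilin.cont.comp (continuous_fst.prodMk
        (continuous_fst.comp continuous_snd))).prodMk (h₂.left.bilin.cont.comp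
        (continuous_fst.prodMk (continuous_snd.comp continuous_snd)))
    · intro a b x
      exact Prod.ext (h₁.left.mul _ _ _) (h₂.left.mul _ _ _)
    · intro a a' x
      exact Prod.ext (h₁.right.bilin.add_left _ _ _) (h₂.right.bilin.add_left _ _ _)
    · intro a a' x
      exact Prod.ext (h₁.right.bilin.smul_left _ _ _) (h₂.right.bilin.smul_left _ _ _)
    · intro a a' x
      exact Prod.ext (h₁.right.bilin.add_right _ _ _) (h₂.right.bilin.add_right _ _ _)
    · intro a a' x
      exact Prod.ext (h₁.right.bilin.smul_right _ _ _) (h₂.right.bilin.smul_right _ _ _)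
    · exact (h₁.right.bilin.cont.comp ((continuous_fst.comp continuous_fst).prodMk
        continuous_snd)).prodMk (h₂.right.bilin.cont.comp
        ((continuous_snd.comp continuous_fst).prodMk continuous_snd))
    · intro a b x
      exact Prod.ext (h₁.right.mul _ _ _) (h₂.right.mul _ _ _)
    · intro a v b
      exact Prod.ext (h₁.comm _ _ _) (h₂.comm _ _ _)
  let P0 : FrBimod A := ⟨PT (ℂ × A) (ℂ × A) × A, inferInstance, inferInstance, inferInstance,
    inferInstance, _, _, prodBimod hpp hself⟩
  let P1 : FrBimod A := ⟨PT (ℂ × A) A × PT A (ℂ × A), inferInstance, inferInstance, inferInstance,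
    inferInstance, _, _, prodBimod hpa hap⟩
  let P2 : FrBimod A := ⟨PT A A, inferInstance, inferInstance, inferInstance,
    inferInstance, _, _, haa⟩
  have f0 : FlatB P0.l P0.r := flatB_prod hpp hself fpp h
  have f1 : FlatB P1.l P1.r := flatB_prod hpa hap fpa fap
  have f2 : FlatB P2.l P2.r := faa
  -- the maps
  have bpp : IsContBilin (pt : ℂ × A → ℂ × A → PT (ℂ × A) (ℂ × A)) := pt_isContBilin
  have bpa : IsContBilin (pt : ℂ × A → A → PT (ℂ × A) A) := pt_isContBilin
  have bap : IsContBilin (pt : A → ℂ × A → PT A (ℂ × A)) := pt_isContBilin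
  have baa : IsContBilin (pt : A → A → PT A A) := pt_isContBilin
  -- the product of `A₊`
  have hmulp : IsContBilin (fun u v : ℂ × A => (u.1 • v + (0, rdot u.2 v) : ℂ × A)) := by
    refine ⟨?_, ?_, ?_, ?_, ?_⟩
    · intro x x' y
      have := rdot_bilin.add_left x.2 x'.2 y
      apply Prod.ext
      · simp [add_mul]
      · simp only [Prod.fst_add, Prod.snd_add, Prod.smul_snd, add_smul, this]
        abel
    · intro c x y
      have := rdot_bilin.smul_left c x.2 y
      apply Prod.ext
      · simp [mul_assoc]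
      · simp only [Prod.snd_add, Prod.smul_snd, Prod.smul_fst, this, smul_add, smul_smul,
          smul_eq_mul]
    · intro x y y'
      have := rdot_bilin.add_right x.2 y y'
      apply Prod.ext
      · simp [mul_add]
      · simp only [Prod.snd_add, Prod.smul_snd, smul_add, this]
        abel
    · intro c x y
      have := rdot_bilin.smul_right c x.2 y
      apply Prod.ext
      · simp [mul_left_comm]
      · simp only [Prod.snd_add, Prod.smul_snd, smul_add, this, smul_smul, mul_comm c]
    · have c1 : Continuous fun p : (ℂ × A) × (ℂ × A) => p.1.1 • p.2 :=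
        (continuous_fst.comp continuous_fst).smul continuous_snd
      have c2 : Continuous fun p : (ℂ × A) × (ℂ × A) => rdot p.1.2 p.2 :=
        rdot_bilin.cont.comp ((continuous_snd.comp continuous_fst).prodMk continuous_snd)
      exact c1.add (continuous_const.prodMk c2)
  obtain ⟨π, hπ⟩ := exists_plift hmulp
  have hπ' : ∀ u v : ℂ × A, π (pt u v) = (u.1 * v.1, u.1 • v.2 + (v.1 • u.2 + u.2 * v.2)) := by
    intro u v
    rw [hπ]
    apply Prod.ext
    · simp
    · simp [rdot]
  have iota := iotaLin (A := A)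
  have snd := sndLin (A := A)
  -- `A₊ ⊗ A → A₊ ⊗ A₊`, etc.
  obtain ⟨i1, hi1⟩ := exists_plift (bpp.comp_lin isContLin_id iota)
  obtain ⟨i2, hi2⟩ := exists_plift (bpp.comp_lin iota isContLin_id)
  obtain ⟨m1, hm1⟩ := exists_plift (ldot_bilin (A := A))
  obtain ⟨m2, hm2⟩ := exists_plift (rdot_bilin (A := A))
  obtain ⟨j1, hj1⟩ := exists_plift (bpa.comp_lin iota isContLin_id)
  obtain ⟨j2, hj2⟩ := exists_plift (bap.comp_lin isContLin_id iota)
  obtain ⟨q1, hq1⟩ := exists_plift (bpa.comp_lin isContLin_id snd)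
  have hone : IsContBilin (fun (a : A) (v : ℂ × A) => v.1 • (pt a (1, 0) : PT A (ℂ × A))) := by
    refine ⟨?_, ?_, ?_, ?_, ?_⟩
    · intro a a' v
      rw [bap.add_left, smul_add]
    · intro c a v
      rw [bap.smul_left, smul_comm]
    · intro a v v'
      rw [Prod.fst_add, add_smul]
    · intro c a v
      rw [Prod.smul_fst, smul_smul, smul_eq_mul]
    · exact (continuous_fst.comp continuous_snd).smul ((bap.cont_left (1, 0)).comp continuous_fst)
  obtain ⟨q2, hq2⟩ := exists_plift (hone.comp_lin snd isContLin_id)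
  obtain ⟨w1, hw1⟩ := exists_plift (baa.comp_lin isContLin_id snd)
  -- differentials
  let e : P0.carrier → ℂ × A := fun x => π x.1 + (0, x.2)
  let d0 : P1.carrier → P0.carrier := fun x => (i1 x.1 + i2 x.2, -(m1 x.1) - m2 x.2)
  let d1 : P2.carrier → P1.carrier := fun x => (j1 x, -(j2 x))
  let s' : ℂ × A → P0.carrier := fun x => (x.1 • pt (1, 0) (1, 0), x.2)
  let s0 : P0.carrier → P1.carrier := fun x => (q1 x.1, q2 x.1)
  let s1 : P1.carrier → P2.carrier := fun x => -(w1 x.2)
  have lin_e : IsContLin e := by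
    refine ⟨?_, ?_, ?_⟩
    · intro x y
      show π (x.1 + y.1) + (0, x.2 + y.2) = (π x.1 + (0, x.2)) + (π y.1 + (0, y.2))
      have : ((0, x.2 + y.2) : ℂ × A) = (0, x.2) + (0, y.2) := iota.add _ _
      rw [map_add, this]
      abel
    · intro c x
      show π (c • x.1) + (0, c • x.2) = c • (π x.1 + (0, x.2))
      have : ((0, c • x.2) : ℂ × A) = c • (0, x.2) := iota.smul _ _
      rw [map_smul, this, smul_add]
    · exact (π.continuous.comp continuous_fst).add (iota.cont.comp continuous_snd)
  have lin_d0 : IsContLin d0 := by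
    refine ⟨?_, ?_, ?_⟩
    · intro x y
      apply Prod.ext
      · show i1 (x.1 + y.1) + i2 (x.2 + y.2) = (i1 x.1 + i2 x.2) + (i1 y.1 + i2 y.2)
        rw [map_add, map_add]
        abel
      · show -(m1 (x.1 + y.1)) - m2 (x.2 + y.2) = (-(m1 x.1) - m2 x.2) + (-(m1 y.1) - m2 y.2)
        rw [map_add, map_add]
        abel
    · intro c x
      apply Prod.ext
      · show i1 (c • x.1) + i2 (c • x.2) = c • (i1 x.1 + i2 x.2)
        rw [map_smul, map_smul, smul_add]
      · show -(m1 (c • x.1)) - m2 (c • x.2) = c • (-(m1 x.1) - m2 x.2)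
        rw [map_smul, map_smul, smul_sub, smul_neg]
    · exact ((i1.continuous.comp continuous_fst).add (i2.continuous.comp continuous_snd)).prodMk
        ((m1.continuous.comp continuous_fst).neg.sub (m2.continuous.comp continuous_snd))
  have lin_d1 : IsContLin d1 := by
    refine ⟨?_, ?_, j1.continuous.prodMk j2.continuous.neg⟩
    · intro x y
      apply Prod.ext
      · exact map_add j1 x y
      · show -(j2 (x + y)) = -(j2 x) + -(j2 y)
        rw [map_add, neg_add]
    · intro c x
      apply Prod.ext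
      · exact map_smul j1 c x
      · show -(j2 (c • x)) = c • -(j2 x)
        rw [map_smul, smul_neg]
  have lin_s' : IsContLin s' := by
    refine ⟨?_, ?_, ?_⟩
    · intro x y
      exact Prod.ext (add_smul _ _ _) rfl
    · intro c x
      apply Prod.ext
      · show (c * x.1) • pt (1, 0) (1, 0) = c • (x.1 • pt (1, 0) (1, 0))
        rw [smul_smul]
      · rfl
    · exact (continuous_fst.smul continuous_const).prodMk continuous_snd
  have lin_s0 : IsContLin s0 := by
    refine ⟨?_, ?_, (q1.continuous.comp continuous_fst).prodMk (q2.continuous.comp continuous_fst)⟩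
    · intro x y
      exact Prod.ext (map_add q1 _ _) (map_add q2 _ _)
    · intro c x
      exact Prod.ext (map_smul q1 _ _) (map_smul q2 _ _)
  have lin_s1 : IsContLin s1 := by
    refine ⟨?_, ?_, (w1.continuous.comp continuous_snd).neg⟩
    · intro x y
      show -(w1 (x.2 + y.2)) = -(w1 x.2) + -(w1 y.2)
      rw [map_add, neg_add]
    · intro c x
      show -(w1 (c • x.2)) = c • -(w1 x.2)
      rw [map_smul, smul_neg]
  -- extensionality principles
  have ext0 : ∀ {Z : Type u} [AddCommGroup Z] [Module ℂ Z] [UniformSpace Z] [IsPolynormed Z]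
      {f g : PT (ℂ × A) (ℂ × A) × A → Z}, IsContLin f → IsContLin g →
      (∀ u v, f (pt u v, 0) = g (pt u v, 0)) → (∀ a, f (0, a) = g (0, a)) → ∀ x, f x = g x := by
    intro Z _ _ _ _ f g hf hg h1 h2 x
    have e1 := pext (f := fun z => f (z, 0)) (g := fun z => g (z, 0))
      ((inlLin (X := PT (ℂ × A) (ℂ × A)) (Y := A)).comp' hf)
      ((inlLin (X := PT (ℂ × A) (ℂ × A)) (Y := A)).comp' hg) h1 x.1
    have e3 : x = (x.1, 0) + (0, x.2) := Prod.ext (add_zero _).symm (zero_add _).symm
    have e1' : f (x.1, 0) = g (x.1, 0) := e1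
    rw [e3, hf.add, hg.add, e1', h2]
  have ext1 : ∀ {Z : Type u} [AddCommGroup Z] [Module ℂ Z] [UniformSpace Z] [IsPolynormed Z]
      {f g : PT (ℂ × A) A × PT A (ℂ × A) → Z}, IsContLin f → IsContLin g →
      (∀ u v, f (pt u v, 0) = g (pt u v, 0)) → (∀ u v, f (0, pt u v) = g (0, pt u v)) →
      ∀ x, f x = g x := by
    intro Z _ _ _ _ f g hf hg h1 h2 x
    have e1 := pext (f := fun z => f (z, 0)) (g := fun z => g (z, 0))
      ((inlLin (X := PT (ℂ × A) A) (Y := PT A (ℂ × A))).comp' hf)
      ((inlLin (X := PT (ℂ × A) A) (Y := PT A (ℂ × A))).comp' hg) h1 x.1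
    have e2 := pext (f := fun z => f (0, z)) (g := fun z => g (0, z))
      ((inrLin (X := PT (ℂ × A) A) (Y := PT A (ℂ × A))).comp' hf)
      ((inrLin (X := PT (ℂ × A) A) (Y := PT A (ℂ × A))).comp' hg) h2 x.2
    have e3 : x = (x.1, 0) + (0, x.2) := Prod.ext (add_zero _).symm (zero_add _).symm
    have e1' : f (x.1, 0) = g (x.1, 0) := e1
    have e2' : f (0, x.2) = g (0, x.2) := e2
    rw [e3, hf.add, hg.add, e1', e2']
  -- values
  have vi1 : ∀ u b, i1 (pt u b) = pt u (0, b) := hi1
  have vi2 : ∀ a v, i2 (pt a v) = pt (0, a) v := hi2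
  have vm1 : ∀ u b, m1 (pt u b) = ldot u b := hm1
  have vm2 : ∀ a v, m2 (pt a v) = rdot a v := hm2
  have vj1 : ∀ a b, j1 (pt a b) = pt (0, a) b := hj1
  have vj2 : ∀ a b, j2 (pt a b) = pt a (0, b) := hj2
  have vq1 : ∀ u v, q1 (pt u v) = pt u v.2 := hq1
  have vq2 : ∀ u v, q2 (pt u v) = v.1 • (pt u.2 (1, 0) : PT A (ℂ × A)) := hq2
  have vw1 : ∀ a v, w1 (pt a v) = pt a v.2 := hw1
  refine wdh_le_two (M := plusBimod A) (P0 := P0) (P1 := P1) (P2 := P2) (d0 := d0) (d1 := d1)
    (e := e) (s' := s') (s0 := s0) (s1 := s1) f0 f1 f2 ⟨lin_d0, ?_, ?_⟩ ⟨lin_d1, ?_, ?_⟩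
    ⟨lin_e, ?_, ?_⟩ ?_ ?_ lin_s' lin_s0 lin_s1 ?_ ?_ ?_ ?_
  · -- `d0` left
    intro a
    refine ext1 (f := fun x => d0 (P1.l a x)) (g := fun x => P0.l a (d0 x))
      ((P1.isBimod.left.bilin.isContLin_right a).comp' lin_d0)
      (lin_d0.comp' (P0.isBimod.left.bilin.isContLin_right a)) ?_ ?_
    · intro u b
      apply Prod.ext
      · show i1 (lpa a (pt u b)) + i2 (lap a 0) = lpp a (i1 (pt u b) + i2 0)
        rw [lpat, hap.left.bilin.zero_right, map_zero, vi1, vi1, add_zero, add_zero, lppt]
      · show -(m1 (lpa a (pt u b))) - m2 (lap a 0) = a * (-(m1 (pt u b)) - m2 0)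
        rw [lpat, hap.left.bilin.zero_right, map_zero, vm1, vm1, sub_zero, sub_zero, plL_eq,
          mul_neg]
        simp only [ldot, zero_smul, zero_add, mul_add, add_mul, smul_mul', mul_smul', mul_assoc]
    · intro b v
      apply Prod.ext
      · show i1 (lpa a 0) + i2 (lap a (pt b v)) = lpp a (i1 0 + i2 (pt b v))
        rw [lapt, hpa.left.bilin.zero_right, map_zero, vi2, vi2, zero_add, zero_add, lppt, plL_eq]
        simp
      · show -(m1 (lpa a 0)) - m2 (lap a (pt b v)) = a * (-(m1 0) - m2 (pt b v))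
        rw [lapt, hpa.left.bilin.zero_right, map_zero, vm2, vm2, neg_zero, zero_sub, zero_sub,
          mul_neg]
        simp only [rdot, mul_add, mul_smul', mul_assoc]
  · -- `d0` right
    intro x a
    refine ext1 (f := fun x => d0 (P1.r x a)) (g := fun x => P0.r (d0 x) a)
      ((P1.isBimod.right.bilin.isContLin_left a).comp' lin_d0)
      (lin_d0.comp' (P0.isBimod.right.bilin.isContLin_left a)) ?_ ?_ x
    · intro u b
      apply Prod.ext
      · show i1 (rpa (pt u b) a) + i2 (rap 0 a) = rpp (i1 (pt u b) + i2 0) a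
        rw [rpat, hap.right.bilin.zero_left, map_zero, vi1, vi1, add_zero, add_zero, rppt, plR_eq]
        simp
      · show -(m1 (rpa (pt u b) a)) - m2 (rap 0 a) = (-(m1 (pt u b)) - m2 0) * a
        rw [rpat, hap.right.bilin.zero_left, map_zero, vm1, vm1, sub_zero, sub_zero, neg_mul]
        simp only [ldot, add_mul, smul_mul', mul_assoc]
    · intro b v
      apply Prod.ext
      · show i1 (rpa 0 a) + i2 (rap (pt b v) a) = rpp (i1 0 + i2 (pt b v)) a
        rw [rapt, hpa.right.bilin.zero_left, map_zero, vi2, vi2, zero_add, zero_add, rppt]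
      · show -(m1 (rpa 0 a)) - m2 (rap (pt b v) a) = (-(m1 0) - m2 (pt b v)) * a
        rw [rapt, hpa.right.bilin.zero_left, map_zero, vm2, vm2, neg_zero, zero_sub, zero_sub,
          neg_mul, plR_eq]
        simp only [rdot, zero_smul, zero_add, add_mul, mul_add, smul_mul', mul_smul', mul_assoc]
  · -- `d1` left
    intro a x
    refine pext (f := fun x => d1 (laa a x)) (g := fun x => P1.l a (d1 x))
      ((haa.left.bilin.isContLin_right a).comp' lin_d1)
      (lin_d1.comp' (P1.isBimod.left.bilin.isContLin_right a)) ?_ x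
    intro b c
    apply Prod.ext
    · show j1 (laa a (pt b c)) = lpa a (j1 (pt b c))
      rw [laat, vj1, vj1, lpat, plL_eq]
      simp
    · show -(j2 (laa a (pt b c))) = lap a (-(j2 (pt b c)))
      rw [laat, vj2, vj2, hap.left.bilin.neg_right, lapt]
  · -- `d1` right
    intro x a
    refine pext (f := fun x => d1 (raa x a)) (g := fun x => P1.r (d1 x) a)
      ((haa.right.bilin.isContLin_left a).comp' lin_d1)
      (lin_d1.comp' (P1.isBimod.right.bilin.isContLin_left a)) ?_ x
    intro b c
    apply Prod.ext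
    · show j1 (raa (pt b c) a) = rpa (j1 (pt b c)) a
      rw [raat, vj1, vj1, rpat]
    · show -(j2 (raa (pt b c) a)) = rap (-(j2 (pt b c))) a
      rw [raat, vj2, vj2, hap.right.bilin.neg_left, rapt, plR_eq]
      simp
  · -- `e` left
    intro a
    refine ext0 (f := fun x => e (P0.l a x)) (g := fun x => plL a (e x))
      ((P0.isBimod.left.bilin.isContLin_right a).comp' lin_e)
      (lin_e.comp' (hplus.left.bilin.isContLin_right a)) ?_ ?_
    · intro u v
      show π (lpp a (pt u v)) + (0, a * 0) = plL a (π (pt u v) + (0, 0))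
      rw [lppt, hπ', hπ', plL_eq, plL_eq]
      apply Prod.ext
      · simp
      · simp only [Prod.snd_add, Prod.fst_add, mul_zero, add_zero, zero_smul, zero_add, mul_add,
          add_mul, smul_mul', mul_smul', mul_assoc, smul_add, smul_smul]
        rw [mul_comm u.1 v.1]
        abel
    · intro b
      show π (lpp a 0) + (0, a * b) = plL a (π 0 + (0, b))
      rw [hpp.left.bilin.zero_right, map_zero, zero_add, zero_add, plL_eq]
      simp
  · -- `e` right
    intro x a
    refine ext0 (f := fun x => e (P0.r x a)) (g := fun x => plR (e x) a)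
      ((P0.isBimod.right.bilin.isContLin_left a).comp' lin_e)
      (lin_e.comp' (hplus.right.bilin.isContLin_left a)) ?_ ?_ x
    · intro u v
      show π (rpp (pt u v) a) + (0, 0 * a) = plR (π (pt u v) + (0, 0)) a
      rw [rppt, hπ', hπ', plR_eq, plR_eq]
      apply Prod.ext
      · simp
      · simp only [Prod.snd_add, Prod.fst_add, zero_mul, add_zero, zero_smul, zero_add, mul_add,
          add_mul, smul_mul', mul_smul', mul_assoc, smul_add, smul_smul]
        abel
    · intro b
      show π (rpp 0 a) + (0, b * a) = plR (π 0 + (0, b)) a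
      rw [hpp.right.bilin.zero_left, map_zero, zero_add, zero_add, plR_eq]
      simp
  · -- `d0 d1 = 0`
    intro x
    refine pext (f := fun x => d0 (d1 x)) (g := fun _ => (0 : PT (ℂ × A) (ℂ × A) × A))
      (lin_d1.comp' lin_d0) (isContLin_clm (0 : PT A A →L[ℂ] PT (ℂ × A) (ℂ × A) × A)) ?_ x
    intro a b
    apply Prod.ext
    · show i1 (j1 (pt a b)) + i2 (-(j2 (pt a b))) = 0
      rw [vj1, vj2, map_neg, vi1, vi2]
      abel
    · show -(m1 (j1 (pt a b))) - m2 (-(j2 (pt a b))) = 0
      rw [vj1, vj2, map_neg, vm1, vm2]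
      simp [ldot, rdot]
  · -- `e d0 = 0`
    refine ext1 (f := fun x => e (d0 x)) (g := fun _ => (0 : ℂ × A)) (lin_d0.comp' lin_e)
      (isContLin_clm (0 : PT (ℂ × A) A × PT A (ℂ × A) →L[ℂ] ℂ × A)) ?_ ?_
    · intro u b
      show π (i1 (pt u b) + i2 0) + (0, -(m1 (pt u b)) - m2 0) = 0
      rw [map_zero, map_zero, add_zero, sub_zero, vi1, vm1, hπ']
      apply Prod.ext
      · simp
      · simp [ldot]
    · intro a v
      show π (i1 0 + i2 (pt a v)) + (0, -(m1 0) - m2 (pt a v)) = 0
      rw [map_zero, map_zero, zero_add, neg_zero, zero_sub, vi2, vm2, hπ']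
      apply Prod.ext
      · simp
      · simp [rdot]
  · -- `e s' = 1`
    intro m
    have key : ∀ m : ℂ × A, π (m.1 • pt (1, 0) (1, 0)) + (0, m.2) = m := by
      intro m
      rw [map_smul, hπ']
      apply Prod.ext
      · simp
      · simp
    exact key m
  · -- `d0 s0 + s' e = 1`
    have hsum : IsContLin (fun x => d0 (s0 x) + s' (e x)) := by
      refine ⟨?_, ?_, ?_⟩
      · intro x y
        rw [lin_s0.add, lin_d0.add, lin_e.add, lin_s'.add]
        abel
      · intro c x
        rw [lin_s0.smul, lin_d0.smul, lin_e.smul, lin_s'.smul, smul_add]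
      · exact (lin_d0.cont.comp lin_s0.cont).add (lin_s'.cont.comp lin_e.cont)
    refine ext0 (f := fun x => d0 (s0 x) + s' (e x)) (g := fun x => x) hsum isContLin_id ?_ ?_
    · intro u v
      apply Prod.ext
      · show (i1 (q1 (pt u v)) + i2 (q2 (pt u v))) + (π (pt u v) + (0, 0)).1 • pt (1, 0) (1, 0) =
          pt u v
        rw [vq1, vq2, map_smul, vi1, vi2, hπ']
        have e1 : pt u v = (pt u (0, v.2) + v.1 • pt (0, u.2) (1, 0)) +
            (u.1 * v.1) • (pt (1, 0) (1, 0) : PT (ℂ × A) (ℂ × A)) := by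
          have hv : v = (0, v.2) + v.1 • ((1 : ℂ), (0 : A)) := by
            apply Prod.ext <;> simp
          have hu : u = (0, u.2) + u.1 • ((1 : ℂ), (0 : A)) := by
            apply Prod.ext <;> simp
          have e2 : pt u v = pt u (0, v.2) + v.1 • (pt u (1, 0) : PT (ℂ × A) (ℂ × A)) :=
            (congrArg (fun w => (pt u w : PT (ℂ × A) (ℂ × A))) hv).trans
              ((bpp.add_right _ _ _).trans (by rw [bpp.smul_right]))
          have e3 : pt u (1, 0) = pt (0, u.2) (1, 0) +
              u.1 • (pt (1, 0) (1, 0) : PT (ℂ × A) (ℂ × A)) :=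
            (congrArg (fun w => (pt w (1, 0) : PT (ℂ × A) (ℂ × A))) hu).trans
              ((bpp.add_left _ _ _).trans (by rw [bpp.smul_left]))
          rw [e2, e3, smul_add, smul_smul, mul_comm v.1, add_assoc]
        rw [e1]
        simp
      · show (-(m1 (q1 (pt u v))) - m2 (q2 (pt u v))) + (π (pt u v) + (0, 0)).2 = 0
        rw [vq1, vq2, map_smul, vm1, vm2, hπ']
        simp only [ldot, rdot, Prod.snd_add, add_zero, mul_zero, one_smul]
        abel
    · intro a
      apply Prod.ext
      · show (i1 (q1 0) + i2 (q2 0)) + (π 0 + (0, a)).1 • pt (1, 0) (1, 0) = 0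
        rw [map_zero, map_zero, map_zero, map_zero, map_zero]
        simp
      · show (-(m1 (q1 0)) - m2 (q2 0)) + (π 0 + (0, a)).2 = a
        rw [map_zero, map_zero, map_zero, map_zero, map_zero]
        simp
  · -- `d1 s1 + s0 d0 = 1`
    have hsum : IsContLin (fun x => d1 (s1 x) + s0 (d0 x)) := by
      refine ⟨?_, ?_, ?_⟩
      · intro x y
        rw [lin_s1.add, lin_d1.add, lin_d0.add, lin_s0.add]
        abel
      · intro c x
        rw [lin_s1.smul, lin_d1.smul, lin_d0.smul, lin_s0.smul, smul_add]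
      · exact (lin_d1.cont.comp lin_s1.cont).add (lin_s0.cont.comp lin_d0.cont)
    refine ext1 (f := fun x => d1 (s1 x) + s0 (d0 x)) (g := fun x => x) hsum isContLin_id ?_ ?_
    · intro u b
      apply Prod.ext
      · show j1 (-(w1 0)) + q1 (i1 (pt u b) + i2 0) = pt u b
        rw [map_zero, map_zero, neg_zero, map_zero, add_zero, vi1, vq1, zero_add]
      · show -(j2 (-(w1 0))) + q2 (i1 (pt u b) + i2 0) = 0
        rw [map_zero, map_zero, neg_zero, map_zero, add_zero, vi1, vq2, neg_zero, zero_add,
          zero_smul]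
    · intro a v
      apply Prod.ext
      · show j1 (-(w1 (pt a v))) + q1 (i1 0 + i2 (pt a v)) = 0
        rw [map_zero, zero_add, vw1, map_neg, vj1, vi2, vq1]
        abel
      · show -(j2 (-(w1 (pt a v)))) + q2 (i1 0 + i2 (pt a v)) = pt a v
        rw [map_zero, zero_add, vw1, map_neg, vj2, vi2, vq2, neg_neg, ← bap.smul_right,
          ← bap.add_right]
        congr 1
        apply Prod.ext <;> simp
  · -- `s1 d1 = 1`
    intro x
    refine pext (f := fun x => s1 (d1 x)) (g := fun x => x) (lin_d1.comp' lin_s1) isContLin_id ?_ x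
    intro a b
    show -(w1 (-(j2 (pt a b)))) = pt a b
    rw [map_neg, vj2, vw1, neg_neg]

end Build

end Pool.Agent.R298.Fr
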